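import Pool.Agent.Helper93.MA.Defs

/-!
Project MA, module Basic: the mean over a period.
-/

set_option autoImplicit false

open Real

namespace Pool.Agent.Helper93.MA

theorem M_const (c : ℝ) : M (fun _ => c) = c := by
  unfold M
  rw [intervalIntegral.integral_const, smul_eq_mul, sub_zero]
  have : (2 : ℝ) * π ≠ 0 := by positivity
  field_simp

theorem M_mul (c : ℝ) (f : ℝ → ℝ) : M (fun x => c * f x) = c * M f := by
  unfold M
  rw [intervalIntegral.integral_const_mul]
  ring

theorem M_add {f g : ℝ → ℝ} (hf : Continuous f) (hg : Continuous g) :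
    M (fun x => f x + g x) = M f + M g := by
  unfold M
  rw [intervalIntegral.integral_add (hf.intervalIntegrable _ _) (hg.intervalIntegrable _ _)]
  ring

theorem M_sub {f g : ℝ → ℝ} (hf : Continuous f) (hg : Continuous g) :
    M (fun x => f x - g x) = M f - M g := by
  unfold M
  rw [intervalIntegral.integral_sub (hf.intervalIntegrable _ _) (hg.intervalIntegrable _ _)]
  ring

theorem M_congr {f g : ℝ → ℝ} (h : ∀ x, f x = g x) : M f = M g := by
  have : f = g := funext h
  rw [this]

theorem two_pi_pos' : (0 : ℝ) < 2 * π := by positivity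

theorem M_nonneg {f : ℝ → ℝ} (h : ∀ x, 0 ≤ f x) : 0 ≤ M f := by
  unfold M
  refine mul_nonneg (by positivity) ?_
  exact intervalIntegral.integral_nonneg two_pi_pos'.le fun x _ => h x

theorem M_mono {f g : ℝ → ℝ} (hf : Continuous f) (hg : Continuous g) (h : ∀ x, f x ≤ g x) :
    M f ≤ M g := by
  have h1 : 0 ≤ M (fun x => g x - f x) := M_nonneg fun x => by linarith [h x]
  rw [M_sub hg hf] at h1
  linarith

theorem M_le {f : ℝ → ℝ} (hf : Continuous f) {C : ℝ} (h : ∀ x, f x ≤ C) : M f ≤ C := by
  have h1 := M_mono hf continuous_const h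
  rwa [M_const] at h1

theorem le_M {f : ℝ → ℝ} (hf : Continuous f) {C : ℝ} (h : ∀ x, C ≤ f x) : C ≤ M f := by
  have h1 := M_mono continuous_const hf h
  rwa [M_const] at h1

theorem abs_M_le {f : ℝ → ℝ} (hf : Continuous f) {C : ℝ} (h : ∀ x, |f x| ≤ C) : |M f| ≤ C :=
  abs_le.mpr ⟨le_M hf fun x => (abs_le.mp (h x)).1, M_le hf fun x => (abs_le.mp (h x)).2⟩

theorem CP.shift {f : ℝ → ℝ} (hf : CP f) (a : ℝ) : CP (fun x => f (x + a)) where
  cont := hf.cont.comp (by fun_prop)
  per x := by
    have : x + 2 * π + a = (x + a) + 2 * π := by ring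
    simp only [this]
    exact hf.per _

theorem M_shift {f : ℝ → ℝ} (hf : CP f) (a : ℝ) : M (fun x => f (x + a)) = M f := by
  unfold M
  congr 1
  rw [intervalIntegral.integral_comp_add_right (fun x => f x) a]
  have hp : Function.Periodic f (2 * π) := hf.per
  have h := hp.intervalIntegral_add_eq a 0
  rw [zero_add] at h
  rw [zero_add, add_comm (2 * π) a]
  exact h

theorem M_neg {f : ℝ → ℝ} (hf : CP f) : M (fun x => f (-x)) = M f := by
  unfold M
  congr 1
  rw [intervalIntegral.integral_comp_neg (fun x => f x), neg_zero]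
  have hp : Function.Periodic f (2 * π) := hf.per
  have h := hp.intervalIntegral_add_eq (-(2 * π)) 0
  rw [zero_add, neg_add_cancel] at h
  exact h

theorem M_swap {F : ℝ → ℝ → ℝ} (hF : Continuous (fun p : ℝ × ℝ => F p.1 p.2)) :
    M (fun x => M (fun y => F x y)) = M (fun y => M (fun x => F x y)) := by
  unfold M
  rw [intervalIntegral.integral_const_mul, intervalIntegral.integral_const_mul]
  congr 2
  refine MeasureTheory.intervalIntegral_intervalIntegral_swap ?_
  have h1 : Function.uncurry F = fun p : ℝ × ℝ => F p.1 p.2 := by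
    funext p
    rfl
  rw [h1]
  have h2 : IsCompact (Set.uIcc (0 : ℝ) (2 * π) ×ˢ Set.uIcc (0 : ℝ) (2 * π)) :=
    isCompact_uIcc.prod isCompact_uIcc
  exact (hF.continuousOn.integrableOn_compact h2).mono_set
    (Set.prod_mono Set.uIoc_subset_uIcc Set.uIoc_subset_uIcc)

theorem M_cont {F : ℝ → ℝ → ℝ} (hF : Continuous (fun p : ℝ × ℝ => F p.1 p.2)) :
    Continuous (fun x => M (fun y => F x y)) := by
  unfold M
  refine continuous_const.mul ?_
  exact intervalIntegral.continuous_parametric_intervalIntegral_of_continuous' hF _ _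

end Pool.Agent.Helper93.MA
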