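import Pool.Agent.Helper93.MA.Defs

/-!
Project MA, module Stokes: the divergence theorem in the left half plane.

Write `U = Re (GG h)`; `U` is harmonic on the left half plane `Re w < 0`, the partial derivatives
are `U_s = Re (GD h)`, `U_x = -Im (GD h)` and `GD h` is holomorphic there.  `GG h (w + 2πi) =
GG h w + 2πi`, so `U`, `GD h` have period `2π` in `x`.  With `E = ‖exp (GG h)‖^2 = exp (2 U)`:
the field `(1/2) S(E) (U_s, U_x)` has the divergence
`S'(E) E (U_s^2 + U_x^2) + (1/2) S(E) (U_ss + U_xx) = φ(E) ‖exp (GG h) * GD h‖^2`.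
Use Mathlib's divergence theorem on the rectangle `[a, b] × [0, 2π]`
(`MeasureTheory.integral2_divergence_prod_of_hasFDerivAt_off_countable` or
`MeasureTheory.integral_divergence_prod_Icc_of_hasFDerivAt_of_le`); the contributions of the two
sides `x = 0` and `x = 2π` cancel by periodicity.
-/

set_option autoImplicit false

open Real Metric MeasureTheory

namespace Pool.Agent.Helper93.MA

/-- the plane as pairs -/
noncomputable def stL : ℝ × ℝ →L[ℝ] ℂ :=
  Complex.ofRealCLM.comp (ContinuousLinearMap.fst ℝ ℝ ℝ) +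
    (Complex.I) • (Complex.ofRealCLM.comp (ContinuousLinearMap.snd ℝ ℝ ℝ))

theorem stL_apply (p : ℝ × ℝ) : stL p = (p.1 : ℂ) + (p.2 : ℂ) * Complex.I := by
  simp [stL, mul_comm]

theorem stL_re (p : ℝ × ℝ) : (stL p).re = p.1 := by
  simp [stL_apply]

theorem exp_mem_ball {w : ℂ} (hw : w.re < 0) : Complex.exp w ∈ ball (0 : ℂ) 1 := by
  rw [mem_ball_zero_iff, Complex.norm_exp]
  rw [← Real.exp_zero]
  exact Real.exp_lt_exp.2 hw

theorem hasDerivAt_GG {h : ℂ → ℂ} (hh : DifferentiableOn ℂ h (ball 0 1)) {w : ℂ} (hw : w.re < 0) :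
    HasDerivAt (GG h) (GD h w) w := by
  have h1 : HasDerivAt h (deriv h (Complex.exp w)) (Complex.exp w) :=
    ((hh.differentiableAt (isOpen_ball.mem_nhds (exp_mem_ball hw)))).hasDerivAt
  have h2 := (hasDerivAt_id w).add (h1.comp w (Complex.hasDerivAt_exp w))
  have h3 : GD h w = 1 + deriv h (Complex.exp w) * Complex.exp w := by
    unfold GD
    ring
  rw [h3]
  exact h2

theorem isOpen_left : IsOpen {w : ℂ | w.re < 0} := isOpen_lt Complex.continuous_re continuous_const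

theorem differentiableAt_GD {h : ℂ → ℂ} (hh : DifferentiableOn ℂ h (ball 0 1)) {w : ℂ}
    (hw : w.re < 0) : DifferentiableAt ℂ (GD h) w := by
  have h1 : DifferentiableAt ℂ (deriv h) (Complex.exp w) :=
    (hh.deriv isOpen_ball).differentiableAt (isOpen_ball.mem_nhds (exp_mem_ball hw))
  have h2 : DifferentiableAt ℂ (fun w => deriv h (Complex.exp w)) w :=
    DifferentiableAt.comp w h1 Complex.differentiableAt_exp
  unfold GD
  exact (differentiableAt_const _).add (Complex.differentiableAt_exp.mul h2)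

theorem GG_per (h : ℂ → ℂ) (s : ℝ) :
    GG h ((s : ℂ) + ((2 * π : ℝ) : ℂ) * Complex.I) =
      GG h ((s : ℂ) + ((0 : ℝ) : ℂ) * Complex.I) + 2 * π * Complex.I := by
  unfold GG
  have h1 : Complex.exp ((s : ℂ) + ((2 * π : ℝ) : ℂ) * Complex.I) =
      Complex.exp ((s : ℂ) + ((0 : ℝ) : ℂ) * Complex.I) := by
    rw [Complex.exp_eq_exp_iff_exists_int]
    refine ⟨1, ?_⟩
    push_cast
    ring
  rw [h1]
  push_cast
  ring

theorem GD_per (h : ℂ → ℂ) (s : ℝ) :
    GD h ((s : ℂ) + ((2 * π : ℝ) : ℂ) * Complex.I) =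
      GD h ((s : ℂ) + ((0 : ℝ) : ℂ) * Complex.I) := by
  unfold GD
  have h1 : Complex.exp ((s : ℂ) + ((2 * π : ℝ) : ℂ) * Complex.I) =
      Complex.exp ((s : ℂ) + ((0 : ℝ) : ℂ) * Complex.I) := by
    rw [Complex.exp_eq_exp_iff_exists_int]
    refine ⟨1, ?_⟩
    push_cast
    ring
  rw [h1]

theorem expGG_per (h : ℂ → ℂ) (s : ℝ) :
    Complex.exp (GG h ((s : ℂ) + ((2 * π : ℝ) : ℂ) * Complex.I)) =
      Complex.exp (GG h ((s : ℂ) + ((0 : ℝ) : ℂ) * Complex.I)) := by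
  rw [GG_per, Complex.exp_eq_exp_iff_exists_int]
  exact ⟨1, by push_cast; ring⟩

/-- the energy in the plane -/
noncomputable def stE (h : ℂ → ℂ) (p : ℝ × ℝ) : ℝ := ‖Complex.exp (GG h (stL p))‖ ^ 2

theorem hasFDerivAt_stE {h : ℂ → ℂ} (hh : DifferentiableOn ℂ h (ball 0 1)) {p : ℝ × ℝ}
    (hp : p.1 < 0) :
    HasFDerivAt (stE h) ((2 * stE h p) •
      (Complex.reCLM.comp (((GD h (stL p)) • (1 : ℂ →L[ℝ] ℂ)).comp stL))) p := by
  have hw : (stL p).re < 0 := by rwa [stL_re]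
  have h0 : HasFDerivAt (GG h) ((GD h (stL p)) • (1 : ℂ →L[ℝ] ℂ)) (stL p) := by
    have h1 := (hasDerivAt_GG hh hw).complexToReal_fderiv
    exact h1
  have h1 : HasFDerivAt (fun p : ℝ × ℝ => GG h (stL p))
      (((GD h (stL p)) • (1 : ℂ →L[ℝ] ℂ)).comp stL) p :=
    HasFDerivAt.comp p h0 stL.hasFDerivAt
  have h2 : HasFDerivAt (fun p : ℝ × ℝ => (GG h (stL p)).re)
      (Complex.reCLM.comp (((GD h (stL p)) • (1 : ℂ →L[ℝ] ℂ)).comp stL)) p :=
    HasFDerivAt.comp p (Complex.reCLM.hasFDerivAt) h1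
  have h3 := (h2.exp).pow 2
  have e : stE h = fun p : ℝ × ℝ => Real.exp ((GG h (stL p)).re) ^ 2 := by
    funext p
    unfold stE
    rw [Complex.norm_exp]
  rw [e]
  refine h3.congr_fderiv ?_
  ext v
  · simp
    ring
  · simp
    ring

theorem hasFDerivAt_GDL {h : ℂ → ℂ} (hh : DifferentiableOn ℂ h (ball 0 1)) {p : ℝ × ℝ}
    (hp : p.1 < 0) :
    HasFDerivAt (fun p : ℝ × ℝ => GD h (stL p))
      (((deriv (GD h) (stL p)) • (1 : ℂ →L[ℝ] ℂ)).comp stL) p := by
  have hw : (stL p).re < 0 := by rwa [stL_re]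
  have h0 : HasFDerivAt (GD h) ((deriv (GD h) (stL p)) • (1 : ℂ →L[ℝ] ℂ)) (stL p) :=
    ((differentiableAt_GD hh hw).hasDerivAt).complexToReal_fderiv
  exact HasFDerivAt.comp (g := GD h) (f := stL) p h0 stL.hasFDerivAt

theorem stokes {h : ℂ → ℂ} (hh : DifferentiableOn ℂ h (ball 0 1)) {S φ : ℝ → ℝ}
    (hS : ∀ t, HasDerivAt S (φ t) t) (hφ : Continuous φ) {a b : ℝ} (hab : a ≤ b) (hb : b < 0) :
    ∫ s in a..b, ∫ x in (0 : ℝ)..(2 * π),
        φ (‖Complex.exp (GG h ((s : ℂ) + (x : ℂ) * Complex.I))‖ ^ 2) *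
          ‖Complex.exp (GG h ((s : ℂ) + (x : ℂ) * Complex.I)) *
            GD h ((s : ℂ) + (x : ℂ) * Complex.I)‖ ^ 2 =
      1 / 2 * (∫ x in (0 : ℝ)..(2 * π),
        S (‖Complex.exp (GG h ((b : ℂ) + (x : ℂ) * Complex.I))‖ ^ 2) *
          (GD h ((b : ℂ) + (x : ℂ) * Complex.I)).re)
      - 1 / 2 * (∫ x in (0 : ℝ)..(2 * π),
        S (‖Complex.exp (GG h ((a : ℂ) + (x : ℂ) * Complex.I))‖ ^ 2) *
          (GD h ((a : ℂ) + (x : ℂ) * Complex.I)).re) := by
  have hE : ∀ p : ℝ × ℝ, p.1 < 0 → HasFDerivAt (fun p => S (stE h p))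
      ((φ (stE h p)) • ((2 * stE h p) •
      (Complex.reCLM.comp (((GD h (stL p)) • (1 : ℂ →L[ℝ] ℂ)).comp stL)))) p := by
    intro p hp
    exact (hS (stE h p)).comp_hasFDerivAt p (hasFDerivAt_stE hh hp)
  have hre : ∀ p : ℝ × ℝ, p.1 < 0 → HasFDerivAt (fun p : ℝ × ℝ => (GD h (stL p)).re)
      (Complex.reCLM.comp (((deriv (GD h) (stL p)) • (1 : ℂ →L[ℝ] ℂ)).comp stL)) p := by
    intro p hp
    exact HasFDerivAt.comp p (Complex.reCLM.hasFDerivAt) (hasFDerivAt_GDL hh hp)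
  have him : ∀ p : ℝ × ℝ, p.1 < 0 → HasFDerivAt (fun p : ℝ × ℝ => (GD h (stL p)).im)
      (Complex.imCLM.comp (((deriv (GD h) (stL p)) • (1 : ℂ →L[ℝ] ℂ)).comp stL)) p := by
    intro p hp
    exact HasFDerivAt.comp p (Complex.imCLM.hasFDerivAt) (hasFDerivAt_GDL hh hp)
  have hf : ∀ p : ℝ × ℝ, p.1 < 0 → HasFDerivAt
      (fun p : ℝ × ℝ => 1 / 2 * (S (stE h p) * (GD h (stL p)).re)) _ p :=
    fun p hp => ((hE p hp).mul (hre p hp)).const_mul (1 / 2)
  have hg : ∀ p : ℝ × ℝ, p.1 < 0 → HasFDerivAt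
      (fun p : ℝ × ℝ => -(1 / 2) * (S (stE h p) * (GD h (stL p)).im)) _ p :=
    fun p hp => ((hE p hp).mul (him p hp)).const_mul (-(1 / 2))
  have h2π : (0 : ℝ) ≤ 2 * π := by positivity
  have hlt : ∀ p : ℝ × ℝ, p ∈ Set.uIcc a b ×ˢ Set.uIcc 0 (2 * π) → p.1 < 0 := by
    intro p hp
    rw [Set.uIcc_of_le hab] at hp
    exact lt_of_le_of_lt hp.1.2 hb
  have hlt' : ∀ p : ℝ × ℝ, p ∈ (Set.Ioo (min a b) (max a b) ×ˢ
      Set.Ioo (min 0 (2 * π)) (max 0 (2 * π))) \ (∅ : Set (ℝ × ℝ)) → p.1 < 0 := by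
    intro p hp
    rw [max_eq_right hab] at hp
    exact lt_of_lt_of_le hp.1.1.2 hb.le
  have key : ∀ p : ℝ × ℝ, φ (stE h p) * ‖Complex.exp (GG h (stL p)) * GD h (stL p)‖ ^ 2 =
      φ (stE h p) * (stE h p * ((GD h (stL p)).re ^ 2 + (GD h (stL p)).im ^ 2)) := by
    intro p
    rw [norm_mul, mul_pow, ← Complex.normSq_eq_norm_sq (GD h (stL p)), Complex.normSq_apply]
    unfold stE
    ring
  have hcontE : ContinuousOn (stE h) (Set.uIcc a b ×ˢ Set.uIcc 0 (2 * π)) := fun p hp =>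
    ((hasFDerivAt_stE hh (hlt p hp)).continuousAt).continuousWithinAt
  have hcontD : ContinuousOn (fun p : ℝ × ℝ => GD h (stL p))
      (Set.uIcc a b ×ˢ Set.uIcc 0 (2 * π)) :=
    fun p hp => ((hasFDerivAt_GDL hh (hlt p hp)).continuousAt).continuousWithinAt
  have hcont : ContinuousOn (fun p : ℝ × ℝ =>
      φ (stE h p) * (stE h p * ((GD h (stL p)).re ^ 2 + (GD h (stL p)).im ^ 2)))
      (Set.uIcc a b ×ˢ Set.uIcc 0 (2 * π)) := by
    refine (hφ.comp_continuousOn hcontE).mul (hcontE.mul ?_)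
    exact ((Complex.continuous_re.comp_continuousOn hcontD).pow 2).add
      ((Complex.continuous_im.comp_continuousOn hcontD).pow 2)
  have hval : ∀ p : ℝ × ℝ,
      ((1 / 2 : ℝ) •
            (S (stE h p) • Complex.reCLM.comp
                (((deriv (GD h) (stL p)) • (1 : ℂ →L[ℝ] ℂ)).comp stL) +
              (GD h (stL p)).re • φ (stE h p) • (2 * stE h p) •
                Complex.reCLM.comp (((GD h (stL p)) • (1 : ℂ →L[ℝ] ℂ)).comp stL))) (1, 0) +
        ((-(1 / 2) : ℝ) •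
            (S (stE h p) • Complex.imCLM.comp
                (((deriv (GD h) (stL p)) • (1 : ℂ →L[ℝ] ℂ)).comp stL) +
              (GD h (stL p)).im • φ (stE h p) • (2 * stE h p) •
                Complex.reCLM.comp (((GD h (stL p)) • (1 : ℂ →L[ℝ] ℂ)).comp stL))) (0, 1) =
      φ (stE h p) * (stE h p * ((GD h (stL p)).re ^ 2 + (GD h (stL p)).im ^ 2)) := by
    intro p
    have h1 : stL (1, 0) = 1 := by simp [stL_apply]
    have h2 : stL (0, 1) = Complex.I := by simp [stL_apply]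
    simp [h1, h2]
    ring
  have hdiv := integral2_divergence_prod_of_hasFDerivAt_off_countable
    (fun p : ℝ × ℝ => 1 / 2 * (S (stE h p) * (GD h (stL p)).re))
    (fun p : ℝ × ℝ => -(1 / 2) * (S (stE h p) * (GD h (stL p)).im))
    _ _ a 0 b (2 * π) ∅ Set.countable_empty
    (fun p hp => (hf p (hlt p hp)).continuousAt.continuousWithinAt)
    (fun p hp => (hg p (hlt p hp)).continuousAt.continuousWithinAt)
    (fun p hp => hf p (hlt' p hp)) (fun p hp => hg p (hlt' p hp)) (by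
      have h1 : IsCompact (Set.uIcc a b ×ˢ Set.uIcc (0 : ℝ) (2 * π)) :=
        isCompact_uIcc.prod isCompact_uIcc
      refine (hcont.integrableOn_compact h1).congr_fun ?_ h1.measurableSet
      intro p _
      exact (hval p).symm)
  have e1 : ∀ s x : ℝ, stL (s, x) = (s : ℂ) + (x : ℂ) * Complex.I := fun s x => stL_apply (s, x)
  have e2 : ∀ s : ℝ, S (stE h (s, 2 * π)) * (GD h (stL (s, 2 * π))).im =
      S (stE h (s, 0)) * (GD h (stL (s, 0))).im := by
    intro s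
    unfold stE
    rw [e1, e1, GD_per, expGG_per]
  simp only [hval, ← key, e2, sub_self, zero_add, intervalIntegral.integral_const_mul] at hdiv
  simp only [stE, e1] at hdiv
  exact hdiv

end Pool.Agent.Helper93.MA
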