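import Pool.Agent.Helper93.MA.Cov
import Pool.Agent.Helper93.MA.Stokes
import Pool.Agent.Helper93.MA.Basic

/-!
Project MA, module AreaB: the area is at least a boundary integral.

For `0 < ε < 1` put `φ t = max 0 (min 1 ((1-t)/ε))` and `S t = ∫ u in 0..t, φ u`: `φ` is
continuous, `0 ≤ φ ≤ 1`, `φ t = 0` for `t ≥ 1`, `S' = φ`, and for `t ≥ 0`: `0 ≤ S t ≤ t`,
`|S t - min t 1| ≤ ε` (`φ = 1` on `[0, 1-ε]`).  `cov` and `stokes` with `b = log r` and `a → -∞`:
the term at `a` is bounded by `‖exp (GG h)‖^2 |GD h| ≤ C exp (2a) → 0`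
(`‖exp (GG h (a + i x))‖ = exp a * exp (Re h (pt (exp a) x))`, `h` and `z * deriv h z` are bounded
near `0`).  So `(1/2) ∫ S(‖exp (GG h)‖^2) (GD h).re ≤ area f` on the line `Re = log r`, where
`exp (log r + i x) = pt r x`, `(GD h).re = 1 + (pt r x * deriv h (pt r x)).re`,
`‖exp (GG h)‖ = exp (rho h r x)`.  Let `ε → 0`; `min (exp ρ) 1 ^ 2 = min (exp (2 ρ)) 1`.
-/

set_option autoImplicit false

open Real Metric MeasureTheory

namespace Pool.Agent.Helper93.MA

/-- the cutoff -/
noncomputable def phiE (ε t : ℝ) : ℝ := max 0 (min 1 ((1 - t) / ε))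

/-- its primitive -/
noncomputable def SE (ε t : ℝ) : ℝ := ∫ u in (0 : ℝ)..t, phiE ε u

theorem phiE_cont (ε : ℝ) : Continuous (phiE ε) := by
  unfold phiE
  fun_prop

theorem phiE_nonneg (ε t : ℝ) : 0 ≤ phiE ε t := le_max_left _ _

theorem phiE_le_one (ε t : ℝ) : phiE ε t ≤ 1 := max_le zero_le_one (min_le_left _ _)

theorem phiE_zero {ε t : ℝ} (hε : 0 < ε) (ht : 1 ≤ t) : phiE ε t = 0 := by
  unfold phiE
  have h1 : (1 - t) / ε ≤ 0 := div_nonpos_of_nonpos_of_nonneg (by linarith) hε.le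
  exact max_eq_left ((min_le_right _ _).trans h1)

theorem phiE_one {ε t : ℝ} (hε : 0 < ε) (ht : t ≤ 1 - ε) : phiE ε t = 1 := by
  unfold phiE
  have h1 : 1 ≤ (1 - t) / ε := by
    rw [le_div_iff₀ hε]
    linarith
  rw [min_eq_left h1]
  exact max_eq_right zero_le_one

theorem phiE_int (ε s t : ℝ) : IntervalIntegrable (phiE ε) volume s t :=
  (phiE_cont ε).intervalIntegrable _ _

theorem SE_hasDerivAt (ε t : ℝ) : HasDerivAt (SE ε) (phiE ε t) t :=
  ((phiE_cont ε).integral_hasStrictDerivAt 0 t).hasDerivAt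

theorem SE_nonneg {ε t : ℝ} (ht : 0 ≤ t) : 0 ≤ SE ε t :=
  intervalIntegral.integral_nonneg ht fun u _ => phiE_nonneg ε u

theorem SE_le {ε t : ℝ} (ht : 0 ≤ t) : SE ε t ≤ t := by
  have h1 : SE ε t ≤ ∫ _ in (0 : ℝ)..t, (1 : ℝ) :=
    intervalIntegral.integral_mono_on ht (phiE_int ε _ _) intervalIntegrable_const
      fun u _ => phiE_le_one ε u
  rw [intervalIntegral.integral_const, smul_eq_mul, mul_one, sub_zero] at h1
  exact h1

theorem SE_add (ε s t : ℝ) : SE ε t = SE ε s + ∫ u in s..t, phiE ε u :=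
  (intervalIntegral.integral_add_adjacent_intervals (phiE_int ε _ _) (phiE_int ε _ _)).symm

theorem SE_mono {ε s t : ℝ} (hst : s ≤ t) : SE ε s ≤ SE ε t := by
  rw [SE_add ε s t]
  have := intervalIntegral.integral_nonneg (μ := volume) hst fun u _ => phiE_nonneg ε u
  linarith

theorem SE_eq {ε t : ℝ} (hε : 0 < ε) (ht : 0 ≤ t) (ht1 : t ≤ 1 - ε) : SE ε t = t := by
  have h1 : SE ε t = ∫ _ in (0 : ℝ)..t, (1 : ℝ) := by
    refine intervalIntegral.integral_congr fun u hu => ?_
    rw [Set.uIcc_of_le ht] at hu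
    exact phiE_one hε (hu.2.trans ht1)
  rw [h1, intervalIntegral.integral_const, smul_eq_mul, mul_one, sub_zero]

theorem SE_const {ε t : ℝ} (hε : 0 < ε) (ht : 1 ≤ t) : SE ε t = SE ε 1 := by
  rw [SE_add ε 1 t]
  have h1 : ∫ u in (1 : ℝ)..t, phiE ε u = ∫ _ in (1 : ℝ)..t, (0 : ℝ) := by
    refine intervalIntegral.integral_congr fun u hu => ?_
    rw [Set.uIcc_of_le ht] at hu
    exact phiE_zero hε hu.1
  rw [h1, intervalIntegral.integral_zero, add_zero]

theorem SE_le_min {ε t : ℝ} (hε : 0 < ε) (ht : 0 ≤ t) : SE ε t ≤ min t 1 := by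
  refine le_min (SE_le ht) ?_
  rcases le_total t 1 with h | h
  · exact (SE_le ht).trans h
  · rw [SE_const hε h]
    exact SE_le zero_le_one

theorem min_sub_le_SE {ε t : ℝ} (hε : 0 < ε) (hε1 : ε < 1) (ht : 0 ≤ t) :
    min t 1 - ε ≤ SE ε t := by
  rcases le_total t (1 - ε) with h | h
  · rw [SE_eq hε ht h]
    have := min_le_left t 1
    linarith
  · have h1 := SE_mono (ε := ε) h
    rw [SE_eq hε (by linarith) le_rfl] at h1
    have := min_le_right t 1
    linarith

theorem abs_SE_sub {ε t : ℝ} (hε : 0 < ε) (hε1 : ε < 1) (ht : 0 ≤ t) :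
    |SE ε t - min t 1| ≤ ε := by
  rw [abs_le]
  constructor
  · have := min_sub_le_SE hε hε1 ht
    linarith
  · have := SE_le_min hε ht
    linarith

theorem norm_pt (r x : ℝ) (r0 : 0 ≤ r) : ‖pt r x‖ = r := by
  unfold pt
  rw [norm_mul, Complex.norm_exp_ofReal_mul_I, mul_one, Complex.norm_real, Real.norm_eq_abs,
    abs_of_nonneg r0]

theorem pt_mem (r x : ℝ) (r0 : 0 ≤ r) (r1 : r < 1) : pt r x ∈ ball (0 : ℂ) 1 := by
  rw [mem_ball_zero_iff, norm_pt r x r0]
  exact r1

theorem exp_line (s x : ℝ) : Complex.exp ((s : ℂ) + (x : ℂ) * Complex.I) = pt (Real.exp s) x := by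
  unfold pt
  rw [Complex.exp_add, Complex.ofReal_exp]

theorem norm_expGG (h : ℂ → ℂ) (s x : ℝ) :
    ‖Complex.exp (GG h ((s : ℂ) + (x : ℂ) * Complex.I))‖ =
      Real.exp s * Real.exp (h (pt (Real.exp s) x)).re := by
  unfold GG
  rw [Complex.norm_exp, exp_line, Complex.add_re, Complex.add_re, Complex.ofReal_re,
    Complex.mul_re, Complex.ofReal_re, Complex.I_re, Complex.ofReal_im, Complex.I_im,
    Real.exp_add]
  simp

theorem GD_line (h : ℂ → ℂ) (s x : ℝ) :
    (GD h ((s : ℂ) + (x : ℂ) * Complex.I)).re =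
      1 + (pt (Real.exp s) x * deriv h (pt (Real.exp s) x)).re := by
  unfold GD
  rw [exp_line, Complex.add_re, Complex.one_re]

theorem cont_pt (r : ℝ) : Continuous (pt r) := by
  unfold pt
  fun_prop

theorem cont_h_pt {h : ℂ → ℂ} (hh : DifferentiableOn ℂ h (ball 0 1)) {r : ℝ} (r0 : 0 ≤ r)
    (r1 : r < 1) : Continuous fun x => h (pt r x) :=
  hh.continuousOn.comp_continuous (cont_pt r) fun x => pt_mem r x r0 r1

theorem cont_dh_pt {h : ℂ → ℂ} (hh : DifferentiableOn ℂ h (ball 0 1)) {r : ℝ} (r0 : 0 ≤ r)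
    (r1 : r < 1) : Continuous fun x => (pt r x * deriv h (pt r x)).re := by
  have h1 : ContinuousOn (deriv h) (ball 0 1) := (hh.deriv isOpen_ball).continuousOn
  have h2 : Continuous fun x => deriv h (pt r x) :=
    h1.comp_continuous (cont_pt r) fun x => pt_mem r x r0 r1
  exact Complex.continuous_re.comp ((cont_pt r).mul h2)

/-- bounds near the origin -/
theorem near_zero {h : ℂ → ℂ} (hh : DifferentiableOn ℂ h (ball 0 1)) :
    ∃ C : ℝ, 0 ≤ C ∧ ∀ s x : ℝ, Real.exp s ≤ 1 / 2 →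
      ‖h (pt (Real.exp s) x)‖ ≤ C ∧
        ‖pt (Real.exp s) x * deriv h (pt (Real.exp s) x)‖ ≤ C := by
  have hK : IsCompact (closedBall (0 : ℂ) (1 / 2)) := isCompact_closedBall _ _
  have hsub : closedBall (0 : ℂ) (1 / 2) ⊆ ball 0 1 := closedBall_subset_ball (by norm_num)
  obtain ⟨C1, hC1⟩ := hK.exists_bound_of_continuousOn (hh.continuousOn.mono hsub)
  obtain ⟨C2, hC2⟩ := hK.exists_bound_of_continuousOn
    (((continuousOn_id.mul (hh.deriv isOpen_ball).continuousOn)).mono hsub)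
  refine ⟨max 0 (max C1 C2), le_max_left _ _, fun s x hs => ?_⟩
  have hm : pt (Real.exp s) x ∈ closedBall (0 : ℂ) (1 / 2) := by
    rw [mem_closedBall_zero_iff, norm_pt _ _ (Real.exp_pos s).le]
    exact hs
  refine ⟨(hC1 _ hm).trans ((le_max_left _ _).trans (le_max_right _ _)), ?_⟩
  exact (hC2 _ hm).trans ((le_max_right _ _).trans (le_max_right _ _))

theorem area_ge_eps {f h : ℂ → ℂ} (hf : ClassS f) (hh : LogF f h) {r : ℝ} (r0 : 0 < r)
    (r1 : r < 1) {ε : ℝ} (hε : 0 < ε) :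
    1 / 2 * (∫ x in (0 : ℝ)..(2 * π),
      SE ε (Real.exp (rho h r x) ^ 2) * (1 + (pt r x * deriv h (pt r x)).re)) ≤ area f := by
  have hb : Real.log r < 0 := Real.log_neg r0 r1
  have hexp : Real.exp (Real.log r) = r := Real.exp_log r0
  obtain ⟨C, hC0, hC⟩ := near_zero hh.diff
  have hlim : Filter.Tendsto (fun a : ℝ => area f + π * (Real.exp (2 * C) * (1 + C)) *
      Real.exp a ^ 2) Filter.atBot (nhds (area f)) := by
    have h1 : Filter.Tendsto (fun a : ℝ => Real.exp a ^ 2) Filter.atBot (nhds (0 ^ 2)) :=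
      Real.tendsto_exp_atBot.pow 2
    have h2 := (h1.const_mul (π * (Real.exp (2 * C) * (1 + C)))).const_add (area f)
    simpa using h2
  refine ge_of_tendsto hlim ?_
  have he : ∀ᶠ a : ℝ in Filter.atBot, a ≤ min (Real.log r) (Real.log (1 / 2)) :=
    Filter.eventually_le_atBot _
  filter_upwards [he] with a ha
  have hab : a ≤ Real.log r := ha.trans (min_le_left _ _)
  have ha2 : Real.exp a ≤ 1 / 2 := by
    have := Real.exp_le_exp.2 (ha.trans (min_le_right _ _))
    rwa [Real.exp_log (by norm_num)] at this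
  have hcov := cov hf hh (phiE_cont ε) (phiE_nonneg ε) (phiE_le_one ε)
    (fun t ht => phiE_zero hε ht) hab hb
  rw [stokes hh.diff (SE_hasDerivAt ε) (phiE_cont ε) hab hb] at hcov
  have e1 : ∀ x : ℝ, SE ε (‖Complex.exp (GG h (((Real.log r : ℝ) : ℂ) + (x : ℂ) * Complex.I))‖ ^ 2) *
      (GD h (((Real.log r : ℝ) : ℂ) + (x : ℂ) * Complex.I)).re =
      SE ε (Real.exp (rho h r x) ^ 2) * (1 + (pt r x * deriv h (pt r x)).re) := by
    intro x
    rw [norm_expGG, GD_line, hexp]
    unfold rho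
    rw [Real.exp_add, hexp]
  have e2 : |∫ x in (0 : ℝ)..(2 * π),
        SE ε (‖Complex.exp (GG h ((a : ℂ) + (x : ℂ) * Complex.I))‖ ^ 2) *
          (GD h ((a : ℂ) + (x : ℂ) * Complex.I)).re| ≤
      (Real.exp a ^ 2 * Real.exp (2 * C) * (1 + C)) * |2 * π - 0| := by
    rw [← Real.norm_eq_abs]
    refine intervalIntegral.norm_integral_le_of_norm_le_const fun x _ => ?_
    obtain ⟨hc1, hc2⟩ := hC a x ha2
    rw [norm_mul, Real.norm_eq_abs, Real.norm_eq_abs, norm_expGG, GD_line]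
    have h3 : (h (pt (Real.exp a) x)).re ≤ C :=
      ((le_abs_self _).trans (Complex.abs_re_le_norm _)).trans hc1
    have h4 : |(pt (Real.exp a) x * deriv h (pt (Real.exp a) x)).re| ≤ C :=
      (Complex.abs_re_le_norm _).trans hc2
    have h5 : (0 : ℝ) ≤ (Real.exp a * Real.exp (h (pt (Real.exp a) x)).re) ^ 2 := by positivity
    have h6 : (Real.exp a * Real.exp (h (pt (Real.exp a) x)).re) ^ 2 ≤
        Real.exp a ^ 2 * Real.exp (2 * C) := by
      rw [mul_pow]
      refine mul_le_mul_of_nonneg_left ?_ (by positivity)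
      rw [← Real.exp_nat_mul]
      refine Real.exp_le_exp.2 ?_
      push_cast
      linarith
    have h7 : |SE ε ((Real.exp a * Real.exp (h (pt (Real.exp a) x)).re) ^ 2)| ≤
        Real.exp a ^ 2 * Real.exp (2 * C) := by
      rw [abs_of_nonneg (SE_nonneg h5)]
      exact (SE_le h5).trans h6
    have h8 : |1 + (pt (Real.exp a) x * deriv h (pt (Real.exp a) x)).re| ≤ 1 + C := by
      refine (abs_add_le _ _).trans ?_
      rw [abs_one]
      linarith
    exact mul_le_mul h7 h8 (abs_nonneg _) (by positivity)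
  rw [sub_zero, abs_of_pos two_pi_pos'] at e2
  have e3 := (abs_le.1 e2).2
  simp only [e1] at hcov
  nlinarith [hcov, e3]

theorem area_ge {f h : ℂ → ℂ} (hf : ClassS f) (hh : LogF f h) {r : ℝ} (r0 : 0 < r) (r1 : r < 1) :
    π * (M (fun x => W (rho h r) x ^ 2)
      + M (fun x => W (rho h r) x ^ 2 * (pt r x * deriv h (pt r x)).re)) ≤ area f := by
  have hcg := cont_dh_pt hh.diff r0.le r1
  have hcr : Continuous (rho h r) := by
    unfold rho
    exact continuous_const.add (Complex.continuous_re.comp (cont_h_pt hh.diff r0.le r1))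
  have hcW : Continuous (fun x => W (rho h r) x ^ 2) := by
    unfold W
    exact ((Real.continuous_exp.comp hcr).min continuous_const).pow 2
  have hW : ∀ x, W (rho h r) x ^ 2 = min (Real.exp (rho h r x) ^ 2) 1 := by
    intro x
    unfold W
    have hp : 0 < Real.exp (rho h r x) := Real.exp_pos _
    rcases le_total (Real.exp (rho h r x)) 1 with h1 | h1
    · rw [min_eq_left h1, min_eq_left (by nlinarith)]
    · rw [min_eq_right h1, min_eq_right (by nlinarith), one_pow]
  have hcg1 : Continuous fun x => 1 + (pt r x * deriv h (pt r x)).re := continuous_const.add hcg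
  obtain ⟨G, hG⟩ := (isCompact_uIcc (a := (0 : ℝ)) (b := 2 * π)).exists_bound_of_continuousOn
    hcg1.continuousOn
  have hG0 : 0 ≤ G := (norm_nonneg _).trans (hG 0 Set.left_mem_uIcc)
  have hcWg : Continuous fun x => W (rho h r) x ^ 2 * (pt r x * deriv h (pt r x)).re :=
    hcW.mul hcg
  rw [← M_add hcW hcWg]
  have e0 : π * M (fun x => W (rho h r) x ^ 2 + W (rho h r) x ^ 2 * (pt r x * deriv h (pt r x)).re)
      = 1 / 2 * ∫ x in (0 : ℝ)..(2 * π),
        min (Real.exp (rho h r x) ^ 2) 1 * (1 + (pt r x * deriv h (pt r x)).re) := by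
    unfold M
    have : ∀ x, W (rho h r) x ^ 2 + W (rho h r) x ^ 2 * (pt r x * deriv h (pt r x)).re =
        min (Real.exp (rho h r x) ^ 2) 1 * (1 + (pt r x * deriv h (pt r x)).re) := by
      intro x
      rw [hW x]
      ring
    simp only [this]
    have hpi : π ≠ 0 := Real.pi_ne_zero
    field_simp
  rw [e0]
  have hlim : Filter.Tendsto (fun ε : ℝ => area f + π * G * ε) (nhdsWithin 0 (Set.Ioo 0 1))
      (nhds (area f)) := by
    have h1 : Filter.Tendsto (fun ε : ℝ => area f + π * G * ε) (nhds 0)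
        (nhds (area f + π * G * 0)) := by
      have : Continuous fun ε : ℝ => area f + π * G * ε := by fun_prop
      exact this.tendsto 0
    rw [mul_zero, add_zero] at h1
    exact h1.mono_left nhdsWithin_le_nhds
  have : (nhdsWithin (0 : ℝ) (Set.Ioo 0 1)).NeBot := by
    rw [← mem_closure_iff_nhdsWithin_neBot, closure_Ioo (by norm_num)]
    exact ⟨le_rfl, zero_le_one⟩
  refine ge_of_tendsto hlim ?_
  filter_upwards [self_mem_nhdsWithin] with ε hε
  have h1 := area_ge_eps hf hh r0 r1 hε.1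
  have hcS : Continuous (SE ε) :=
    continuous_iff_continuousAt.2 fun t => (SE_hasDerivAt ε t).continuousAt
  have hcE : Continuous fun x => Real.exp (rho h r x) ^ 2 := (Real.continuous_exp.comp hcr).pow 2
  have hc1 : Continuous fun x =>
      SE ε (Real.exp (rho h r x) ^ 2) * (1 + (pt r x * deriv h (pt r x)).re) :=
    (hcS.comp hcE).mul hcg1
  have hc2 : Continuous fun x =>
      min (Real.exp (rho h r x) ^ 2) 1 * (1 + (pt r x * deriv h (pt r x)).re) :=
    (hcE.min continuous_const).mul hcg1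
  have h2 : |(∫ x in (0 : ℝ)..(2 * π),
      min (Real.exp (rho h r x) ^ 2) 1 * (1 + (pt r x * deriv h (pt r x)).re)) -
      ∫ x in (0 : ℝ)..(2 * π),
        SE ε (Real.exp (rho h r x) ^ 2) * (1 + (pt r x * deriv h (pt r x)).re)| ≤
      (ε * G) * |2 * π - 0| := by
    rw [← intervalIntegral.integral_sub (hc2.intervalIntegrable _ _)
      (hc1.intervalIntegrable _ _), ← Real.norm_eq_abs]
    refine intervalIntegral.norm_integral_le_of_norm_le_const fun x hx => ?_
    rw [← sub_mul, norm_mul]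
    refine mul_le_mul ?_ (hG x (Set.uIoc_subset_uIcc hx)) (norm_nonneg _) hε.1.le
    rw [Real.norm_eq_abs, abs_sub_comm]
    exact abs_SE_sub hε.1 hε.2 (by positivity)
  rw [sub_zero, abs_of_pos two_pi_pos'] at h2
  have h3 := (abs_le.1 h2).2
  nlinarith [h1, h3]

end Pool.Agent.Helper93.MA
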