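import Pool.Agent.Helper93.MA.Cheb

/-!
Project MA, module CertD: certificates for the inequality `FI`.
-/

set_option autoImplicit false

open Real

namespace Pool.Agent.Helper93.MA

/-- data of a certificate -/
structure Cert where
  p1 : ℚ
  p2 : ℚ
  nu : ℚ
  K : ℚ
  v0 : ℚ
  d : List ℚ
  t : List ℚ
  R : List ℚ

def tau : ℚ := 1 / 1000000

namespace Cert

def D (c : Cert) : List ℚ := chL c.d

def L (c : Cert) : List ℚ := chL (lamL c.d 0)

/-- `t^2 + t^3 + t^4 + t^5` -/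
def sg (t : List ℚ) : List ℚ :=
  mulQ t (mulQ t (addQ [1] (mulQ t (addQ [1] (mulQ t (addQ [1] t))))))

/-- `(2/3) t^3 + (3/4) t^4 + (4/5) t^5 + (5/6) t^6` -/
def gm (t : List ℚ) : List ℚ :=
  mulQ t (mulQ t (mulQ t (addQ [2 / 3] (mulQ t (addQ [3 / 4] (mulQ t (addQ [4 / 5]
    (scQ (5 / 6) t))))))))

def A (c : Cert) : List ℚ :=
  addQ [-2 + c.nu] (addQ (scQ c.nu (sg c.t)) (addQ (scQ 4 c.L) (scQ (2 + c.nu) c.D)))

def B (c : Cert) : List ℚ := addQ [1] (scQ (-2) c.D)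

def P1 (c : Cert) : List ℚ :=
  addQ (mulQ [tau, 2] (addQ c.A (scQ (c.p1 * c.K) c.B))) [c.p1]

def P2 (c : Cert) : List ℚ :=
  addQ (mulQ [tau, 2] c.A) (addQ [c.p1] (scQ c.p1 c.B))

def val (c : Cert) : ℚ :=
  1 - c.nu * c.p2 - 2 * meanQ (mulQ c.D c.L) - (1 + c.nu / 2) * meanQ (mulQ c.D c.D)
    + c.p1 * meanQ (mulQ c.R (mulQ c.D c.D)) - c.nu * meanQ (gm c.t)

/-- elementary conditions -/
def ck0 (c : Cert) : Bool :=
  decide (0 < c.v0) && decide (c.v0 < 1) && decide (0 ≤ c.nu) && decide (0 ≤ c.p1) &&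
    decide (0 ≤ c.K) && decide (c.K * (2 * c.v0 + tau) ≤ 1) && decide (c.p1 * c.K ≤ 1 + c.nu / 2) &&
    decide (c.p1 ≤ (1 + c.nu / 2) * (2 * c.v0 + tau)) && decide (s0L c.d ≤ 2) &&
    decide (s2L c.d 0 ≤ 4)

def ckV (c : Cert) : Bool := decide (7561 / 10000 ≤ c.val)

def ck1 (c : Cert) : Bool := posQ 0 c.v0 c.P1

def ck2 (c : Cert) : Bool := posQ c.v0 (1 - c.v0) c.P2

def ckT (c : Cert) : Bool := posQ 0 1 c.t

def ckR (c : Cert) : Bool :=
  posQ 0 c.v0 (addQ [c.K] (scQ (-1) c.R)) &&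
    posQ c.v0 (1 - c.v0) (addQ [1] (scQ (-1) (mulQ [tau, 2] c.R)))

/-- all conditions -/
structure OK (c : Cert) : Prop where
  h0 : c.ck0 = true
  hV : c.ckV = true
  h1 : c.ck1 = true
  h2 : c.ck2 = true
  hT : c.ckT = true
  hR : c.ckR = true

end Cert

end Pool.Agent.Helper93.MA
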