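import Pool.Agent.Helper93.MA.CertD

/-!
Project MA, module CertS: a valid certificate proves the inequality for its interval.
-/

set_option autoImplicit false

open Real

namespace Pool.Agent.Helper93.MA

/-- `-log (1 - δ) ≥ δ + δ²/2 + ... + δ⁶/6` -/
theorem neg_log_ge {δ : ℝ} (h0 : 0 ≤ δ) (h1 : δ < 1) :
    δ + δ ^ 2 / 2 + δ ^ 3 / 3 + δ ^ 4 / 4 + δ ^ 5 / 5 + δ ^ 6 / 6 ≤ -Real.log (1 - δ) := by
  have h := Real.hasSum_pow_div_log_of_abs_lt_one (x := δ) (by rw [abs_of_nonneg h0]; exact h1)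
  have h2 := h.summable.sum_le_tsum (Finset.range 6) (fun i _ => by positivity)
  rw [h.tsum_eq] at h2
  simp only [Finset.sum_range_succ, Finset.sum_range_zero] at h2
  norm_num at h2
  linarith

theorem pow3 {δ t : ℝ} (h0 : 0 ≤ δ) (ht : 0 ≤ t) : t ^ 2 * δ - 2 / 3 * t ^ 3 ≤ δ ^ 3 / 3 := by
  have h : 0 ≤ (δ - t) ^ 2 * (δ + 2 * t) := by positivity
  have h2 : (δ - t) ^ 2 * (δ + 2 * t) = δ ^ 3 - 3 * t ^ 2 * δ + 2 * t ^ 3 := by ring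
  linarith

theorem pow4 {δ t : ℝ} (h0 : 0 ≤ δ) (ht : 0 ≤ t) : t ^ 3 * δ - 3 / 4 * t ^ 4 ≤ δ ^ 4 / 4 := by
  have h : 0 ≤ (δ - t) ^ 2 * (δ ^ 2 + 2 * δ * t + 3 * t ^ 2) := by positivity
  have h2 : (δ - t) ^ 2 * (δ ^ 2 + 2 * δ * t + 3 * t ^ 2) =
    δ ^ 4 - 4 * t ^ 3 * δ + 3 * t ^ 4 := by ring
  linarith

theorem pow5 {δ t : ℝ} (h0 : 0 ≤ δ) (ht : 0 ≤ t) : t ^ 4 * δ - 4 / 5 * t ^ 5 ≤ δ ^ 5 / 5 := by
  have h : 0 ≤ (δ - t) ^ 2 * (δ ^ 3 + 2 * δ ^ 2 * t + 3 * δ * t ^ 2 + 4 * t ^ 3) := by positivity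
  have h2 : (δ - t) ^ 2 * (δ ^ 3 + 2 * δ ^ 2 * t + 3 * δ * t ^ 2 + 4 * t ^ 3) =
    δ ^ 5 - 5 * t ^ 4 * δ + 4 * t ^ 5 := by ring
  linarith

theorem pow6 {δ t : ℝ} (h0 : 0 ≤ δ) (ht : 0 ≤ t) : t ^ 5 * δ - 5 / 6 * t ^ 6 ≤ δ ^ 6 / 6 := by
  have h : 0 ≤ (δ - t) ^ 2 * (δ ^ 4 + 2 * δ ^ 3 * t + 3 * δ ^ 2 * t ^ 2 + 4 * δ * t ^ 3
    + 5 * t ^ 4) := by positivity
  have h2 : (δ - t) ^ 2 * (δ ^ 4 + 2 * δ ^ 3 * t + 3 * δ ^ 2 * t ^ 2 + 4 * δ * t ^ 3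
    + 5 * t ^ 4) = δ ^ 6 - 6 * t ^ 5 * δ + 5 * t ^ 6 := by ring
  linarith

/-- tangent bound for the logarithm -/
theorem log_tan {δ t : ℝ} (h0 : 0 ≤ δ) (h1 : δ < 1) (ht : 0 ≤ t) :
    δ + δ ^ 2 / 2 + ((t ^ 2 + t ^ 3 + t ^ 4 + t ^ 5) * δ
      - (2 / 3 * t ^ 3 + 3 / 4 * t ^ 4 + 4 / 5 * t ^ 5 + 5 / 6 * t ^ 6)) ≤ -Real.log (1 - δ) := by
  have a := neg_log_ge h0 h1
  have a3 := pow3 h0 ht
  have a4 := pow4 h0 ht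
  have a5 := pow5 h0 ht
  have a6 := pow6 h0 ht
  have : (t ^ 2 + t ^ 3 + t ^ 4 + t ^ 5) * δ = t ^ 2 * δ + t ^ 3 * δ + t ^ 4 * δ + t ^ 5 * δ := by
    ring
  linarith

/-- the pointwise inequality -/
theorem pointC {δ D L σ γ R Lq e p1 ν k κ Q : ℝ} (h0 : 0 ≤ δ) (h1 : δ < 1)
    (hlog : δ + δ ^ 2 / 2 + (σ * δ - γ) ≤ -Real.log (1 - δ))
    (he : |Lq - L| ≤ e) (hp : 0 ≤ p1) (hν : 0 ≤ ν) (hQ : 0 < Q)
    (hQk : 1 / Q ≤ k) (hκ : κ * Q ≤ 1) (hR : R ≤ κ) (hB : p1 * κ ≤ 1 + ν / 2)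
    (hC : 0 ≤ Q * ((-2 + ν + ν * σ + 4 * L + (2 + ν) * D) + p1 * κ * (1 - 2 * D)) + p1) :
    -(1 + ν / 2) * D ^ 2 + p1 * (R * D ^ 2) - ν * γ - 4 * e ≤
      -(2 * δ - δ ^ 2) + 4 * (δ * Lq) + p1 * ((2 * δ - δ ^ 2) * k) + ν * (-Real.log (1 - δ)) := by
  have e0 : 0 ≤ e := (abs_nonneg _).trans he
  have a1 : 4 * (δ * L) - 4 * e ≤ 4 * (δ * Lq) := by
    have h2 := (abs_le.mp he).1
    have h3 : δ * (Lq - L) ≥ -e := by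
      nlinarith
    nlinarith
  have a2 : δ * (1 / Q) + δ * (1 - δ) * κ ≤ (2 * δ - δ ^ 2) * k := by
    have h2 : κ ≤ 1 / Q := by
      rw [le_div_iff₀ hQ]
      exact hκ
    have h3 : 0 ≤ δ * (1 - δ) := mul_nonneg h0 (by linarith)
    have h4 : δ * (1 - δ) * κ ≤ δ * (1 - δ) * k := mul_le_mul_of_nonneg_left (h2.trans hQk) h3
    have h5 : δ * (1 / Q) ≤ δ * k := mul_le_mul_of_nonneg_left hQk h0
    nlinarith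
  have a4 : ν * (δ + δ ^ 2 / 2 + (σ * δ - γ)) ≤ ν * (-Real.log (1 - δ)) :=
    mul_le_mul_of_nonneg_left hlog hν
  have a5 : p1 * (δ * (1 / Q) + δ * (1 - δ) * κ) ≤ p1 * ((2 * δ - δ ^ 2) * k) :=
    mul_le_mul_of_nonneg_left a2 hp
  have a6 : (1 + ν / 2 - p1 * κ) * (2 * δ * D - D ^ 2) ≤ (1 + ν / 2 - p1 * κ) * δ ^ 2 := by
    refine mul_le_mul_of_nonneg_left ?_ (by linarith)
    nlinarith [sq_nonneg (δ - D)]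
  have a7 : 0 ≤ δ * (((-2 + ν + ν * σ + 4 * L + (2 + ν) * D) + p1 * κ * (1 - 2 * D))
      + p1 * (1 / Q)) := by
    refine mul_nonneg h0 ?_
    have h2 : ((-2 + ν + ν * σ + 4 * L + (2 + ν) * D) + p1 * κ * (1 - 2 * D)) + p1 * (1 / Q) =
        (Q * ((-2 + ν + ν * σ + 4 * L + (2 + ν) * D) + p1 * κ * (1 - 2 * D)) + p1) / Q := by
      field_simp
    rw [h2]
    exact div_nonneg hC hQ.le
  have a8 : p1 * (R * D ^ 2) ≤ p1 * κ * D ^ 2 := by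
    have h2 : R * D ^ 2 ≤ κ * D ^ 2 := mul_le_mul_of_nonneg_right hR (sq_nonneg _)
    calc p1 * (R * D ^ 2) ≤ p1 * (κ * D ^ 2) := mul_le_mul_of_nonneg_left h2 hp
      _ = _ := by ring
  nlinarith

/-- kernel bound -/
theorem kq_ge {q : ℝ} (h0 : 0.999999 ≤ q) (h1 : q < 1) (x : ℝ) :
    1 / (2 * ((1 + cos x) / 2) + (tau : ℝ)) ≤ kq q (x + π) := by
  rw [kq_pi]
  have hc := Real.neg_one_le_cos x
  have hc1 := Real.cos_le_one x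
  have ht : (tau : ℝ) = 1 / 1000000 := by
    unfold tau
    push_cast
    norm_num
  rw [ht]
  have h2 : 0 < 1 + 2 * q * cos x + q ^ 2 := by nlinarith [sq_nonneg (1 - q)]
  rw [div_le_div_iff₀ (by linarith) h2]
  have h3 : (1 - q) ^ 2 ≤ 1 / 1000000 * (1 + q) := by nlinarith
  nlinarith

theorem evQ_nil (s : ℝ) : evQ [] s = 0 := rfl
theorem evQ_cons (x : ℚ) (l : List ℚ) (s : ℝ) : evQ (x :: l) s = (x : ℝ) + s * evQ l s := rfl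

end Pool.Agent.Helper93.MA
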