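import Pool.Agent.Helper93.MA.CertS

/-!
Project MA, module CertT: a valid certificate proves the inequality for its interval.
-/

set_option autoImplicit false

open Real

namespace Pool.Agent.Helper93.MA

theorem tau_real : (tau : ℝ) = 1 / 1000000 := by
  unfold tau
  push_cast
  norm_num

/-- the pointwise inequality from a certificate -/
theorem point_cert {c : Cert} (hc : c.OK) {q : ℝ} (hq : 0.999999 ≤ q) (hq1 : q < 1)
    {δ : ℝ} (h0 : 0 ≤ δ) (h1 : δ < 1) (x : ℝ) :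
    -(1 + (c.nu : ℝ) / 2) * (trg c.d 0 x) ^ 2
      + (c.p1 : ℝ) * (evQ c.R ((1 + cos x) / 2) * (trg c.d 0 x) ^ 2)
      - (c.nu : ℝ) * evQ (Cert.gm c.t) ((1 + cos x) / 2) - 4 * (4 * (1 - q)) ≤
      -(2 * δ - δ ^ 2) + 4 * (δ * trq q c.d 0 x)
        + (c.p1 : ℝ) * ((2 * δ - δ ^ 2) * (1 / (2 * ((1 + cos x) / 2) + (tau : ℝ))))
        + (c.nu : ℝ) * (-Real.log (1 - δ)) := by
  obtain ⟨h0', hV, hP1, hP2, hT, hR⟩ := hc
  simp only [Cert.ck0, Bool.and_eq_true, decide_eq_true_eq] at h0'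
  obtain ⟨⟨⟨⟨⟨⟨⟨⟨⟨v00, v01⟩, ν0⟩, p0⟩, K0⟩, hK⟩, hpK⟩, hpv⟩, hs0⟩, hs2⟩ := h0'
  simp only [Cert.ckR, Bool.and_eq_true] at hR
  obtain ⟨hR1, hR2⟩ := hR
  have v00' : (0 : ℝ) < (c.v0 : ℝ) := by exact_mod_cast v00
  have v01' : (c.v0 : ℝ) < 1 := by exact_mod_cast v01
  have ν0' : (0 : ℝ) ≤ (c.nu : ℝ) := by exact_mod_cast ν0
  have p0' : (0 : ℝ) ≤ (c.p1 : ℝ) := by exact_mod_cast p0
  have K0' : (0 : ℝ) ≤ (c.K : ℝ) := by exact_mod_cast K0
  have hK' : (c.K : ℝ) * (2 * (c.v0 : ℝ) + (tau : ℝ)) ≤ 1 := by exact_mod_cast hK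
  have hpK' : (c.p1 : ℝ) * (c.K : ℝ) ≤ 1 + (c.nu : ℝ) / 2 := by exact_mod_cast hpK
  have hpv' : (c.p1 : ℝ) ≤ (1 + (c.nu : ℝ) / 2) * (2 * (c.v0 : ℝ) + (tau : ℝ)) := by
    exact_mod_cast hpv
  have hs2' : (s2L c.d 0 : ℝ) ≤ 4 := by exact_mod_cast hs2
  have hx0 : 0 ≤ (1 + cos x) / 2 := by linarith [Real.neg_one_le_cos x]
  have hx1 : (1 + cos x) / 2 ≤ 1 := by linarith [Real.cos_le_one x]
  have hτ := tau_real
  have hD : trg c.d 0 x = evQ c.D ((1 + cos x) / 2) := (evQ_chL c.d x).symm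
  have hL : trg (lamL c.d 0) 0 x = evQ c.L ((1 + cos x) / 2) := (evQ_chL (lamL c.d 0) x).symm
  have he : |trq q c.d 0 x - evQ c.L ((1 + cos x) / 2)| ≤ 4 * (1 - q) := by
    rw [← hL]
    refine (trq_lam (by linarith) hq1 c.d 0 x).trans ?_
    have : 0 < 1 - q := by linarith
    nlinarith
  rw [hD]
  set v := (1 + cos x) / 2 with hv
  have hQ : 0 < 2 * v + (tau : ℝ) := by rw [hτ]; linarith
  have ht : 0 ≤ evQ c.t v := by
    refine posQ_sound hT one_pos ?_ ?_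
    · push_cast; exact hx0
    · push_cast; linarith
  have hA : evQ c.A v = -2 + (c.nu : ℝ) + (c.nu : ℝ) * evQ (Cert.sg c.t) v + 4 * evQ c.L v
      + (2 + (c.nu : ℝ)) * evQ c.D v := by
    simp only [Cert.A, evQ_addQ, evQ_scQ, evQ_cons, evQ_nil]
    push_cast
    ring
  have hlog : δ + δ ^ 2 / 2 + (evQ (Cert.sg c.t) v * δ - evQ (Cert.gm c.t) v) ≤
      -Real.log (1 - δ) := by
    refine le_trans (le_of_eq ?_) (log_tan h0 h1 ht)
    simp only [Cert.sg, Cert.gm, evQ_mulQ, evQ_addQ, evQ_scQ, evQ_cons, evQ_nil]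
    push_cast
    ring
  rcases le_total v (c.v0 : ℝ) with hvv | hvv
  · -- near the far point
    refine pointC (L := evQ c.L v) (κ := (c.K : ℝ)) (Q := 2 * v + (tau : ℝ)) h0 h1 hlog he p0' ν0'
      hQ le_rfl ?_ ?_ hpK' ?_
    · refine le_trans ?_ hK'
      exact mul_le_mul_of_nonneg_left (by linarith) K0'
    · have h2 := posQ_sound hR1 v00 (v := v) (by push_cast; exact hx0) (by push_cast; linarith)
      simp only [evQ_addQ, evQ_scQ, evQ_cons, evQ_nil] at h2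
      push_cast at h2
      linarith
    · have h2 := posQ_sound hP1 v00 (v := v) (by push_cast; exact hx0) (by push_cast; linarith)
      simp only [Cert.P1, Cert.B, evQ_addQ, evQ_scQ, evQ_mulQ, evQ_cons, evQ_nil, hA] at h2
      push_cast at h2
      refine h2.trans (le_of_eq ?_)
      ring
  · refine pointC (L := evQ c.L v) (κ := 1 / (2 * v + (tau : ℝ))) (Q := 2 * v + (tau : ℝ)) h0 h1
      hlog he p0' ν0' hQ le_rfl ?_ ?_ ?_ ?_
    · rw [one_div, inv_mul_cancel₀ hQ.ne']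
    · have h2 := posQ_sound hR2 (sub_pos.mpr v01) (v := v) hvv (by push_cast; linarith)
      simp only [evQ_addQ, evQ_scQ, evQ_mulQ, evQ_cons, evQ_nil] at h2
      push_cast at h2
      rw [le_div_iff₀ hQ]
      linarith
    · have h3 : (c.p1 : ℝ) ≤ (1 + (c.nu : ℝ) / 2) * (2 * v + (tau : ℝ)) := by
        refine hpv'.trans ?_
        exact mul_le_mul_of_nonneg_left (by linarith) (by linarith)
      rw [mul_one_div, div_le_iff₀ hQ]
      exact h3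
    · have h2 := posQ_sound hP2 (sub_pos.mpr v01) (v := v) hvv (by push_cast; linarith)
      simp only [Cert.P2, Cert.B, evQ_addQ, evQ_scQ, evQ_mulQ, evQ_cons, evQ_nil, hA] at h2
      push_cast at h2
      have h3 : (2 * v + (tau : ℝ)) * (1 / (2 * v + (tau : ℝ))) = 1 := by
        rw [one_div, mul_inv_cancel₀ hQ.ne']
      refine h2.trans (le_of_eq ?_)
      linear_combination (-(c.p1 : ℝ) * (1 - 2 * evQ c.D v)) * h3

theorem cert_sound {c : Cert} (hc : c.OK) {q : ℝ} (hq : 0.999999 ≤ q) (hq1 : q < 1)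
    {η : ℝ} (hη : 0 ≤ η) {δ : ℝ → ℝ} (hδ : CP δ) (h0 : ∀ x, 0 ≤ δ x) (h1 : ∀ x, δ x < 1)
    (hp1 : (c.p1 : ℝ) ≤ pp δ) (hp2 : (c.nu : ℝ) * (pp δ - c.p2) ≤ 0) (hpη : η ≤ pp δ) :
    189 / 250 - 1000000 * η ≤ FF q η δ := by
  have hc' := hc
  obtain ⟨h0', hV, -, -, -, -⟩ := hc'
  simp only [Cert.ck0, Bool.and_eq_true, decide_eq_true_eq] at h0'
  obtain ⟨⟨⟨⟨⟨⟨⟨⟨⟨v00, v01⟩, ν0⟩, p0⟩, K0⟩, hK⟩, hpK⟩, hpv⟩, hs0⟩, hs2⟩ := h0'
  have ν0' : (0 : ℝ) ≤ (c.nu : ℝ) := by exact_mod_cast ν0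
  have p0' : (0 : ℝ) ≤ (c.p1 : ℝ) := by exact_mod_cast p0
  have hs2' : (s2L c.d 0 : ℝ) ≤ 4 := by exact_mod_cast hs2
  have hs0' : (s0L c.d : ℝ) ≤ 2 := by exact_mod_cast hs0
  have hV' : (7561 / 10000 : ℝ) ≤ (c.val : ℝ) := by
    simp only [Cert.ckV, decide_eq_true_eq] at hV
    have h2 : ((7561 / 10000 : ℚ) : ℝ) ≤ (c.val : ℝ) := Rat.cast_le.mpr hV
    push_cast at h2
    exact h2
  have q0 : 0 ≤ q := by linarith
  have e0 : 0 < 1 - q := by linarith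
  have hτ := tau_real
  have hDc := (trg_CP c.d 0).cont
  have hLc := (trq_CP q c.d 0).cont
  have hδc := hδ.cont
  have hlog : Continuous (fun x => -Real.log (1 - δ x)) := by
    refine Continuous.neg (Continuous.log (by fun_prop) fun x => ?_)
    have := h1 x
    linarith
  have hvc : Continuous (fun x : ℝ => (1 + cos x) / 2) := by fun_prop
  have hRc : Continuous (fun x : ℝ => evQ c.R ((1 + cos x) / 2)) := (evQ_cont c.R).comp hvc
  have hgc : Continuous (fun x : ℝ => evQ (Cert.gm c.t) ((1 + cos x) / 2)) :=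
    (evQ_cont (Cert.gm c.t)).comp hvc
  have hQpos : ∀ x : ℝ, 0 < 2 * ((1 + cos x) / 2) + (tau : ℝ) := fun x => by
    rw [hτ]
    linarith [Real.neg_one_le_cos x]
  have hQc : Continuous (fun x : ℝ => 1 / (2 * ((1 + cos x) / 2) + (tau : ℝ))) := by
    refine continuous_const.div (by fun_prop) fun x => (hQpos x).ne'
  have hkc : Continuous (fun x : ℝ => kq q (x + π)) :=
    (kq_cont q0 hq1).comp (by fun_prop)
  -- abbreviations
  obtain ⟨X, hX⟩ : ∃ X : ℝ, X = M (fun x => (2 * δ x - δ x ^ 2) *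
    (1 / (2 * ((1 + cos x) / 2) + (tau : ℝ)))) := ⟨_, rfl⟩
  have hS0 : ∀ x, 0 ≤ 2 * δ x - δ x ^ 2 := fun x => by nlinarith [h0 x, h1 x]
  have hS1 : ∀ x, 2 * δ x - δ x ^ 2 ≤ 1 := fun x => by nlinarith [sq_nonneg (1 - δ x)]
  have hX0 : 0 ≤ X := by
    rw [hX]
    exact M_nonneg fun x => mul_nonneg (hS0 x) (one_div_pos.mpr (hQpos x)).le
  have hX1 : X ≤ 1000000 := by
    rw [hX]
    refine M_le (by fun_prop) fun x => ?_
    have h2 : 1 / (2 * ((1 + cos x) / 2) + (tau : ℝ)) ≤ 1000000 := by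
      rw [div_le_iff₀ (hQpos x), hτ]
      have := Real.neg_one_le_cos x
      linarith
    have h3 := (one_div_pos.mpr (hQpos x)).le
    calc (2 * δ x - δ x ^ 2) * (1 / (2 * ((1 + cos x) / 2) + (tau : ℝ)))
        ≤ 1 * (1 / (2 * ((1 + cos x) / 2) + (tau : ℝ))) := mul_le_mul_of_nonneg_right (hS1 x) h3
      _ ≤ 1000000 := by rw [one_mul]; exact h2
  -- (1) the form
  have b1 : 4 * M (fun x => δ x * trq q c.d 0 x)
      - 2 * M (fun x => trg c.d 0 x * trq q c.d 0 x) ≤ 2 * E q δ δ := by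
    have h2 := E_low q0 hq1 hδ (trg_CP c.d 0)
    rw [E_trg q0 hq1 hδ, E_trg q0 hq1 (trg_CP c.d 0)] at h2
    exact h2
  -- (2) the kernel
  have b2 : (c.p1 : ℝ) * X - 1000000 * η ≤
      (pp δ - η) * M (fun x => (2 * δ x - δ x ^ 2) * kq q (x + π)) := by
    have h2 : X ≤ M (fun x => (2 * δ x - δ x ^ 2) * kq q (x + π)) := by
      rw [hX]
      refine M_mono (by fun_prop) (by fun_prop) fun x => ?_
      exact mul_le_mul_of_nonneg_left (kq_ge hq hq1 x) (hS0 x)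
    have h3 : (pp δ - η) * X ≤ (pp δ - η) * M (fun x => (2 * δ x - δ x ^ 2) * kq q (x + π)) :=
      mul_le_mul_of_nonneg_left h2 (by linarith)
    have h4 : (c.p1 : ℝ) * X ≤ pp δ * X := mul_le_mul_of_nonneg_right hp1 hX0
    have h5 : η * X ≤ η * 1000000 := mul_le_mul_of_nonneg_left hX1 hη
    linarith
  -- (3) the pointwise inequality, integrated
  have b3 : M (fun x => -(1 + (c.nu : ℝ) / 2) * (trg c.d 0 x) ^ 2
      + (c.p1 : ℝ) * (evQ c.R ((1 + cos x) / 2) * (trg c.d 0 x) ^ 2)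
      - (c.nu : ℝ) * evQ (Cert.gm c.t) ((1 + cos x) / 2) - 4 * (4 * (1 - q))) ≤
      M (fun x => -(2 * δ x - δ x ^ 2) + 4 * (δ x * trq q c.d 0 x)
        + (c.p1 : ℝ) * ((2 * δ x - δ x ^ 2) * (1 / (2 * ((1 + cos x) / 2) + (tau : ℝ))))
        + (c.nu : ℝ) * (-Real.log (1 - δ x))) := by
    refine M_mono (by fun_prop) (by fun_prop) fun x => ?_
    exact point_cert hc hq hq1 (h0 x) (h1 x) x
  have b4 : M (fun x => -(2 * δ x - δ x ^ 2) + 4 * (δ x * trq q c.d 0 x)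
        + (c.p1 : ℝ) * ((2 * δ x - δ x ^ 2) * (1 / (2 * ((1 + cos x) / 2) + (tau : ℝ))))
        + (c.nu : ℝ) * (-Real.log (1 - δ x))) =
      -M (fun x => 2 * δ x - δ x ^ 2) + 4 * M (fun x => δ x * trq q c.d 0 x)
        + (c.p1 : ℝ) * X + (c.nu : ℝ) * pp δ := by
    rw [M_add (by fun_prop) (by fun_prop), M_add (by fun_prop) (by fun_prop),
      M_add (by fun_prop) (by fun_prop), M_mul, M_mul, M_mul, hX]
    have h2 : M (fun x => -(2 * δ x - δ x ^ 2)) = -M (fun x => 2 * δ x - δ x ^ 2) := by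
      have h3 : ∀ x, -(2 * δ x - δ x ^ 2) = (-1) * (2 * δ x - δ x ^ 2) := fun x => by ring
      rw [M_congr h3, M_mul]
      ring
    rw [h2]
    rfl
  have b5 : M (fun x => -(1 + (c.nu : ℝ) / 2) * (trg c.d 0 x) ^ 2
      + (c.p1 : ℝ) * (evQ c.R ((1 + cos x) / 2) * (trg c.d 0 x) ^ 2)
      - (c.nu : ℝ) * evQ (Cert.gm c.t) ((1 + cos x) / 2) - 4 * (4 * (1 - q))) =
      -(1 + (c.nu : ℝ) / 2) * (meanQ (mulQ c.D c.D) : ℝ)
        + (c.p1 : ℝ) * (meanQ (mulQ c.R (mulQ c.D c.D)) : ℝ)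
        - (c.nu : ℝ) * (meanQ (Cert.gm c.t) : ℝ) - 16 * (1 - q) := by
    rw [M_sub (by fun_prop) (by fun_prop), M_sub (by fun_prop) (by fun_prop),
      M_add (by fun_prop) (by fun_prop), M_mul, M_mul, M_mul, M_const, ← M_evQ, ← M_evQ, ← M_evQ]
    have h2 : ∀ x, (trg c.d 0 x) ^ 2 = evQ (mulQ c.D c.D) ((1 + cos x) / 2) := fun x => by
      rw [evQ_mulQ, ← evQ_chL c.d x]
      exact sq _
    have h3 : ∀ x, evQ c.R ((1 + cos x) / 2) * (trg c.d 0 x) ^ 2 =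
        evQ (mulQ c.R (mulQ c.D c.D)) ((1 + cos x) / 2) := fun x => by
      rw [evQ_mulQ, h2]
    rw [M_congr h2, M_congr h3]
    ring
  -- (4) the term `M (D Lq)`
  have b6 : M (fun x => trg c.d 0 x * trq q c.d 0 x) ≤
      (meanQ (mulQ c.D c.L) : ℝ) + 8 * (1 - q) := by
    rw [← M_evQ]
    have h2 : ∀ x, trg c.d 0 x * trq q c.d 0 x ≤
        evQ (mulQ c.D c.L) ((1 + cos x) / 2) + 8 * (1 - q) := fun x => by
      rw [evQ_mulQ]
      have h3 : evQ c.D ((1 + cos x) / 2) = trg c.d 0 x := evQ_chL c.d x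
      have h4 : evQ c.L ((1 + cos x) / 2) = trg (lamL c.d 0) 0 x := evQ_chL (lamL c.d 0) x
      rw [h3, h4]
      have h5 := abs_trg_le c.d 0 x
      have h6 := trq_lam q0 hq1 c.d 0 x
      have h7 : |trg c.d 0 x * (trq q c.d 0 x - trg (lamL c.d 0) 0 x)| ≤ 2 * (4 * (1 - q)) := by
        rw [abs_mul]
        refine mul_le_mul (h5.trans hs0') (h6.trans ?_) (abs_nonneg _) (by norm_num)
        nlinarith
      have h8 := (abs_le.mp h7).2
      linarith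
    have h9 : Continuous (fun x : ℝ => evQ (mulQ c.D c.L) ((1 + cos x) / 2)) :=
      (evQ_cont _).comp hvc
    have h10 := M_mono (by fun_prop) (by fun_prop) h2
    rw [M_add h9 continuous_const, M_const] at h10
    exact h10
  have b7 : (c.val : ℝ) = 1 - (c.nu : ℝ) * c.p2 - 2 * (meanQ (mulQ c.D c.L) : ℝ)
      - (1 + (c.nu : ℝ) / 2) * (meanQ (mulQ c.D c.D) : ℝ)
      + (c.p1 : ℝ) * (meanQ (mulQ c.R (mulQ c.D c.D)) : ℝ)
      - (c.nu : ℝ) * (meanQ (Cert.gm c.t) : ℝ) := by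
    unfold Cert.val
    push_cast
    ring
  have b8 : 1 - q ≤ 1 / 1000000 := by
    norm_num at hq ⊢
    linarith
  rw [b5, b4] at b3
  unfold FF
  nlinarith

end Pool.Agent.Helper93.MA
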