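import Pool.Agent.Helper93.MA.Ker

/-!
Project MA, module Form: the form `E q f g = (1/2) M_x M_y [kq q (x-y) (f x - f y)(g x - g y)]`.

`E_eq`: expand the product; `M_y (kq q (x-y)) = 1/(1-q)` (`M_kq`), the terms `f x g x` and
`f y g y` give `M (f g)/(1-q)` each (`M_swap`, `kq_neg`), the mixed terms give
`M_x (f x M_y (kq q (x-y) g y)) = M (f Pq q g)/(1-q)` each.
`E_low`: `0 ≤ E q (f-g) (f-g) = E q f f - 2 E q f g + E q g g` (pointwise expansion).
`E_shift`: `M_shift` twice (the integrand is periodic in both variables).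
-/

set_option autoImplicit false

open Real Metric

namespace Pool.Agent.Helper93.MA

private theorem M4 {a b c d : ℝ → ℝ} (ha : Continuous a) (hb : Continuous b) (hc : Continuous c)
    (hd : Continuous d) :
    M (fun y => a y - b y - c y + d y) = M a - M b - M c + M d := by
  have h1 : Continuous (fun y => a y - b y) := ha.sub hb
  have h2 : Continuous (fun y => a y - b y - c y) := h1.sub hc
  have e1 := M_add h2 hd
  have e2 := M_sub h1 hc
  have e3 := M_sub ha hb
  rw [e1, e2, e3]

private theorem M3 {a b d : ℝ → ℝ} (ha : Continuous a) (hb : Continuous b) (hd : Continuous d) :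
    M (fun y => a y - 2 * b y + d y) = M a - 2 * M b + M d := by
  have h0 : Continuous (fun y => 2 * b y) := continuous_const.mul hb
  have h1 : Continuous (fun y => a y - 2 * b y) := ha.sub h0
  have e1 := M_add h1 hd
  have e2 := M_sub ha h0
  have e3 := M_mul 2 b
  rw [e1, e2, e3]

private theorem M2 {a b : ℝ → ℝ} (c : ℝ) (ha : Continuous a) (hb : Continuous b) :
    M (fun y => a y - c * b y) = M a - c * M b := by
  have h0 : Continuous (fun y => c * b y) := continuous_const.mul hb
  have e2 := M_sub ha h0
  have e3 := M_mul c b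
  rw [e2, e3]

private theorem kxy_cont {q : ℝ} (h0 : 0 ≤ q) (h1 : q < 1) :
    Continuous (fun p : ℝ × ℝ => kq q (p.1 - p.2)) :=
  (kq_cont h0 h1).comp (by fun_prop)

private theorem kxy_cont' {q : ℝ} (h0 : 0 ≤ q) (h1 : q < 1) (x : ℝ) :
    Continuous (fun y : ℝ => kq q (x - y)) :=
  (kq_cont h0 h1).comp (by fun_prop)

private theorem kxy_symm (q x y : ℝ) : kq q (x - y) = kq q (y - x) := by
  rw [← kq_neg, neg_sub]

private theorem kg_cont {q : ℝ} (h0 : 0 ≤ q) (h1 : q < 1) {g : ℝ → ℝ} (hg : Continuous g) :
    Continuous (fun x => M (fun y => kq q (x - y) * g y)) := by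
  refine M_cont (F := fun x y => kq q (x - y) * g y) ?_
  exact (kxy_cont h0 h1).mul (hg.comp continuous_snd)

theorem Pq_cont {q : ℝ} (h0 : 0 ≤ q) (h1 : q < 1) {g : ℝ → ℝ} (hg : Continuous g) :
    Continuous (Pq q g) := by
  have h2 : Pq q g = fun x => (1 - q) * M (fun y => kq q (x - y) * g y) := rfl
  rw [h2]
  exact continuous_const.mul (kg_cont h0 h1 hg)

private theorem M_H {q : ℝ} (h0 : 0 ≤ q) (h1 : q < 1) {u : ℝ → ℝ} (hu : Continuous u) :
    M (fun x => M (fun y => kq q (x - y) * u y)) = M u * (1 / (1 - q)) := by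
  rw [M_swap (F := fun x y => kq q (x - y) * u y)
    ((kxy_cont h0 h1).mul (hu.comp continuous_snd))]
  have h2 : ∀ y, M (fun x => kq q (x - y) * u y) = (1 / (1 - q)) * u y := by
    intro y
    have h3 : (fun x => kq q (x - y) * u y) = fun x => u y * kq q (y - x) := by
      funext x
      rw [kxy_symm]
      ring
    rw [h3, M_mul, M_kq h0 h1]
    ring
  rw [M_congr h2, M_mul]
  ring

private theorem M_sym {q : ℝ} (h0 : 0 ≤ q) (h1 : q < 1) {f g : ℝ → ℝ} (hf : Continuous f)
    (hg : Continuous g) :
    M (fun x => g x * M (fun y => kq q (x - y) * f y)) =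
      M (fun x => f x * M (fun y => kq q (x - y) * g y)) := by
  have h2 : ∀ x, g x * M (fun y => kq q (x - y) * f y) =
      M (fun y => g x * (kq q (x - y) * f y)) := fun x => by rw [M_mul]
  rw [M_congr h2, M_swap (F := fun x y => g x * (kq q (x - y) * f y))
    ((hg.comp continuous_fst).mul ((kxy_cont h0 h1).mul (hf.comp continuous_snd)))]
  refine M_congr fun y => ?_
  have h3 : (fun x => g x * (kq q (x - y) * f y)) = fun x => f y * (kq q (y - x) * g x) := by
    funext x
    rw [kxy_symm]
    ring
  rw [h3, M_mul]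

theorem E_eq {q : ℝ} (h0 : 0 ≤ q) (h1 : q < 1) {f g : ℝ → ℝ} (hf : CP f) (hg : CP g) :
    E q f g = M (fun x => f x * (g x - Pq q g x)) / (1 - q) := by
  have hq : (1 : ℝ) - q ≠ 0 := by linarith
  have hfc := hf.cont
  have hgc := hg.cont
  have hin : ∀ x, M (fun y => kq q (x - y) * ((f x - f y) * (g x - g y))) =
      ((f x * g x * (1 / (1 - q)) - f x * M (fun y => kq q (x - y) * g y))
        - g x * M (fun y => kq q (x - y) * f y)) + M (fun y => kq q (x - y) * (f y * g y)) := by
    intro x
    have hk := kxy_cont' h0 h1 x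
    have e1 : (fun y => kq q (x - y) * ((f x - f y) * (g x - g y))) = fun y =>
        (((f x * g x) * kq q (x - y) - f x * (kq q (x - y) * g y))
          - g x * (kq q (x - y) * f y)) + kq q (x - y) * (f y * g y) := by
      funext y
      ring
    have c1 : Continuous (fun y => (f x * g x) * kq q (x - y)) := continuous_const.mul hk
    have c2 : Continuous (fun y => f x * (kq q (x - y) * g y)) :=
      continuous_const.mul (hk.mul hgc)
    have c3 : Continuous (fun y => g x * (kq q (x - y) * f y)) :=
      continuous_const.mul (hk.mul hfc)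
    have c4 : Continuous (fun y => kq q (x - y) * (f y * g y)) := hk.mul (hfc.mul hgc)
    have e2 := M4 c1 c2 c3 c4
    beta_reduce at e2
    rw [e1, e2, M_mul, M_mul, M_mul, M_kq h0 h1]
  have d1 : Continuous (fun x => f x * g x * (1 / (1 - q))) := (hfc.mul hgc).mul continuous_const
  have d2 : Continuous (fun x => f x * M (fun y => kq q (x - y) * g y)) :=
    hfc.mul (kg_cont h0 h1 hgc)
  have d3 : Continuous (fun x => g x * M (fun y => kq q (x - y) * f y)) :=
    hgc.mul (kg_cont h0 h1 hfc)
  have d4 : Continuous (fun x => M (fun y => kq q (x - y) * (f y * g y))) :=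
    kg_cont h0 h1 (g := fun y => f y * g y) (hfc.mul hgc)
  have hE : E q f g = 1 / 2 * (((M (fun x => f x * g x) * (1 / (1 - q))
      - M (fun x => f x * M (fun y => kq q (x - y) * g y)))
      - M (fun x => g x * M (fun y => kq q (x - y) * f y))) + M (fun x => f x * g x) * (1 / (1 - q))) := by
    have e4 := M4 d1 d2 d3 d4
    beta_reduce at e4
    have e5 := M_H h0 h1 (u := fun y => f y * g y) (hfc.mul hgc)
    beta_reduce at e5
    unfold E
    rw [M_congr hin, e4, e5]
    have e2 : (fun x => f x * g x * (1 / (1 - q))) = fun x => (1 / (1 - q)) * (f x * g x) := by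
      funext x
      ring
    rw [e2, M_mul]
    ring
  have hR : M (fun x => f x * (g x - Pq q g x)) =
      M (fun x => f x * g x) - (1 - q) * M (fun x => f x * M (fun y => kq q (x - y) * g y)) := by
    have e3 : (fun x => f x * (g x - Pq q g x)) =
        fun x => f x * g x - (1 - q) * (f x * M (fun y => kq q (x - y) * g y)) := by
      funext x
      unfold Pq
      ring
    have c5 : Continuous (fun x => f x * g x) := hfc.mul hgc
    have e4 := M2 (1 - q) c5 d2
    beta_reduce at e4
    rw [e3, e4]
  rw [hE, hR, M_sym h0 h1 hfc hgc]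
  field_simp
  ring

theorem E_nonneg {q : ℝ} (h0 : 0 ≤ q) (h1 : q < 1) (f : ℝ → ℝ) : 0 ≤ E q f f := by
  unfold E
  refine mul_nonneg (by norm_num) ?_
  refine M_nonneg fun x => M_nonneg fun y => ?_
  exact mul_nonneg (kq_pos h0 h1 _).le (mul_self_nonneg _)

private theorem ker_cont {q : ℝ} (h0 : 0 ≤ q) (h1 : q < 1) {f g : ℝ → ℝ} (hf : Continuous f)
    (hg : Continuous g) :
    Continuous (fun p : ℝ × ℝ => kq q (p.1 - p.2) * ((f p.1 - f p.2) * (g p.1 - g p.2))) :=
  (kxy_cont h0 h1).mul (((hf.comp continuous_fst).sub (hf.comp continuous_snd)).mul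
    ((hg.comp continuous_fst).sub (hg.comp continuous_snd)))

theorem E_low {q : ℝ} (h0 : 0 ≤ q) (h1 : q < 1) {f g : ℝ → ℝ} (hf : CP f) (hg : CP g) :
    4 * E q f g - 2 * E q g g ≤ 2 * E q f f := by
  have hfc := hf.cont
  have hgc := hg.cont
  have hn := E_nonneg h0 h1 (fun x => f x - g x)
  have c1 := ker_cont h0 h1 hfc hfc
  have c2 := ker_cont h0 h1 hfc hgc
  have c3 := ker_cont h0 h1 hgc hgc
  have hin : ∀ x, M (fun y => kq q (x - y) *
      (((f x - g x) - (f y - g y)) * ((f x - g x) - (f y - g y)))) =
      (M (fun y => kq q (x - y) * ((f x - f y) * (f x - f y)))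
        - 2 * M (fun y => kq q (x - y) * ((f x - f y) * (g x - g y))))
        + M (fun y => kq q (x - y) * ((g x - g y) * (g x - g y))) := by
    intro x
    have e1 : (fun y => kq q (x - y) *
        (((f x - g x) - (f y - g y)) * ((f x - g x) - (f y - g y)))) = fun y =>
        (kq q (x - y) * ((f x - f y) * (f x - f y))
          - 2 * (kq q (x - y) * ((f x - f y) * (g x - g y))))
          + kq q (x - y) * ((g x - g y) * (g x - g y)) := by
      funext y
      ring
    have k1 : Continuous (fun y => kq q (x - y) * ((f x - f y) * (f x - f y))) :=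
      (kxy_cont' h0 h1 x).mul ((continuous_const.sub hfc).mul (continuous_const.sub hfc))
    have k2 : Continuous (fun y => kq q (x - y) * ((f x - f y) * (g x - g y))) :=
      (kxy_cont' h0 h1 x).mul ((continuous_const.sub hfc).mul (continuous_const.sub hgc))
    have k3 : Continuous (fun y => kq q (x - y) * ((g x - g y) * (g x - g y))) :=
      (kxy_cont' h0 h1 x).mul ((continuous_const.sub hgc).mul (continuous_const.sub hgc))
    have e2 := M3 k1 k2 k3
    beta_reduce at e2
    rw [e1, e2]
  have d1 : Continuous (fun x => M (fun y => kq q (x - y) * ((f x - f y) * (f x - f y)))) :=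
    M_cont (F := fun x y => kq q (x - y) * ((f x - f y) * (f x - f y))) c1
  have d2 : Continuous (fun x => M (fun y => kq q (x - y) * ((f x - f y) * (g x - g y)))) :=
    M_cont (F := fun x y => kq q (x - y) * ((f x - f y) * (g x - g y))) c2
  have d3 : Continuous (fun x => M (fun y => kq q (x - y) * ((g x - g y) * (g x - g y)))) :=
    M_cont (F := fun x y => kq q (x - y) * ((g x - g y) * (g x - g y))) c3
  have hE : E q (fun x => f x - g x) (fun x => f x - g x) = E q f f - 2 * E q f g + E q g g := by
    have e4 := M3 d1 d2 d3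
    beta_reduce at e4
    unfold E
    beta_reduce
    rw [M_congr hin, e4]
    ring
  rw [hE] at hn
  linarith

theorem E_shift {q : ℝ} (h0 : 0 ≤ q) (h1 : q < 1) {f g : ℝ → ℝ} (hf : CP f) (hg : CP g) (a : ℝ) :
    E q (fun x => f (x + a)) (fun x => g (x + a)) = E q f g := by
  have hc := ker_cont h0 h1 hf.cont hg.cont
  have hk1 : ∀ x y : ℝ, kq q (x - (y + 2 * π)) = kq q (x - y) := by
    intro x y
    have h2 := kq_per q (x - (y + 2 * π))
    rw [← h2]
    congr 1
    ring
  have hk2 : ∀ x y : ℝ, kq q (x + 2 * π - y) = kq q (x - y) := by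
    intro x y
    have h2 := kq_per q (x - y)
    rw [← h2]
    congr 1
    ring
  have hCPy : ∀ x, CP (fun y => kq q (x - y) * ((f x - f y) * (g x - g y))) := by
    intro x
    refine ⟨?_, ?_⟩
    · exact (kxy_cont' h0 h1 x).mul
        ((continuous_const.sub hf.cont).mul (continuous_const.sub hg.cont))
    · intro y
      simp only [hk1, hf.per, hg.per]
  have hCPx : CP (fun x => M (fun y => kq q (x - y) * ((f x - f y) * (g x - g y)))) := by
    refine ⟨M_cont (F := fun x y => kq q (x - y) * ((f x - f y) * (g x - g y))) hc, ?_⟩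
    intro x
    simp only [hk2, hf.per, hg.per]
  have e1 := M_shift hCPx a
  beta_reduce at e1
  have e2 : M (fun x => M (fun y => kq q (x - y) *
      ((f (x + a) - f (y + a)) * (g (x + a) - g (y + a))))) =
      M (fun x => M (fun y => kq q (x + a - y) * ((f (x + a) - f y) * (g (x + a) - g y)))) := by
    refine M_congr fun x => ?_
    have h3 := M_shift (hCPy (x + a)) a
    beta_reduce at h3
    refine Eq.trans (M_congr fun y => ?_) h3
    have h4 : x + a - (y + a) = x - y := by ring
    rw [h4]
  unfold E
  beta_reduce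
  rw [e2, e1]

theorem E_one_sub (q : ℝ) (f : ℝ → ℝ) :
    E q (fun x => 1 - f x) (fun x => 1 - f x) = E q f f := by
  unfold E
  congr 1
  refine M_congr fun x => M_congr fun y => ?_
  ring

end Pool.Agent.Helper93.MA
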