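import Pool.Agent.Helper93.MA.PolyL
import Pool.Agent.Helper93.MA.Form

/-!
Project MA, module Cheb: trigonometric polynomials, their images under the regularised
derivative, and means.
-/

set_option autoImplicit false

open Real

namespace Pool.Agent.Helper93.MA

/-- `∑ c_j cos ((k+j) x)` -/
noncomputable def trg : List ℚ → ℕ → ℝ → ℝ
  | [], _, _ => 0
  | c :: l, k, x => (c : ℝ) * cos ((k : ℝ) * x) + trg l (k + 1) x

/-- `∑ c_j ((1 - q^(k+j))/(1-q)) cos ((k+j) x)` -/
noncomputable def trq (q : ℝ) : List ℚ → ℕ → ℝ → ℝ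
  | [], _, _ => 0
  | c :: l, k, x => (c : ℝ) * ((1 - q ^ k) / (1 - q)) * cos ((k : ℝ) * x) + trq q l (k + 1) x

def lamL : List ℚ → ℕ → List ℚ
  | [], _ => []
  | c :: l, k => ((k : ℚ) * c) :: lamL l (k + 1)

def s2L : List ℚ → ℕ → ℚ
  | [], _ => 0
  | c :: l, k => |c| * (k : ℚ) ^ 2 + s2L l (k + 1)

def s0L : List ℚ → ℚ
  | [] => 0
  | c :: l => |c| + s0L l

def chA : List ℚ → List ℚ → List ℚ → List ℚ
  | [], _, _ => []
  | c :: l, a, b => addQ (scQ c a) (chA l b (addQ (mulQ [-2, 4] b) (scQ (-1) a)))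

theorem evQ_chA (x : ℝ) : ∀ (l a b : List ℚ) (k : ℕ),
    evQ a ((1 + cos x) / 2) = cos ((k : ℝ) * x) →
    evQ b ((1 + cos x) / 2) = cos (((k : ℝ) + 1) * x) →
    evQ (chA l a b) ((1 + cos x) / 2) = trg l k x
  | [], a, b, k, _, _ => by simp [chA, trg, evQ]
  | c :: l, a, b, k, ha, hb => by
    have ih := evQ_chA x l b (addQ (mulQ [-2, 4] b) (scQ (-1) a)) (k + 1) (by
      rw [hb]; push_cast; rfl) (by
      rw [evQ_addQ, evQ_mulQ, evQ_scQ, ha, hb]
      simp only [evQ]
      push_cast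
      have h1 : cos (((k : ℝ) + 1 + 1) * x) + cos ((k : ℝ) * x) =
          2 * cos (((k : ℝ) + 1) * x) * cos x := by
        rw [Real.cos_add_cos]
        congr 2
        · congr 1
          ring
        · ring
      linear_combination -h1)
    simp only [chA, trg, evQ_addQ, evQ_scQ, ha, ih]

/-- the polynomial in `v = (1 + cos x)/2` -/
def chL (l : List ℚ) : List ℚ := chA l [1] [-1, 2]

theorem evQ_chL (l : List ℚ) (x : ℝ) : evQ (chL l) ((1 + cos x) / 2) = trg l 0 x := by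
  unfold chL
  refine evQ_chA x l _ _ 0 ?_ ?_
  · simp [evQ]
  · simp only [evQ]
    push_cast
    rw [zero_add, one_mul]
    ring

theorem trg_CP : ∀ (l : List ℚ) (k : ℕ), CP (trg l k)
  | [], k => ⟨by simpa [trg] using continuous_const, fun x => by simp [trg]⟩
  | c :: l, k => by
    have ih := trg_CP l (k + 1)
    refine ⟨?_, fun x => ?_⟩
    · have h1 := ih.cont
      have h2 : trg (c :: l) k = fun x => (c : ℝ) * cos ((k : ℝ) * x) + trg l (k + 1) x := by
        funext x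
        rfl
      rw [h2]
      fun_prop
    · simp only [trg]
      rw [ih.per x]
      have h1 : (k : ℝ) * (x + 2 * π) = (k : ℝ) * x + (k : ℕ) * (2 * π) := by ring
      rw [h1, Real.cos_add_nat_mul_two_pi]

theorem trq_CP (q : ℝ) : ∀ (l : List ℚ) (k : ℕ), CP (trq q l k)
  | [], k => ⟨by simpa [trq] using continuous_const, fun x => by simp [trq]⟩
  | c :: l, k => by
    have ih := trq_CP q l (k + 1)
    refine ⟨?_, fun x => ?_⟩
    · have h1 := ih.cont
      have h2 : trq q (c :: l) k = fun x =>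
          (c : ℝ) * ((1 - q ^ k) / (1 - q)) * cos ((k : ℝ) * x) + trq q l (k + 1) x := by
        funext x
        rfl
      rw [h2]
      fun_prop
    · simp only [trq]
      rw [ih.per x]
      have h1 : (k : ℝ) * (x + 2 * π) = (k : ℝ) * x + (k : ℕ) * (2 * π) := by ring
      rw [h1, Real.cos_add_nat_mul_two_pi]

theorem abs_trg_le : ∀ (l : List ℚ) (k : ℕ) (x : ℝ), |trg l k x| ≤ (s0L l : ℝ)
  | [], k, x => by simp [trg, s0L]
  | c :: l, k, x => by
    have ih := abs_trg_le l (k + 1) x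
    simp only [trg, s0L]
    push_cast
    refine (abs_add_le _ _).trans ?_
    rw [abs_mul]
    have h1 := Real.abs_cos_le_one ((k : ℝ) * x)
    have h2 := abs_nonneg (c : ℝ)
    have h3 : |(c : ℝ)| * |cos ((k : ℝ) * x)| ≤ |(c : ℝ)| * 1 := mul_le_mul_of_nonneg_left h1 h2
    linarith

theorem qn_bound {q : ℝ} (h0 : 0 ≤ q) (h1 : q < 1) (k : ℕ) :
    |(1 - q ^ k) / (1 - q) - k| ≤ (1 - q) * (k : ℝ) ^ 2 := by
  have hq : 0 < 1 - q := by linarith
  have hq0 : (1 - q) ≠ 0 := hq.ne'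
  have a1 : ∀ k : ℕ, (1 - q ^ k) ≤ (k : ℝ) * (1 - q) := by
    intro k
    induction k with
    | zero => simp
    | succ k ih =>
      have h2 : q ^ k ≤ 1 := pow_le_one₀ h0 h1.le
      have h3 : 0 ≤ q ^ k := pow_nonneg h0 k
      have h4 : q ^ (k + 1) = q ^ k * q := pow_succ q k
      push_cast
      nlinarith
  have a2 : ∀ k : ℕ, (k : ℝ) * (1 - q) - (1 - q ^ k) ≤ (k : ℝ) ^ 2 * (1 - q) ^ 2 := by
    intro k
    induction k with
    | zero => simp
    | succ k ih =>
      have h2 := a1 k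
      have h4 : q ^ (k + 1) = q ^ k * q := pow_succ q k
      have h5 : (0 : ℝ) ≤ k := Nat.cast_nonneg k
      rw [h4]
      push_cast
      have h6 : ((k : ℝ) + 1) * (1 - q) - (1 - q ^ k * q) =
        ((k : ℝ) * (1 - q) - (1 - q ^ k)) + (1 - q ^ k) * (1 - q) := by ring
      rw [h6]
      have h7 : (1 - q ^ k) * (1 - q) ≤ (k : ℝ) * (1 - q) * (1 - q) :=
        mul_le_mul_of_nonneg_right h2 hq.le
      have h8 : 0 ≤ (1 - q) ^ 2 := sq_nonneg _
      nlinarith
  rw [abs_le]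
  have h3 : (1 - q ^ k) / (1 - q) ≤ k := by
    rw [div_le_iff₀ hq]
    exact a1 k
  have h4 : (k : ℝ) - (1 - q) * (k : ℝ) ^ 2 ≤ (1 - q ^ k) / (1 - q) := by
    rw [le_div_iff₀ hq]
    have := a2 k
    nlinarith
  constructor
  · linarith
  · have : 0 ≤ (1 - q) * (k : ℝ) ^ 2 := by positivity
    linarith

theorem trq_lam {q : ℝ} (h0 : 0 ≤ q) (h1 : q < 1) : ∀ (l : List ℚ) (k : ℕ) (x : ℝ),
    |trq q l k x - trg (lamL l k) k x| ≤ (1 - q) * (s2L l k : ℝ)
  | [], k, x => by simp [trq, trg, lamL, s2L]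
  | c :: l, k, x => by
    have ih := trq_lam h0 h1 l (k + 1) x
    simp only [trq, trg, lamL, s2L]
    push_cast
    have h2 : (c : ℝ) * ((1 - q ^ k) / (1 - q)) * cos ((k : ℝ) * x) + trq q l (k + 1) x -
        ((k : ℝ) * (c : ℝ) * cos ((k : ℝ) * x) + trg (lamL l (k + 1)) (k + 1) x) =
        (c : ℝ) * ((1 - q ^ k) / (1 - q) - k) * cos ((k : ℝ) * x) +
        (trq q l (k + 1) x - trg (lamL l (k + 1)) (k + 1) x) := by ring
    rw [h2]
    refine (abs_add_le _ _).trans ?_
    have h3 : |(c : ℝ) * ((1 - q ^ k) / (1 - q) - k) * cos ((k : ℝ) * x)| ≤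
        |(c : ℝ)| * ((1 - q) * (k : ℝ) ^ 2) := by
      rw [abs_mul, abs_mul]
      have h4 := Real.abs_cos_le_one ((k : ℝ) * x)
      have h5 := qn_bound h0 h1 k
      calc |(c : ℝ)| * |(1 - q ^ k) / (1 - q) - k| * |cos ((k : ℝ) * x)|
          ≤ |(c : ℝ)| * |(1 - q ^ k) / (1 - q) - k| * 1 :=
            mul_le_mul_of_nonneg_left h4 (by positivity)
        _ = |(c : ℝ)| * |(1 - q ^ k) / (1 - q) - k| := mul_one _
        _ ≤ _ := mul_le_mul_of_nonneg_left h5 (abs_nonneg _)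
    linarith

theorem M_vpow (k : ℕ) : M (fun x => ((1 + cos x) / 2) ^ (k + 1)) =
    (2 * (k : ℝ) + 1) / (2 * (k : ℝ) + 2) * M (fun x => ((1 + cos x) / 2) ^ k) := by
  have h0 : ∀ (n : ℕ), M (fun x => ((1 + cos x) / 2) ^ n) =
      (1 / π) * ∫ y in (0 : ℝ)..π, cos y ^ (2 * n) := by
    intro n
    have h1 : ∀ x : ℝ, ((1 + cos x) / 2) ^ n = (fun y => cos y ^ (2 * n)) (x / 2) := by
      intro x
      have h2 : cos x = 2 * cos (x / 2) ^ 2 - 1 := by
        rw [← Real.cos_two_mul]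
        congr 1
        ring
      simp only [pow_mul]
      congr 1
      rw [h2]
      ring
    unfold M
    simp only [h1]
    rw [intervalIntegral.integral_comp_div (fun y => cos y ^ (2 * n)) (two_ne_zero)]
    rw [zero_div, mul_div_cancel_left₀ π (two_ne_zero : (2 : ℝ) ≠ 0), smul_eq_mul]
    field_simp
  rw [h0, h0]
  have h3 : 2 * (k + 1) = 2 * k + 2 := by ring
  rw [h3, integral_cos_pow]
  rw [Real.sin_pi, Real.sin_zero]
  push_cast
  ring

def meanA : List ℚ → ℕ → ℚ → ℚ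
  | [], _, _ => 0
  | c :: l, k, m => c * m + meanA l (k + 1) (m * (2 * (k : ℚ) + 1) / (2 * (k : ℚ) + 2))

theorem evQ_cont (l : List ℚ) : Continuous (evQ l) := by
  induction l with
  | nil =>
    have : evQ [] = fun _ => 0 := by
      funext x
      rfl
    rw [this]
    exact continuous_const
  | cons c l ih =>
    have : evQ (c :: l) = fun s => (c : ℝ) + s * evQ l s := by
      funext x
      rfl
    rw [this]
    fun_prop

theorem M_evQ_aux : ∀ (l : List ℚ) (k : ℕ) (m : ℚ),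
    M (fun x => ((1 + cos x) / 2) ^ k) = (m : ℝ) →
    M (fun x => ((1 + cos x) / 2) ^ k * evQ l ((1 + cos x) / 2)) = (meanA l k m : ℝ)
  | [], k, m, _ => by
    simp only [evQ, meanA, mul_zero]
    rw [M_const]
    norm_num
  | c :: l, k, m, hm => by
    have h1 := M_vpow k
    rw [hm] at h1
    have ih := M_evQ_aux l (k + 1) (m * (2 * (k : ℚ) + 1) / (2 * (k : ℚ) + 2)) (by
      rw [h1]; push_cast; ring)
    simp only [meanA]
    push_cast
    rw [← ih]
    have h2 : ∀ x : ℝ, ((1 + cos x) / 2) ^ k * evQ (c :: l) ((1 + cos x) / 2) =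
        (c : ℝ) * ((1 + cos x) / 2) ^ k +
          ((1 + cos x) / 2) ^ (k + 1) * evQ l ((1 + cos x) / 2) := by
      intro x
      simp only [evQ]
      ring
    have h3 := evQ_cont l
    rw [M_congr h2, M_add (by fun_prop) (by fun_prop), M_mul, hm]

/-- the mean of a polynomial in `v = (1 + cos x)/2` -/
def meanQ (l : List ℚ) : ℚ := meanA l 0 1

theorem M_evQ (l : List ℚ) : M (fun x => evQ l ((1 + cos x) / 2)) = (meanQ l : ℝ) := by
  have h := M_evQ_aux l 0 1 (by
    simp only [pow_zero]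
    rw [M_const]
    norm_num)
  simp only [pow_zero, one_mul] at h
  exact h

/-- linearity of the Poisson mean -/
theorem Pq_add_mul {q : ℝ} (h0 : 0 ≤ q) (h1 : q < 1) (c : ℝ) {f g : ℝ → ℝ} (hf : Continuous f)
    (hg : Continuous g) (x : ℝ) :
    Pq q (fun y => c * f y + g y) x = c * Pq q f x + Pq q g x := by
  unfold Pq
  have hk := kq_cont h0 h1
  have h2 : ∀ y : ℝ, kq q (x - y) * (c * f y + g y) =
      c * (kq q (x - y) * f y) + kq q (x - y) * g y := by
    intro y
    ring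
  rw [M_congr h2, M_add (by fun_prop) (by fun_prop), M_mul]
  ring

theorem Pq_zero (q x : ℝ) : Pq q (fun _ => 0) x = 0 := by
  unfold Pq
  simp only [mul_zero]
  rw [M_const]
  ring

theorem trg_sub_Pq {q : ℝ} (h0 : 0 ≤ q) (h1 : q < 1) : ∀ (l : List ℚ) (k : ℕ) (x : ℝ),
    trg l k x - Pq q (trg l k) x = (1 - q) * trq q l k x
  | [], k, x => by
    have h2 : trg [] k = fun _ => 0 := by
      funext y
      rfl
    rw [h2, Pq_zero]
    simp [trq]
  | c :: l, k, x => by
    have ih := trg_sub_Pq h0 h1 l (k + 1) x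
    have h2 : trg (c :: l) k = fun y => (c : ℝ) * cos ((k : ℝ) * y) + trg l (k + 1) y := by
      funext y
      rfl
    rw [h2, Pq_add_mul h0 h1 _ (by fun_prop) (trg_CP l (k + 1)).cont, Pq_cos h0 h1]
    simp only [trq]
    have hq : (1 - q) ≠ 0 := by
      have : 0 < 1 - q := by linarith
      exact this.ne'
    have h3 : (1 - q) * ((c : ℝ) * ((1 - q ^ k) / (1 - q)) * cos ((k : ℝ) * x) +
        trq q l (k + 1) x) = (c : ℝ) * (1 - q ^ k) * cos ((k : ℝ) * x) +
        (1 - q) * trq q l (k + 1) x := by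
      field_simp
    rw [h3, ← ih]
    ring

theorem E_trg {q : ℝ} (h0 : 0 ≤ q) (h1 : q < 1) {g : ℝ → ℝ} (hg : CP g) (l : List ℚ) (k : ℕ) :
    E q g (trg l k) = M (fun x => g x * trq q l k x) := by
  rw [E_eq h0 h1 hg (trg_CP l k)]
  have h2 : ∀ x : ℝ, g x * (trg l k x - Pq q (trg l k) x) = (1 - q) * (g x * trq q l k x) := by
    intro x
    rw [trg_sub_Pq h0 h1]
    ring
  rw [M_congr h2, M_mul]
  have hq : (1 - q) ≠ 0 := by
    have : 0 < 1 - q := by linarith
    exact this.ne'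
  field_simp

end Pool.Agent.Helper93.MA
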