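import Pool.Agent.Helper93.MA.Defs

/-!
Project MA, module Cov: change of variables.

`g w = f (exp w) = exp (GG h w)` on the left half plane, `g' w = exp (GG h w) * GD h w`.
On `U = (a, b) × (0, 2π)` (as a subset of `ℂ`) `exp` is injective with values in the unit disk, so
`g` is injective on `U` and on `V = U ∩ {‖g‖ < 1}`, and `g '' V ⊆ f '' ball 0 1 ∩ ball 0 1`.
`MeasureTheory.lintegral_abs_det_fderiv_eq_addHaar_image` gives
`∫⁻ w in V, |det (g' w)| = volume (g '' V)`, the determinant of multiplication by `c` as a real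
linear map of `ℂ` is `‖c‖^2`.  The integrand of the left side is at most `1_V |g'|^2` because
`0 ≤ φ ≤ 1` and `φ t = 0` for `t ≥ 1`; the left side is an integral of a continuous function over a
rectangle (`Complex.volume_preserving_equiv_real_prod`, Fubini).
Compare Pool/Agent/Helper72/OA/Area.lean (`volume_Psi`) for the technique.
-/

set_option autoImplicit false

open Real Metric MeasureTheory

namespace Pool.Agent.Helper93.MA

theorem exp_mem_ball {w : ℂ} (hw : w.re < 0) : Complex.exp w ∈ ball (0 : ℂ) 1 := by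
  rw [mem_ball_zero_iff, Complex.norm_exp]
  exact Real.exp_lt_one_iff.2 hw

theorem GG_hasDerivAt {h : ℂ → ℂ} (hh : DifferentiableOn ℂ h (ball 0 1)) {w : ℂ} (hw : w.re < 0) :
    HasDerivAt (GG h) (GD h w) w := by
  have h1 : HasDerivAt h (deriv h (Complex.exp w)) (Complex.exp w) :=
    ((hh _ (exp_mem_ball hw)).differentiableAt (isOpen_ball.mem_nhds (exp_mem_ball hw))).hasDerivAt
  have h2 := h1.comp w (Complex.hasDerivAt_exp w)
  have h3 := (hasDerivAt_id w).add h2
  have h4 : GD h w = 1 + deriv h (Complex.exp w) * Complex.exp w := by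
    rw [GD, mul_comm]
  rw [h4]
  exact h3

/-- determinant of the multiplication by `c` -/
theorem det_smul_one (c : ℂ) : (c • (1 : ℂ →L[ℝ] ℂ)).det = ‖c‖ ^ 2 := by
  rw [ContinuousLinearMap.det, ← LinearMap.det_toMatrix Complex.basisOneI,
    Matrix.det_fin_two]
  simp only [LinearMap.toMatrix_apply, Complex.coe_basisOneI, Complex.coe_basisOneI_repr]
  simp
  rw [← Complex.normSq_eq_norm_sq, Complex.normSq_apply]

/-- the parameter domain -/
def Uab (a b : ℝ) : Set ℂ := Set.Ioo a b ×ℂ Set.Ioo 0 (2 * π)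

theorem isOpen_Uab (a b : ℝ) : IsOpen (Uab a b) := isOpen_Ioo.reProdIm isOpen_Ioo

theorem exp_inj_Uab {a b : ℝ} : Set.InjOn Complex.exp (Uab a b) := by
  intro z hz w hw h
  have hz2 : z.im ∈ Set.Ioo 0 (2 * π) := hz.2
  have hw2 : w.im ∈ Set.Ioo 0 (2 * π) := hw.2
  rw [Complex.exp_eq_exp_iff_exists_int] at h
  obtain ⟨n, hn⟩ := h
  have h1 : z.im = w.im + n * (2 * π) := by
    have := congrArg Complex.im hn
    simpa using this
  have hpi := Real.two_pi_pos
  have h2 : n = 0 := by
    have h3 : (n : ℝ) * (2 * π) < 1 * (2 * π) := by linarith [hz2.2, hw2.1]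
    have h4 : (-1 : ℝ) * (2 * π) < (n : ℝ) * (2 * π) := by linarith [hz2.1, hw2.2]
    have h5 : (n : ℝ) < 1 := lt_of_mul_lt_mul_right h3 hpi.le
    have h6 : (-1 : ℝ) < n := lt_of_mul_lt_mul_right h4 hpi.le
    have h7 : n < 1 := by exact_mod_cast h5
    have h8 : -1 < n := by exact_mod_cast h6
    omega
  rw [hn, h2]
  simp

theorem cov {f h : ℂ → ℂ} (hf : ClassS f) (hh : LogF f h) {φ : ℝ → ℝ} (hφ : Continuous φ)
    (φ0 : ∀ t, 0 ≤ φ t) (φ1 : ∀ t, φ t ≤ 1) (φ2 : ∀ t, 1 ≤ t → φ t = 0)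
    {a b : ℝ} (hab : a ≤ b) (hb : b < 0) :
    ∫ s in a..b, ∫ x in (0 : ℝ)..(2 * π),
        φ (‖Complex.exp (GG h ((s : ℂ) + (x : ℂ) * Complex.I))‖ ^ 2) *
          ‖Complex.exp (GG h ((s : ℂ) + (x : ℂ) * Complex.I)) *
            GD h ((s : ℂ) + (x : ℂ) * Complex.I)‖ ^ 2 ≤ area f := by
  obtain ⟨g, hg⟩ : ∃ g : ℂ → ℂ, g = fun w => Complex.exp (GG h w) := ⟨_, rfl⟩
  obtain ⟨F, hF⟩ : ∃ F : ℂ → ℝ, F = fun w => φ (‖g w‖ ^ 2) * ‖g w * GD h w‖ ^ 2 := ⟨_, rfl⟩
  have hL : IsOpen {w : ℂ | w.re < 0} := isOpen_lt Complex.continuous_re continuous_const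
  have hderiv : ∀ w : ℂ, w.re < 0 → HasDerivAt g (g w * GD h w) w := by
    intro w hw
    rw [hg]
    exact (GG_hasDerivAt hh.diff hw).cexp
  have hgc : ContinuousOn g {w : ℂ | w.re < 0} := fun w hw =>
    (hderiv w hw).continuousAt.continuousWithinAt
  have hGDc : ContinuousOn (GD h) {w : ℂ | w.re < 0} := by
    have h1 : ContinuousOn (deriv h) (ball 0 1) := (hh.diff.deriv isOpen_ball).continuousOn
    have h2 : ContinuousOn (fun w => deriv h (Complex.exp w)) {w : ℂ | w.re < 0} :=
      h1.comp Complex.continuous_exp.continuousOn fun w hw => exp_mem_ball hw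
    exact continuousOn_const.add (Complex.continuous_exp.continuousOn.mul h2)
  have hFc : ContinuousOn F {w : ℂ | w.re < 0} := by
    rw [hF]
    exact (hφ.comp_continuousOn (hgc.norm.pow 2)).mul ((hgc.mul hGDc).norm.pow 2)
  have hF0 : ∀ w, 0 ≤ F w := by
    intro w
    rw [hF]
    exact mul_nonneg (φ0 _) (sq_nonneg _)
  have hgf : ∀ w : ℂ, w.re < 0 → g w = f (Complex.exp w) := by
    intro w hw
    rw [hh.eq _ (exp_mem_ball hw), ← Complex.exp_add, hg]
    rfl
  have hUL : Uab a b ⊆ {w : ℂ | w.re < 0} := fun w hw => lt_trans hw.1.2 hb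
  -- rewriting as an integral over the rectangle in ℂ
  have e1 : ∫ s in a..b, ∫ x in (0 : ℝ)..(2 * π),
        φ (‖Complex.exp (GG h ((s : ℂ) + (x : ℂ) * Complex.I))‖ ^ 2) *
          ‖Complex.exp (GG h ((s : ℂ) + (x : ℂ) * Complex.I)) *
            GD h ((s : ℂ) + (x : ℂ) * Complex.I)‖ ^ 2 = ∫ w in Uab a b, F w := by
    have hmp := Complex.volume_preserving_equiv_real_prod
    have h1 := hmp.setIntegral_preimage_emb Complex.measurableEquivRealProd.measurableEmbedding
      (fun q : ℝ × ℝ => F ((q.1 : ℂ) + (q.2 : ℂ) * Complex.I))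
      (Set.Ioo a b ×ˢ Set.Ioo 0 (2 * π))
    have h2 : ∫ w in Uab a b, F w = ∫ w in (Complex.measurableEquivRealProd ⁻¹'
        (Set.Ioo a b ×ˢ Set.Ioo 0 (2 * π))), (fun q : ℝ × ℝ =>
          F ((q.1 : ℂ) + (q.2 : ℂ) * Complex.I)) (Complex.measurableEquivRealProd w) := by
      have h3 : ∀ w : ℂ, (fun q : ℝ × ℝ =>
          F ((q.1 : ℂ) + (q.2 : ℂ) * Complex.I)) (Complex.measurableEquivRealProd w) = F w := by
        intro w
        show F ((w.re : ℂ) + (w.im : ℂ) * Complex.I) = F w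
        rw [Complex.re_add_im]
      simp only [h3]
      rfl
    rw [h2, h1, Measure.volume_eq_prod, setIntegral_prod]
    · rw [intervalIntegral.integral_of_le hab, integral_Ioc_eq_integral_Ioo]
      refine setIntegral_congr_fun measurableSet_Ioo fun s _ => ?_
      simp only
      rw [intervalIntegral.integral_of_le Real.two_pi_pos.le, integral_Ioc_eq_integral_Ioo]
      refine setIntegral_congr_fun measurableSet_Ioo fun x _ => ?_
      simp only [hF, hg]
    · have h4 : ContinuousOn (fun q : ℝ × ℝ => F ((q.1 : ℂ) + (q.2 : ℂ) * Complex.I))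
          (Set.Icc a b ×ˢ Set.Icc 0 (2 * π)) := by
        refine hFc.comp (by fun_prop) ?_
        intro q hq
        have : q.1 ≤ b := hq.1.2
        simpa using lt_of_le_of_lt this hb
      rw [← Measure.volume_eq_prod]
      exact (h4.integrableOn_compact (isCompact_Icc.prod isCompact_Icc)).mono_set
        (Set.prod_mono Set.Ioo_subset_Icc_self Set.Ioo_subset_Icc_self)
  rw [e1]
  have hUm : MeasurableSet (Uab a b) := (isOpen_Uab a b).measurableSet
  obtain ⟨V, hV⟩ : ∃ V : Set ℂ, V = Uab a b ∩ g ⁻¹' ball 0 1 := ⟨_, rfl⟩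
  have hVo : IsOpen V := by
    rw [hV]
    exact (hgc.mono hUL).isOpen_inter_preimage (isOpen_Uab a b) isOpen_ball
  have hVU : V ⊆ Uab a b := by rw [hV]; exact Set.inter_subset_left
  have hVinj : Set.InjOn g V := by
    intro z hz w hw hzw
    have hz1 := hVU hz
    have hw1 := hVU hw
    rw [hgf z (hUL hz1), hgf w (hUL hw1)] at hzw
    exact exp_inj_Uab hz1 hw1 (hf.inj (exp_mem_ball (hUL hz1)) (exp_mem_ball (hUL hw1)) hzw)
  have hVsub : g '' V ⊆ f '' ball 0 1 ∩ ball 0 1 := by
    rintro _ ⟨w, hw, rfl⟩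
    refine ⟨⟨Complex.exp w, exp_mem_ball (hUL (hVU hw)), (hgf w (hUL (hVU hw))).symm⟩, ?_⟩
    rw [hV] at hw
    exact hw.2
  have hfin : volume (f '' ball 0 1 ∩ ball (0 : ℂ) 1) ≠ ⊤ :=
    ne_top_of_le_ne_top (measure_ball_lt_top (x := (0 : ℂ)) (r := 1)).ne
      (measure_mono Set.inter_subset_right)
  rw [integral_eq_lintegral_of_nonneg_ae (Filter.Eventually.of_forall hF0)
    ((hFc.mono hUL).aestronglyMeasurable hUm)]
  refine ENNReal.toReal_mono hfin ?_
  refine le_trans ?_ (measure_mono hVsub)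
  rw [← MeasureTheory.lintegral_abs_det_fderiv_eq_addHaar_image volume hVo.measurableSet
    (fun z hz => ((hderiv z (hUL (hVU hz))).complexToReal_fderiv).hasFDerivWithinAt) hVinj]
  calc ∫⁻ w in Uab a b, ENNReal.ofReal (F w)
      ≤ ∫⁻ w in Uab a b, V.indicator (fun w => ENNReal.ofReal
          |((g w * GD h w) • (1 : ℂ →L[ℝ] ℂ)).det|) w := by
        refine setLIntegral_mono' hUm fun w hw => ?_
        by_cases hwV : w ∈ V
        · rw [Set.indicator_of_mem hwV, det_smul_one, abs_of_nonneg (sq_nonneg _)]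
          refine ENNReal.ofReal_le_ofReal ?_
          rw [hF]
          exact mul_le_of_le_one_left (sq_nonneg _) (φ1 _)
        · rw [Set.indicator_of_notMem hwV]
          have h1 : 1 ≤ ‖g w‖ := by
            by_contra hlt
            push Not at hlt
            apply hwV
            rw [hV]
            exact ⟨hw, by simpa using hlt⟩
          have h2 : F w = 0 := by
            rw [hF]
            simp only
            rw [φ2 _ (one_le_pow₀ h1), zero_mul]
          rw [h2]
          simp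
    _ = ∫⁻ w in V, ENNReal.ofReal |((g w * GD h w) • (1 : ℂ →L[ℝ] ℂ)).det| := by
        rw [lintegral_indicator hVo.measurableSet, Measure.restrict_restrict hVo.measurableSet,
          Set.inter_eq_left.2 hVU]

end Pool.Agent.Helper93.MA
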