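import Mathlib

/-!
Project MA (MP_555192_an): every normalised univalent function `f` satisfies
`area (f(D) ∩ D) ≥ 0.756 π`.  Definitions.
-/

set_option autoImplicit false

open Real

namespace Pool.Agent.Helper93.MA

/-- mean over a period -/
noncomputable def M (f : ℝ → ℝ) : ℝ := (1 / (2 * π)) * ∫ x in (0 : ℝ)..(2 * π), f x

/-- continuous functions with period `2 π` -/
structure CP (f : ℝ → ℝ) : Prop where
  cont : Continuous f
  per : ∀ x, f (x + 2 * π) = f x

/-- the Poisson kernel divided by `1 - q` -/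
noncomputable def kq (q t : ℝ) : ℝ := (1 + q) / (1 - 2 * q * cos t + q ^ 2)

/-- the Poisson mean of `f` -/
noncomputable def Pq (q : ℝ) (f : ℝ → ℝ) (x : ℝ) : ℝ := (1 - q) * M (fun y => kq q (x - y) * f y)

/-- the regularised Dirichlet form -/
noncomputable def E (q : ℝ) (f g : ℝ → ℝ) : ℝ :=
  1 / 2 * M (fun x => M (fun y => kq q (x - y) * ((f x - f y) * (g x - g y))))

/-- `w = min (exp ρ) 1` -/
noncomputable def W (ρ : ℝ → ℝ) (x : ℝ) : ℝ := min (Real.exp (ρ x)) 1

/-- mean of `-log (1 - δ)` -/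
noncomputable def pp (δ : ℝ → ℝ) : ℝ := M (fun x => -Real.log (1 - δ x))

/-- the functional to be bounded from below, at the parameters `q`, `η` -/
noncomputable def FF (q η : ℝ) (δ : ℝ → ℝ) : ℝ :=
  1 - M (fun x => 2 * δ x - δ x ^ 2) + 2 * E q δ δ
    + (pp δ - η) * M (fun x => (2 * δ x - δ x ^ 2) * kq q (x + π))

/-- the final inequality -/
def FI : Prop :=
  ∀ q : ℝ, 0.999999 ≤ q → q < 1 → ∀ η : ℝ, 0 ≤ η → ∀ δ : ℝ → ℝ, CP δ → (∀ x, 0 ≤ δ x) →
    (∀ x, δ x < 1) → η ≤ pp δ → 189 / 250 - 1000000 * η ≤ FF q η δ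

/-- the class `S` -/
structure ClassS (f : ℂ → ℂ) : Prop where
  diff : DifferentiableOn ℂ f (Metric.ball 0 1)
  inj : Set.InjOn f (Metric.ball 0 1)
  zero : f 0 = 0
  one : deriv f 0 = 1

/-- area of the part of the image of the unit disk in the unit disk -/
noncomputable def area (f : ℂ → ℂ) : ℝ :=
  (MeasureTheory.volume (f '' Metric.ball 0 1 ∩ Metric.ball 0 1)).toReal

/-- `f z = z exp (h z)` on the unit disk -/
structure LogF (f h : ℂ → ℂ) : Prop where
  diff : DifferentiableOn ℂ h (Metric.ball 0 1)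
  zero : h 0 = 0
  eq : ∀ z ∈ Metric.ball (0 : ℂ) 1, f z = z * Complex.exp (h z)

/-- the point `r exp (i x)` -/
noncomputable def pt (r x : ℝ) : ℂ := (r : ℂ) * Complex.exp ((x : ℂ) * Complex.I)

/-- `log |f (r exp (i x))|` -/
noncomputable def rho (h : ℂ → ℂ) (r x : ℝ) : ℝ := Real.log r + (h (pt r x)).re

/-- the logarithm of `f (exp w)` -/
noncomputable def GG (h : ℂ → ℂ) (w : ℂ) : ℂ := w + h (Complex.exp w)

/-- its derivative -/
noncomputable def GD (h : ℂ → ℂ) (w : ℂ) : ℂ := 1 + Complex.exp w * deriv h (Complex.exp w)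

end Pool.Agent.Helper93.MA
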