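import Pool.Agent.Helper93.MA.CertT
import Pool.Agent.Helper93.MA.Dat1
import Pool.Agent.Helper93.MA.Dat2
import Pool.Agent.Helper93.MA.Dat3
import Pool.Agent.Helper93.MA.Dat4

/-!
Project MA, module FIp: proof of the inequality `FI`.
-/

set_option autoImplicit false

open Real

namespace Pool.Agent.Helper93.MA

theorem exp_small : (189 : ℝ) / 250 ≤ Real.exp (-(2 * (699 / 5000))) := by
  have h := Real.exp_bound' (x := (2 * (699 / 5000) : ℝ)) (by norm_num) (by norm_num)
    (n := 6) (by norm_num)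
  rw [Real.exp_neg, le_inv_comm₀ (by norm_num) (Real.exp_pos _)]
  refine h.trans ?_
  simp only [Finset.sum_range_succ, Finset.sum_range_zero, Nat.factorial]
  norm_num

/-- small logarithmic mean -/
theorem fi_small {q : ℝ} (hq : 0.999999 ≤ q) (hq1 : q < 1) {η : ℝ} (hη : 0 ≤ η) {δ : ℝ → ℝ}
    (hδ : CP δ) (h0 : ∀ x, 0 ≤ δ x) (h1 : ∀ x, δ x < 1) (hpη : η ≤ pp δ)
    (hp : pp δ ≤ 699 / 5000) : 189 / 250 - 1000000 * η ≤ FF q η δ := by
  have q0 : 0 ≤ q := by linarith
  have hδc := hδ.cont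
  have hlog : Continuous (fun x => -Real.log (1 - δ x)) := by
    refine Continuous.neg (Continuous.log (by fun_prop) fun x => ?_)
    have := h1 x
    linarith
  have hkc : Continuous (fun x : ℝ => kq q (x + π)) :=
    (kq_cont q0 hq1).comp (by fun_prop)
  have a1 : Real.exp (-(2 * pp δ)) ≤ 1 - M (fun x => 2 * δ x - δ x ^ 2) := by
    have h2 : ∀ x, (-(Real.exp (-(2 * pp δ)) * 2)) * (-Real.log (1 - δ x)) +
        Real.exp (-(2 * pp δ)) * (1 + 2 * pp δ) ≤ 1 - (2 * δ x - δ x ^ 2) := by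
      intro x
      have h3 : 0 < 1 - δ x := by linarith [h1 x]
      have h4 : 1 - (2 * δ x - δ x ^ 2) = Real.exp (-(2 * pp δ)) *
          Real.exp (2 * Real.log (1 - δ x) + 2 * pp δ) := by
        rw [← Real.exp_add]
        have h5 : -(2 * pp δ) + (2 * Real.log (1 - δ x) + 2 * pp δ) =
          Real.log (1 - δ x) + Real.log (1 - δ x) := by ring
        rw [h5, Real.exp_add, Real.exp_log h3]
        ring
      rw [h4]
      have h6 := Real.add_one_le_exp (2 * Real.log (1 - δ x) + 2 * pp δ)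
      have h7 := mul_le_mul_of_nonneg_left h6 (Real.exp_pos (-(2 * pp δ))).le
      refine le_trans (le_of_eq ?_) h7
      ring
    have h3 := M_mono (by fun_prop) (by fun_prop) h2
    rw [M_add (by fun_prop) continuous_const, M_mul, M_const,
      M_sub continuous_const (by fun_prop), M_const] at h3
    have h4 : M (fun x => -Real.log (1 - δ x)) = pp δ := rfl
    rw [h4] at h3
    refine le_trans (le_of_eq ?_) h3
    ring
  have a2 : Real.exp (-(2 * (699 / 5000))) ≤ Real.exp (-(2 * pp δ)) :=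
    Real.exp_le_exp.mpr (by linarith)
  have a3 := E_nonneg q0 hq1 δ
  have a4 : 0 ≤ (pp δ - η) * M (fun x => (2 * δ x - δ x ^ 2) * kq q (x + π)) := by
    refine mul_nonneg (by linarith) (M_nonneg fun x => mul_nonneg ?_ (kq_pos q0 hq1 _).le)
    nlinarith [h0 x, h1 x]
  have a5 := exp_small
  unfold FF
  linarith

theorem cert_use {c : Cert} (hc : c.OK) {q : ℝ} (hq : 0.999999 ≤ q) (hq1 : q < 1)
    {η : ℝ} (hη : 0 ≤ η) {δ : ℝ → ℝ} (hδ : CP δ) (h0 : ∀ x, 0 ≤ δ x) (h1 : ∀ x, δ x < 1)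
    (hpη : η ≤ pp δ) {a b : ℝ} (ha : (c.p1 : ℝ) = a) (hb : (c.p2 : ℝ) = b)
    (hp1 : a ≤ pp δ) (hp2 : pp δ ≤ b) : 189 / 250 - 1000000 * η ≤ FF q η δ := by
  refine cert_sound hc hq hq1 hη hδ h0 h1 (by rw [ha]; exact hp1) ?_ hpη
  rw [hb]
  have h2 := hc.h0
  simp only [Cert.ck0, Bool.and_eq_true, decide_eq_true_eq] at h2
  obtain ⟨⟨⟨⟨⟨⟨⟨⟨⟨v00, v01⟩, ν0⟩, p0⟩, K0⟩, hK⟩, hpK⟩, hpv⟩, hs0⟩, hs2⟩ := h2
  have ν0' : (0 : ℝ) ≤ (c.nu : ℝ) := by exact_mod_cast ν0
  exact mul_nonpos_of_nonneg_of_nonpos ν0' (by linarith)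

theorem fi : FI := by
  intro q hq hq1 η hη δ hδ h0 h1 hp
  rcases le_total (pp δ) (699 / 5000) with hh | hh
  · exact fi_small hq hq1 hη hδ h0 h1 hp hh
  rcases le_total (pp δ) (99 / 500) with hh1 | hh1
  · exact cert_use ok1 hq hq1 hη hδ h0 h1 hp (a := 699 / 5000) (b := 99 / 500)
      (by norm_num [c1]) (by norm_num [c1]) hh hh1
  rcases le_total (pp δ) (549 / 2500) with hh2 | hh2
  · exact cert_use ok2 hq hq1 hη hδ h0 h1 hp (a := 99 / 500) (b := 549 / 2500)
      (by norm_num [c2]) (by norm_num [c2]) hh1 hh2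
  rcases le_total (pp δ) (1153 / 5000) with hh3 | hh3
  · exact cert_use ok3 hq hq1 hη hδ h0 h1 hp (a := 549 / 2500) (b := 1153 / 5000)
      (by norm_num [c3]) (by norm_num [c3]) hh2 hh3
  rcases le_total (pp δ) (597 / 2500) with hh4 | hh4
  · exact cert_use ok4 hq hq1 hη hδ h0 h1 hp (a := 1153 / 5000) (b := 597 / 2500)
      (by norm_num [c4]) (by norm_num [c4]) hh3 hh4
  rcases le_total (pp δ) (2461 / 10000) with hh5 | hh5
  · exact cert_use ok5 hq hq1 hη hδ h0 h1 hp (a := 597 / 2500) (b := 2461 / 10000)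
      (by norm_num [c5]) (by norm_num [c5]) hh4 hh5
  rcases le_total (pp δ) (2531 / 10000) with hh6 | hh6
  · exact cert_use ok6 hq hq1 hη hδ h0 h1 hp (a := 2461 / 10000) (b := 2531 / 10000)
      (by norm_num [c6]) (by norm_num [c6]) hh5 hh6
  rcases le_total (pp δ) (519 / 2000) with hh7 | hh7
  · exact cert_use ok7 hq hq1 hη hδ h0 h1 hp (a := 2531 / 10000) (b := 519 / 2000)
      (by norm_num [c7]) (by norm_num [c7]) hh6 hh7
  rcases le_total (pp δ) (331 / 1250) with hh8 | hh8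
  · exact cert_use ok8 hq hq1 hη hδ h0 h1 hp (a := 519 / 2000) (b := 331 / 1250)
      (by norm_num [c8]) (by norm_num [c8]) hh7 hh8
  rcases le_total (pp δ) (269 / 1000) with hh9 | hh9
  · exact cert_use ok9 hq hq1 hη hδ h0 h1 hp (a := 331 / 1250) (b := 269 / 1000)
      (by norm_num [c9]) (by norm_num [c9]) hh8 hh9
  rcases le_total (pp δ) (109 / 400) with hh10 | hh10
  · exact cert_use ok10 hq hq1 hη hδ h0 h1 hp (a := 269 / 1000) (b := 109 / 400)
      (by norm_num [c10]) (by norm_num [c10]) hh9 hh10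
  rcases le_total (pp δ) (1377 / 5000) with hh11 | hh11
  · exact cert_use ok11 hq hq1 hη hδ h0 h1 hp (a := 109 / 400) (b := 1377 / 5000)
      (by norm_num [c11]) (by norm_num [c11]) hh10 hh11
  rcases le_total (pp δ) (139 / 500) with hh12 | hh12
  · exact cert_use ok12 hq hq1 hη hδ h0 h1 hp (a := 1377 / 5000) (b := 139 / 500)
      (by norm_num [c12]) (by norm_num [c12]) hh11 hh12
  rcases le_total (pp δ) (2803 / 10000) with hh13 | hh13
  · exact cert_use ok13 hq hq1 hη hδ h0 h1 hp (a := 139 / 500) (b := 2803 / 10000)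
      (by norm_num [c13]) (by norm_num [c13]) hh12 hh13
  rcases le_total (pp δ) (353 / 1250) with hh14 | hh14
  · exact cert_use ok14 hq hq1 hη hδ h0 h1 hp (a := 2803 / 10000) (b := 353 / 1250)
      (by norm_num [c14]) (by norm_num [c14]) hh13 hh14
  rcases le_total (pp δ) (711 / 2500) with hh15 | hh15
  · exact cert_use ok15 hq hq1 hη hδ h0 h1 hp (a := 353 / 1250) (b := 711 / 2500)
      (by norm_num [c15]) (by norm_num [c15]) hh14 hh15
  rcases le_total (pp δ) (2863 / 10000) with hh16 | hh16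
  · exact cert_use ok16 hq hq1 hη hδ h0 h1 hp (a := 711 / 2500) (b := 2863 / 10000)
      (by norm_num [c16]) (by norm_num [c16]) hh15 hh16
  rcases le_total (pp δ) (1441 / 5000) with hh17 | hh17
  · exact cert_use ok17 hq hq1 hη hδ h0 h1 hp (a := 2863 / 10000) (b := 1441 / 5000)
      (by norm_num [c17]) (by norm_num [c17]) hh16 hh17
  rcases le_total (pp δ) (2901 / 10000) with hh18 | hh18
  · exact cert_use ok18 hq hq1 hη hδ h0 h1 hp (a := 1441 / 5000) (b := 2901 / 10000)
      (by norm_num [c18]) (by norm_num [c18]) hh17 hh18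
  rcases le_total (pp δ) (1459 / 5000) with hh19 | hh19
  · exact cert_use ok19 hq hq1 hη hδ h0 h1 hp (a := 2901 / 10000) (b := 1459 / 5000)
      (by norm_num [c19]) (by norm_num [c19]) hh18 hh19
  rcases le_total (pp δ) (1467 / 5000) with hh20 | hh20
  · exact cert_use ok20 hq hq1 hη hδ h0 h1 hp (a := 1459 / 5000) (b := 1467 / 5000)
      (by norm_num [c20]) (by norm_num [c20]) hh19 hh20
  rcases le_total (pp δ) (2951 / 10000) with hh21 | hh21
  · exact cert_use ok21 hq hq1 hη hδ h0 h1 hp (a := 1467 / 5000) (b := 2951 / 10000)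
      (by norm_num [c21]) (by norm_num [c21]) hh20 hh21
  rcases le_total (pp δ) (2969 / 10000) with hh22 | hh22
  · exact cert_use ok22 hq hq1 hη hδ h0 h1 hp (a := 2951 / 10000) (b := 2969 / 10000)
      (by norm_num [c22]) (by norm_num [c22]) hh21 hh22
  rcases le_total (pp δ) (1493 / 5000) with hh23 | hh23
  · exact cert_use ok23 hq hq1 hη hδ h0 h1 hp (a := 2969 / 10000) (b := 1493 / 5000)
      (by norm_num [c23]) (by norm_num [c23]) hh22 hh23
  rcases le_total (pp δ) (3003 / 10000) with hh24 | hh24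
  · exact cert_use ok24 hq hq1 hη hδ h0 h1 hp (a := 1493 / 5000) (b := 3003 / 10000)
      (by norm_num [c24]) (by norm_num [c24]) hh23 hh24
  rcases le_total (pp δ) (1511 / 5000) with hh25 | hh25
  · exact cert_use ok25 hq hq1 hη hδ h0 h1 hp (a := 3003 / 10000) (b := 1511 / 5000)
      (by norm_num [c25]) (by norm_num [c25]) hh24 hh25
  rcases le_total (pp δ) (761 / 2500) with hh26 | hh26
  · exact cert_use ok26 hq hq1 hη hδ h0 h1 hp (a := 1511 / 5000) (b := 761 / 2500)
      (by norm_num [c26]) (by norm_num [c26]) hh25 hh26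
  rcases le_total (pp δ) (613 / 2000) with hh27 | hh27
  · exact cert_use ok27 hq hq1 hη hδ h0 h1 hp (a := 761 / 2500) (b := 613 / 2000)
      (by norm_num [c27]) (by norm_num [c27]) hh26 hh27
  rcases le_total (pp δ) (309 / 1000) with hh28 | hh28
  · exact cert_use ok28 hq hq1 hη hδ h0 h1 hp (a := 613 / 2000) (b := 309 / 1000)
      (by norm_num [c28]) (by norm_num [c28]) hh27 hh28
  rcases le_total (pp δ) (3121 / 10000) with hh29 | hh29
  · exact cert_use ok29 hq hq1 hη hδ h0 h1 hp (a := 309 / 1000) (b := 3121 / 10000)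
      (by norm_num [c29]) (by norm_num [c29]) hh28 hh29
  rcases le_total (pp δ) (631 / 2000) with hh30 | hh30
  · exact cert_use ok30 hq hq1 hη hδ h0 h1 hp (a := 3121 / 10000) (b := 631 / 2000)
      (by norm_num [c30]) (by norm_num [c30]) hh29 hh30
  rcases le_total (pp δ) (8 / 25) with hh31 | hh31
  · exact cert_use ok31 hq hq1 hη hδ h0 h1 hp (a := 631 / 2000) (b := 8 / 25)
      (by norm_num [c31]) (by norm_num [c31]) hh30 hh31
  rcases le_total (pp δ) (3257 / 10000) with hh32 | hh32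
  · exact cert_use ok32 hq hq1 hη hδ h0 h1 hp (a := 8 / 25) (b := 3257 / 10000)
      (by norm_num [c32]) (by norm_num [c32]) hh31 hh32
  rcases le_total (pp δ) (417 / 1250) with hh33 | hh33
  · exact cert_use ok33 hq hq1 hη hδ h0 h1 hp (a := 3257 / 10000) (b := 417 / 1250)
      (by norm_num [c33]) (by norm_num [c33]) hh32 hh33
  rcases le_total (pp δ) (3459 / 10000) with hh34 | hh34
  · exact cert_use ok34 hq hq1 hη hδ h0 h1 hp (a := 417 / 1250) (b := 3459 / 10000)
      (by norm_num [c34]) (by norm_num [c34]) hh33 hh34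
  rcases le_total (pp δ) (46 / 125) with hh35 | hh35
  · exact cert_use ok35 hq hq1 hη hδ h0 h1 hp (a := 3459 / 10000) (b := 46 / 125)
      (by norm_num [c35]) (by norm_num [c35]) hh34 hh35
  rcases le_total (pp δ) (53 / 125) with hh36 | hh36
  · exact cert_use ok36 hq hq1 hη hδ h0 h1 hp (a := 46 / 125) (b := 53 / 125)
      (by norm_num [c36]) (by norm_num [c36]) hh35 hh36
  · refine cert_sound ok37 hq hq1 hη hδ h0 h1 ?_ ?_ hp
    · refine le_trans (le_of_eq ?_) hh36
      norm_num [c37]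
    · refine le_of_eq ?_
      norm_num [c37]

end Pool.Agent.Helper93.MA
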