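import Pool.Agent.Helper93.MA.Basic

/-!
Project MA, module Ker: the Poisson kernel `kq q t = (1+q)/(1 - 2 q cos t + q^2)`, which is the
Poisson kernel divided by `1 - q`.

`1 - 2 q cos t + q^2 ≥ (1-q)^2 > 0`.  The Poisson formula is in Mathlib
(`DiffContOnCl.circleAverage_poissonKernel_smul`, file Analysis/Complex/Poisson): apply it to `h`
on `ball 0 r` at the point `pt (r q) x`, and take real parts; on the circle
`poissonKernel 0 (pt (r q) x) (pt r y) = (1 - q^2)/(1 - 2 q cos (x-y) + q^2) = (1-q) kq q (x-y)`,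
`circleMap 0 r y = pt r y`.  `Pq_one`: `h = 1`; `Pq_cos`: `h z = z^n` with `r = 1/2`.
`M_re`: the case `q = 0` (or the mean value property).
-/

set_option autoImplicit false

open Real Metric

namespace Pool.Agent.Helper93.MA

theorem den_pos {q : ℝ} (h0 : 0 ≤ q) (h1 : q < 1) (t : ℝ) : 0 < 1 - 2 * q * cos t + q ^ 2 := by
  have h2 : 0 < (1 - q) ^ 2 := pow_pos (by linarith) 2
  nlinarith [mul_nonneg h0 (by linarith [cos_le_one t] : 0 ≤ 1 - cos t)]

theorem kq_pos {q : ℝ} (h0 : 0 ≤ q) (h1 : q < 1) (t : ℝ) : 0 < kq q t :=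
  div_pos (by linarith) (den_pos h0 h1 t)

theorem kq_cont {q : ℝ} (h0 : 0 ≤ q) (h1 : q < 1) : Continuous (kq q) := by
  unfold kq
  exact continuous_const.div (by fun_prop) fun t => (den_pos h0 h1 t).ne'

theorem kq_neg (q t : ℝ) : kq q (-t) = kq q t := by
  simp only [kq, cos_neg]

theorem kq_per (q t : ℝ) : kq q (t + 2 * π) = kq q t := by
  simp only [kq, cos_add_two_pi]

theorem kq_pi (q x : ℝ) : kq q (x + π) = (1 + q) / (1 + 2 * q * cos x + q ^ 2) := by
  simp only [kq, cos_add_pi]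
  congr 1
  ring

private theorem pt_eq (r y : ℝ) : pt r y = ((r * cos y : ℝ) : ℂ) + ((r * sin y : ℝ) : ℂ) * Complex.I := by
  unfold pt
  rw [Complex.exp_mul_I]
  push_cast
  ring

private theorem pt_re (r y : ℝ) : (pt r y).re = r * cos y := by
  rw [pt_eq, Complex.add_re, Complex.ofReal_re, Complex.re_ofReal_mul, Complex.I_re]
  ring

private theorem pt_im (r y : ℝ) : (pt r y).im = r * sin y := by
  rw [pt_eq, Complex.add_im, Complex.ofReal_im, Complex.im_ofReal_mul, Complex.I_im]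
  ring

private theorem norm_pt_sq (r y : ℝ) : ‖pt r y‖ ^ 2 = r ^ 2 := by
  rw [← Complex.normSq_eq_norm_sq, Complex.normSq_apply, pt_re, pt_im]
  nlinarith [sin_sq_add_cos_sq y]

private theorem norm_pt_sub_sq (r q x y : ℝ) :
    ‖pt r y - pt (r * q) x‖ ^ 2 = r ^ 2 * (1 - 2 * q * cos (x - y) + q ^ 2) := by
  rw [← Complex.normSq_eq_norm_sq, Complex.normSq_apply, Complex.sub_re, Complex.sub_im, pt_re,
    pt_im, pt_re, pt_im, cos_sub]
  have e1 : sin x ^ 2 = 1 - cos x ^ 2 := by linarith [sin_sq_add_cos_sq x]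
  have e2 : sin y ^ 2 = 1 - cos y ^ 2 := by linarith [sin_sq_add_cos_sq y]
  linear_combination (r ^ 2 * q ^ 2) * e1 + r ^ 2 * e2

private theorem norm_pt {r : ℝ} (r0 : 0 ≤ r) (y : ℝ) : ‖pt r y‖ = r := by
  have := norm_pt_sq r y
  exact (sq_eq_sq₀ (norm_nonneg _) r0).1 this

private theorem pt_cont (r : ℝ) : Continuous (pt r) := by
  unfold pt
  fun_prop

private theorem kernel_eq {r : ℝ} (r0 : 0 < r) {q : ℝ} (h0 : 0 ≤ q) (h1 : q < 1) (x y : ℝ) :
    poissonKernel 0 (pt (r * q) x) (pt r y) = (1 - q) * kq q (x - y) := by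
  unfold poissonKernel kq
  rw [sub_zero, sub_zero, norm_pt_sub_sq, norm_pt_sq, norm_pt_sq]
  have h2 := (den_pos h0 h1 (x - y)).ne'
  have h3 : r ^ 2 ≠ 0 := by positivity
  field_simp
  ring

theorem poisson {h : ℂ → ℂ} (hh : DifferentiableOn ℂ h (ball 0 1)) {r : ℝ} (r0 : 0 < r)
    (r1 : r < 1) {q : ℝ} (h0 : 0 ≤ q) (h1 : q < 1) (x : ℝ) :
    Pq q (fun y => (h (pt r y)).re) x = (h (pt (r * q) x)).re := by
  have hw : pt (r * q) x ∈ ball (0 : ℂ) r := by
    rw [mem_ball_zero_iff, norm_pt (by positivity)]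
    nlinarith
  have hd : DiffContOnCl ℂ h (ball 0 r) :=
    hh.diffContOnCl_ball (closedBall_subset_ball r1)
  have hP := hd.circleAverage_poissonKernel_smul hw
  have hcont : Continuous (fun y => h (pt r y)) := by
    refine hh.continuousOn.comp_continuous (pt_cont r) fun y => ?_
    rw [mem_ball_zero_iff, norm_pt r0.le]
    exact r1
  have hk : Continuous (fun y : ℝ => kq q (x - y)) := (kq_cont h0 h1).comp (by fun_prop)
  have hI : (fun y : ℝ => (poissonKernel 0 (pt (r * q) x) • h) (circleMap 0 r y)) =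
      fun y : ℝ => ((1 - q) * kq q (x - y) : ℝ) • h (pt r y) := by
    funext y
    have e : circleMap 0 r y = pt r y := by
      rw [circleMap_zero]
      rfl
    rw [e, Pi.smul_apply', kernel_eq r0 h0 h1]
  unfold circleAverage at hP
  rw [hI] at hP
  have hc2 : Continuous (fun y : ℝ => ((1 - q) * kq q (x - y) : ℝ) • h (pt r y)) :=
    (continuous_const.mul hk).smul hcont
  have h3 := congrArg Complex.re hP
  rw [Complex.smul_re] at h3
  have h4 := Complex.reCLM.intervalIntegral_comp_comm (μ := MeasureTheory.volume)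
    (hc2.intervalIntegrable 0 (2 * π))
  simp only [Complex.reCLM_apply, Complex.smul_re] at h4
  rw [← h4] at h3
  rw [← h3]
  unfold Pq M
  rw [smul_eq_mul, one_div, ← mul_assoc, mul_comm (1 - q), mul_assoc,
    ← intervalIntegral.integral_const_mul]
  congr 2
  funext y
  rw [smul_eq_mul]
  ring

theorem Pq_one {q : ℝ} (h0 : 0 ≤ q) (h1 : q < 1) (x : ℝ) : Pq q (fun _ => 1) x = 1 := by
  have := poisson (h := fun _ => (1 : ℂ)) (differentiableOn_const _) (r := 1 / 2) (by norm_num)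
    (by norm_num) h0 h1 x
  simpa using this

theorem Pq_cos {q : ℝ} (h0 : 0 ≤ q) (h1 : q < 1) (n : ℕ) (x : ℝ) :
    Pq q (fun y => cos ((n : ℝ) * y)) x = q ^ n * cos ((n : ℝ) * x) := by
  have hp := poisson (h := fun z => z ^ n) (by fun_prop) (r := 1 / 2) (by norm_num)
    (by norm_num) h0 h1 x
  have hre : ∀ r y : ℝ, ((pt r y) ^ n).re = r ^ n * cos ((n : ℝ) * y) := by
    intro r y
    unfold pt
    rw [mul_pow, ← Complex.exp_nat_mul, ← Complex.ofReal_pow, Complex.re_ofReal_mul,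
      show (n : ℂ) * ((y : ℂ) * Complex.I) = (((n : ℝ) * y : ℝ) : ℂ) * Complex.I by
        push_cast; ring, Complex.exp_ofReal_mul_I_re]
  simp only [hre] at hp
  unfold Pq at hp ⊢
  have e : (fun y => kq q (x - y) * ((1 / 2 : ℝ) ^ n * cos ((n : ℝ) * y))) =
      fun y => (1 / 2 : ℝ) ^ n * (kq q (x - y) * cos ((n : ℝ) * y)) := by
    funext y
    ring
  rw [e, M_mul] at hp
  have h2 : (0 : ℝ) < (1 / 2 : ℝ) ^ n := by positivity
  refine mul_left_cancel₀ h2.ne' ?_
  rw [mul_pow] at hp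
  linarith

theorem M_kq {q : ℝ} (h0 : 0 ≤ q) (h1 : q < 1) (x : ℝ) :
    M (fun y => kq q (x - y)) = 1 / (1 - q) := by
  have h := Pq_one h0 h1 x
  unfold Pq at h
  simp only [mul_one] at h
  rw [eq_div_iff (by linarith), mul_comm]
  exact h

theorem M_re {h : ℂ → ℂ} (hh : DifferentiableOn ℂ h (ball 0 1)) {r : ℝ} (r0 : 0 < r)
    (r1 : r < 1) : M (fun x => (h (pt r x)).re) = (h 0).re := by
  have hp := poisson hh r0 r1 (q := 0) le_rfl one_pos 0
  unfold Pq at hp
  have e : ∀ t, kq 0 t = 1 := fun t => by simp [kq]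
  simp only [e, one_mul, sub_zero] at hp
  rw [hp]
  simp [pt]

end Pool.Agent.Helper93.MA
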