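import Pool.Agent.Helper93.MA.Form

/-!
Project MA, module LimE: the limit `q → 1` of the form.

By `E_eq`, `poisson` and `Pq_one` (`Pq` is linear): `E q T (rho h r) =
M (fun x => T x * (h (pt r x) - h (pt (r q) x)).re) / (1 - q)`.  Pointwise
`(h z - h (q z))/(1 - q) → z * deriv h z` for `z = pt r x`, and `|h z - h (q z)| ≤ C (1 - q)` with
`C = sup |deriv h|` over the closed disk of radius `r`; dominated convergence
(`intervalIntegral.tendsto_integral_filter_of_dominated_convergence`).
-/

set_option autoImplicit false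

open Real Metric Filter Topology

namespace Pool.Agent.Helper93.MA

theorem pt_per (r x : ℝ) : pt r (x + 2 * π) = pt r x := by
  unfold pt
  push_cast
  rw [add_mul, Complex.exp_add, Complex.exp_two_pi_mul_I, mul_one]

private theorem ptL_norm {r : ℝ} (r0 : 0 ≤ r) (x : ℝ) : ‖pt r x‖ = r := by
  unfold pt
  rw [norm_mul, Complex.norm_exp_ofReal_mul_I, mul_one, Complex.norm_real, Real.norm_of_nonneg r0]

private theorem ptL_cont (r : ℝ) : Continuous (pt r) := by
  unfold pt
  fun_prop

private theorem ptL_mul (r q x : ℝ) : pt (r * q) x = (q : ℂ) * pt r x := by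
  unfold pt
  push_cast
  ring

private theorem hptL_cont {h : ℂ → ℂ} (hh : DifferentiableOn ℂ h (ball 0 1)) {r : ℝ} (r0 : 0 < r)
    (r1 : r < 1) : Continuous (fun x => h (pt r x)) := by
  refine hh.continuousOn.comp_continuous (ptL_cont r) fun y => ?_
  rw [mem_ball_zero_iff, ptL_norm r0.le]
  exact r1

theorem rho_CP {h : ℂ → ℂ} (hh : DifferentiableOn ℂ h (ball 0 1)) {r : ℝ} (r0 : 0 < r)
    (r1 : r < 1) : CP (rho h r) where
  cont := by
    unfold rho
    exact continuous_const.add (Complex.continuous_re.comp (hptL_cont hh r0 r1))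
  per x := by
    unfold rho
    rw [pt_per]

theorem M_rho {h : ℂ → ℂ} (hh : DifferentiableOn ℂ h (ball 0 1)) (hz : h 0 = 0) {r : ℝ}
    (r0 : 0 < r) (r1 : r < 1) : M (rho h r) = Real.log r := by
  have hc : Continuous (fun x => (h (pt r x)).re) :=
    Complex.continuous_re.comp (hptL_cont hh r0 r1)
  have h1 : M (rho h r) = M (fun x => (fun _ : ℝ => Real.log r) x + (fun x => (h (pt r x)).re) x) :=
    rfl
  rw [h1, M_add (f := fun _ : ℝ => Real.log r) (g := fun x => (h (pt r x)).re) continuous_const hc,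
    M_const, M_re hh r0 r1, hz, Complex.zero_re, add_zero]

private theorem Pq_rho {h : ℂ → ℂ} (hh : DifferentiableOn ℂ h (ball 0 1)) {r : ℝ} (r0 : 0 < r)
    (r1 : r < 1) {q : ℝ} (h0 : 0 ≤ q) (h1 : q < 1) (x : ℝ) :
    Pq q (rho h r) x = Real.log r + (h (pt (r * q) x)).re := by
  have hc : Continuous (fun y => (h (pt r y)).re) :=
    Complex.continuous_re.comp (hptL_cont hh r0 r1)
  have hk : Continuous (fun y : ℝ => kq q (x - y)) := (kq_cont h0 h1).comp (by fun_prop)
  have e1 : (fun y => kq q (x - y) * rho h r y) =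
      fun y => (fun y => Real.log r * (kq q (x - y) * 1)) y +
        (fun y => kq q (x - y) * (h (pt r y)).re) y := by
    funext y
    unfold rho
    ring
  have e2 := Pq_one h0 h1 x
  have e3 := poisson hh r0 r1 h0 h1 x
  unfold Pq at e2 e3 ⊢
  have hk1 : Continuous (fun y => Real.log r * (kq q (x - y) * 1)) :=
    continuous_const.mul (hk.mul continuous_const)
  have hk2 : Continuous (fun y => kq q (x - y) * (h (pt r y)).re) := hk.mul hc
  rw [e1, M_add (f := fun y => Real.log r * (kq q (x - y) * 1))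
    (g := fun y => kq q (x - y) * (h (pt r y)).re) hk1 hk2, M_mul, mul_add, e3]
  have : (1 - q) * (Real.log r * M fun y => kq q (x - y) * 1) =
      Real.log r * ((1 - q) * M fun y => kq q (x - y) * 1) := by ring
  rw [this, e2, mul_one]

theorem lim_E {h : ℂ → ℂ} (hh : DifferentiableOn ℂ h (ball 0 1)) {r : ℝ} (r0 : 0 < r)
    (r1 : r < 1) {T : ℝ → ℝ} (hT : CP T) :
    Tendsto (fun q => E q T (rho h r)) (𝓝[<] 1)
      (𝓝 (M (fun x => T x * (pt r x * deriv h (pt r x)).re))) := by
  -- the bound for the derivative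
  have hd : ContinuousOn (deriv h) (closedBall 0 r) :=
    ((hh.deriv isOpen_ball).continuousOn).mono (closedBall_subset_ball r1)
  obtain ⟨C, hC⟩ := (isCompact_closedBall (0 : ℂ) r).exists_bound_of_continuousOn hd
  have hC0 : 0 ≤ C := (norm_nonneg _).trans (hC 0 (mem_closedBall_self r0.le))
  have hin : ∀ x : ℝ, ∀ q : ℝ, 0 ≤ q → q ≤ 1 → (q : ℂ) * pt r x ∈ closedBall (0 : ℂ) r := by
    intro x q q0 q1
    rw [mem_closedBall_zero_iff, norm_mul, ptL_norm r0.le, Complex.norm_real,
      Real.norm_of_nonneg q0]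
    nlinarith
  have hlip : ∀ x : ℝ, ∀ q : ℝ, 0 ≤ q → q ≤ 1 →
      ‖h (pt r x) - h ((q : ℂ) * pt r x)‖ ≤ C * (1 - q) := by
    intro x q q0 q1
    have h1 := Convex.norm_image_sub_le_of_norm_deriv_le (𝕜 := ℂ) (f := h) (C := C)
      (s := closedBall (0 : ℂ) r) (x := (q : ℂ) * pt r x) (y := pt r x)
      (fun z hz => (hh z (closedBall_subset_ball r1 hz)).differentiableAt
        (isOpen_ball.mem_nhds (closedBall_subset_ball r1 hz)))
      hC (convex_closedBall 0 r) (hin x q q0 q1)
      (by
        have := hin x 1 zero_le_one le_rfl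
        simpa using this)
    refine h1.trans ?_
    have h2 : pt r x - (q : ℂ) * pt r x = ((1 - q : ℝ) : ℂ) * pt r x := by
      push_cast
      ring
    rw [h2, norm_mul, ptL_norm r0.le, Complex.norm_real, Real.norm_of_nonneg (by linarith)]
    refine mul_le_mul_of_nonneg_left ?_ hC0
    nlinarith
  -- the functions under the integral
  set F : ℝ → ℝ → ℝ := fun q x =>
    T x * ((h (pt r x)).re - (h ((q : ℂ) * pt r x)).re) * (1 - q)⁻¹ with hF
  have hFc : ∀ q : ℝ, 0 ≤ q → q < 1 → Continuous (F q) := by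
    intro q q0 q1
    have e : Continuous (fun x => h ((q : ℂ) * pt r x)) := by
      refine hh.continuousOn.comp_continuous (continuous_const.mul (ptL_cont r)) fun y => ?_
      exact closedBall_subset_ball r1 (hin y q q0 q1.le)
    exact (hT.cont.mul ((Complex.continuous_re.comp (hptL_cont hh r0 r1)).sub
      (Complex.continuous_re.comp e))).mul continuous_const
  have hE : ∀ q : ℝ, 0 ≤ q → q < 1 → E q T (rho h r) = M (F q) := by
    intro q q0 q1
    rw [E_eq q0 q1 hT (rho_CP hh r0 r1), div_eq_mul_inv, mul_comm, ← M_mul]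
    refine M_congr fun x => ?_
    rw [Pq_rho hh r0 r1 q0 q1, ptL_mul]
    simp only [hF, rho]
    ring
  have hev : ∀ᶠ q : ℝ in 𝓝[<] 1, 0 < q ∧ q < 1 := by
    have h1 : ∀ᶠ q : ℝ in 𝓝[<] 1, q < 1 := self_mem_nhdsWithin
    have h2 : ∀ᶠ q : ℝ in 𝓝[<] 1, 0 < q :=
      nhdsWithin_le_nhds (eventually_gt_nhds (by norm_num))
    exact h2.and h1
  have hmain : Tendsto (fun q => M (F q)) (𝓝[<] 1)
      (𝓝 (M (fun x => T x * (pt r x * deriv h (pt r x)).re))) := by
    unfold M
    refine Tendsto.const_mul _ ?_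
    refine intervalIntegral.tendsto_integral_filter_of_dominated_convergence
      (fun x => |T x| * C) ?_ ?_ ?_ ?_
    · filter_upwards [hev] with q hq
      exact (hFc q hq.1.le hq.2).aestronglyMeasurable
    · filter_upwards [hev] with q hq
      refine Filter.Eventually.of_forall fun x _ => ?_
      have h1 : 0 < 1 - q := by linarith [hq.2]
      have h2 : |(h (pt r x)).re - (h ((q : ℂ) * pt r x)).re| ≤ C * (1 - q) := by
        rw [← Complex.sub_re]
        exact (Complex.abs_re_le_norm _).trans (hlip x q hq.1.le hq.2.le)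
      simp only [hF, norm_mul, Real.norm_eq_abs]
      rw [abs_of_pos (inv_pos.mpr h1), mul_assoc]
      refine mul_le_mul_of_nonneg_left ?_ (abs_nonneg _)
      rw [← div_eq_mul_inv, div_le_iff₀ h1]
      exact h2
    · exact (hT.cont.abs.mul continuous_const).intervalIntegrable _ _
    · refine Filter.Eventually.of_forall fun x _ => ?_
      have hz : pt r x ∈ ball (0 : ℂ) 1 := by
        rw [mem_ball_zero_iff, ptL_norm r0.le]
        exact r1
      have hd1 : HasDerivAt h (deriv h (pt r x)) (((1 : ℝ) : ℂ) * pt r x) := by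
        rw [Complex.ofReal_one, one_mul]
        exact ((hh _ hz).differentiableAt (isOpen_ball.mem_nhds hz)).hasDerivAt
      have hd2 : HasDerivAt (fun q : ℝ => ((q : ℝ) : ℂ) * pt r x) (1 * pt r x) 1 :=
        (Complex.ofRealCLM.hasDerivAt (x := (1 : ℝ))).mul_const (pt r x)
      have hd3 : HasDerivAt (fun q : ℝ => h ((q : ℂ) * pt r x))
          (deriv h (pt r x) * (1 * pt r x)) 1 := HasDerivAt.comp (1 : ℝ) hd1 hd2
      have hd4 : HasDerivAt (fun q : ℝ => (h ((q : ℂ) * pt r x)).re)
          ((deriv h (pt r x) * (1 * pt r x)).re) 1 :=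
        (Complex.reCLM.hasFDerivAt.comp_hasDerivAt (1 : ℝ) hd3)
      have hs := (hasDerivAt_iff_tendsto_slope.mp hd4).mono_left
        (nhdsWithin_mono (1 : ℝ) (fun y (hy : y < 1) => (ne_of_lt hy : y ≠ 1)))
      have hs2 := hs.const_mul (T x)
      have e2 : (pt r x * deriv h (pt r x)).re = (deriv h (pt r x) * (1 * pt r x)).re := by
        rw [one_mul, mul_comm]
      rw [e2]
      refine hs2.congr' ?_
      filter_upwards [hev] with q hq
      have h1 : (1 - q) ≠ 0 := by linarith [hq.2]
      have h2 : (q - 1) ≠ 0 := by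
        intro h3
        exact h1 (by linarith)
      simp only [hF, slope, vsub_eq_sub, smul_eq_mul, Complex.ofReal_one, one_mul]
      field_simp
      ring
  refine hmain.congr' ?_
  filter_upwards [hev] with q hq
  exact (hE q hq.1.le hq.2).symm

end Pool.Agent.Helper93.MA
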