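import Pool.Agent.Helper93.MA.Defs

/-!
Project MA, module LogE: the logarithm of `f z / z`.

`g = dslope f 0` is holomorphic on the disk (removable singularity,
`Complex.differentiableOn_dslope`), `g 0 = deriv f 0 = 1`, `g z = f z / z ≠ 0` for `z ≠ 0` by
injectivity (`f z = 0 = f 0` only for `z = 0`).  `deriv g / g` has a primitive `h` on the disk with
`h 0 = 0` (`DifferentiableOn.isExactOn_ball`, `.with_val_at 0 0`), and `g * exp (-h)` has
derivative `0`, so it is `1` (compare Pool/Agent/Helper39/Area/Branch.lean lines 142-175).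
-/

set_option autoImplicit false

open Real Metric

namespace Pool.Agent.Helper93.MA

theorem exists_log {f : ℂ → ℂ} (hf : ClassS f) : ∃ h : ℂ → ℂ, LogF f h := by
  have h0b : (0 : ℂ) ∈ ball (0 : ℂ) 1 := mem_ball_self one_pos
  have hnhds : ball (0 : ℂ) 1 ∈ nhds (0 : ℂ) := isOpen_ball.mem_nhds h0b
  set g : ℂ → ℂ := dslope f 0 with hg
  have hgd : DifferentiableOn ℂ g (ball 0 1) :=
    (Complex.differentiableOn_dslope hnhds).2 hf.diff
  have hg0 : g 0 = 1 := by rw [hg, dslope_same, hf.one]
  have hgz : ∀ z : ℂ, z * g z = f z := by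
    intro z
    have h1 := sub_smul_dslope f 0 z
    rw [sub_zero, hf.zero, sub_zero, smul_eq_mul] at h1
    exact h1
  have hgne : ∀ z ∈ ball (0 : ℂ) 1, g z ≠ 0 := by
    intro z hz hgz0
    by_cases h0 : z = 0
    · rw [h0, hg0] at hgz0
      exact one_ne_zero hgz0
    · have h1 : f z = f 0 := by rw [← hgz z, hgz0, mul_zero, hf.zero]
      exact h0 (hf.inj hz h0b h1)
  have hQd : DifferentiableOn ℂ (fun z => deriv g z / g z) (ball 0 1) :=
    (hgd.deriv isOpen_ball).div hgd hgne
  obtain ⟨F, hF0, hF⟩ := hQd.isExactOn_ball.with_val_at 0 0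
  refine ⟨F, ⟨fun z hz => (hF z hz).differentiableAt.differentiableWithinAt, hF0, ?_⟩⟩
  have hderiv : ∀ z ∈ ball (0 : ℂ) 1, HasDerivAt (fun z => Complex.exp (-F z) * g z) 0 z := by
    intro z hz
    have h1 := ((hF z hz).neg.cexp).mul
      ((hgd.differentiableAt (isOpen_ball.mem_nhds hz)).hasDerivAt)
    have h2 := hgne z hz
    have e : (0 : ℂ) = Complex.exp (-F z) * -(deriv g z / g z) * g z +
        Complex.exp (-F z) * deriv g z := by
      field_simp
      ring
    rw [e]
    exact h1
  intro z hz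
  have h1 : Complex.exp (-F z) * g z = Complex.exp (-F 0) * g 0 := by
    apply (convex_ball (0 : ℂ) 1).is_const_of_fderivWithin_eq_zero (𝕜 := ℂ)
      (f := fun z => Complex.exp (-F z) * g z) _ _ hz h0b
    · intro ω hω
      exact (hderiv ω hω).differentiableAt.differentiableWithinAt
    · intro ω hω
      have h3 := (hderiv ω hω).hasFDerivAt.hasFDerivWithinAt (s := ball (0 : ℂ) 1)
      rw [h3.fderivWithin (isOpen_ball.uniqueDiffWithinAt hω)]
      ext
      simp
  rw [hF0, neg_zero, Complex.exp_zero, one_mul, hg0, Complex.exp_neg] at h1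
  have h3 := Complex.exp_ne_zero (F z)
  have h4 : g z = Complex.exp (F z) := by
    field_simp at h1
    exact h1
  rw [← h4, hgz z]

end Pool.Agent.Helper93.MA
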