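import Pool.Agent.Helper93.MA.Form

/-!
Project MA, module Low: lower bound for `E q (W^2) ρ`, `W = min (exp ρ) 1`.

`point`: put `T = min (exp a) 1 ^ 2`, `T' = min (exp b) 1 ^ 2`, `s = 1 - T`, `s' = 1 - T'`,
`a = a₋ + a₊`, `b = b₋ + b₊` with `a₋ = min a 0`, `a₊ = max a 0`.  Then
`(T - T') (a₊ - b₊) = (s' - s)(a₊ - b₊) = s' a₊ + s b₊` because `s a₊ = 0 = s' b₊`, and with
`u = min (exp a) 1 = exp a₋`, `v = exp b₋`:
`(T - T')(a₋ - b₋) = (u - v)(u + v)(log u - log v) ≥ 2 (u-v)^2`
(logarithmic mean at most arithmetic mean: `2 (u - v)/(u + v) ≤ log u - log v` for `u ≥ v > 0`;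
equivalently `2 (1 - exp (-t)) ≤ t (1 + exp (-t))` for `t ≥ 0`, i.e. `tanh (t/2) ≤ t/2`).

`low`: by `point` and `kq > 0`, with `s = 1 - W^2`, `p = max ρ 0`
`E q (W^2) ρ ≥ 2 E q W W + (1/2) M_x M_y [kq q (x-y) (s x p y + s y p x)]
  = 2 E q W W + M_y [p y κ y]`, `κ y = M_x (s x kq q (x-y))` (`M_swap`, `kq_neg`); `κ` is
continuous and periodic, choose `y0` where it is minimal.
-/

set_option autoImplicit false

open Real Metric

namespace Pool.Agent.Helper93.MA

private theorem Low_key {t : ℝ} (ht : 0 ≤ t) : 0 ≤ (t - 2) * Real.exp t + t + 2 := by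
  have hd : ∀ x : ℝ, HasDerivAt (fun y : ℝ => (y - 2) * Real.exp y + y + 2)
      ((x - 1) * Real.exp x + 1) x := by
    intro x
    have h1 : HasDerivAt (fun y : ℝ => (y - 2) * Real.exp y)
        (1 * Real.exp x + (x - 2) * Real.exp x) x :=
      ((hasDerivAt_id x).sub_const 2).mul (Real.hasDerivAt_exp x)
    have h2 := (h1.add (hasDerivAt_id x)).add_const 2
    refine h2.congr_deriv ?_
    ring
  have hmono : Monotone (fun y : ℝ => (y - 2) * Real.exp y + y + 2) := by
    refine monotone_of_deriv_nonneg (fun x => (hd x).differentiableAt) fun x => ?_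
    rw [(hd x).deriv]
    have h1 := Real.add_one_le_exp (-x)
    have h2 := Real.exp_pos x
    have h3 : Real.exp (-x) * Real.exp x = 1 := by
      rw [← Real.exp_add, neg_add_cancel, Real.exp_zero]
    nlinarith [mul_le_mul_of_nonneg_right h1 h2.le]
  have h := hmono ht
  simp only [zero_sub, Real.exp_zero] at h
  linarith

/-- logarithmic mean at most arithmetic mean -/
private theorem Low_log {x y : ℝ} (h : x ≤ y) :
    2 * (Real.exp y - Real.exp x) ≤ (Real.exp y + Real.exp x) * (y - x) := by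
  have h1 := Low_key (t := y - x) (by linarith)
  have h2 : Real.exp (y - x) * Real.exp x = Real.exp y := by
    rw [← Real.exp_add, sub_add_cancel]
  have h3 := Real.exp_pos x
  have h4 : 0 ≤ ((y - x - 2) * Real.exp (y - x) + (y - x) + 2) * Real.exp x :=
    mul_nonneg h1 h3.le
  have h5 : ((y - x - 2) * Real.exp (y - x) + (y - x) + 2) * Real.exp x =
      (y - x - 2) * Real.exp y + (y - x + 2) * Real.exp x := by
    rw [← h2]
    ring
  rw [h5] at h4
  linarith

theorem point (a b : ℝ) :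
    2 * (min (Real.exp a) 1 - min (Real.exp b) 1) ^ 2
      + (1 - (min (Real.exp a) 1) ^ 2) * max b 0 + (1 - (min (Real.exp b) 1) ^ 2) * max a 0
      ≤ ((min (Real.exp a) 1) ^ 2 - (min (Real.exp b) 1) ^ 2) * (a - b) := by
  have hlo : ∀ c : ℝ, c ≤ 0 → min (Real.exp c) 1 = Real.exp c ∧ max c 0 = 0 := fun c hc =>
    ⟨min_eq_left (Real.exp_le_one_iff.2 hc), max_eq_right hc⟩
  have hhi : ∀ c : ℝ, 0 ≤ c → min (Real.exp c) 1 = 1 ∧ max c 0 = c := fun c hc =>
    ⟨min_eq_right (Real.one_le_exp hc), max_eq_left hc⟩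
  rcases le_total a 0 with ha | ha
  · obtain ⟨ea, ma⟩ := hlo a ha
    rcases le_total b 0 with hb | hb
    · obtain ⟨eb, mb⟩ := hlo b hb
      rw [ea, ma, eb, mb]
      rcases le_total a b with hab | hab
      · have h := Low_log hab
        have h2 : 0 ≤ Real.exp b - Real.exp a := by
          have := Real.exp_le_exp.2 hab
          linarith
        nlinarith [mul_le_mul_of_nonneg_left h h2]
      · have h := Low_log hab
        have h2 : 0 ≤ Real.exp a - Real.exp b := by
          have := Real.exp_le_exp.2 hab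
          linarith
        nlinarith [mul_le_mul_of_nonneg_left h h2]
    · obtain ⟨eb, mb⟩ := hhi b hb
      rw [ea, ma, eb, mb]
      have h := Low_log ha
      rw [Real.exp_zero] at h
      have h2 : 0 ≤ 1 - Real.exp a := by
        have := Real.exp_le_one_iff.2 ha
        linarith
      nlinarith [mul_le_mul_of_nonneg_left h h2]
  · obtain ⟨ea, ma⟩ := hhi a ha
    rcases le_total b 0 with hb | hb
    · obtain ⟨eb, mb⟩ := hlo b hb
      rw [ea, ma, eb, mb]
      have h := Low_log hb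
      rw [Real.exp_zero] at h
      have h2 : 0 ≤ 1 - Real.exp b := by
        have := Real.exp_le_one_iff.2 hb
        linarith
      nlinarith [mul_le_mul_of_nonneg_left h h2]
    · obtain ⟨eb, mb⟩ := hhi b hb
      rw [ea, ma, eb, mb]
      norm_num

private theorem Low_mono2 {F G : ℝ → ℝ → ℝ} (hF : Continuous (fun p : ℝ × ℝ => F p.1 p.2))
    (hG : Continuous (fun p : ℝ × ℝ => G p.1 p.2)) (h : ∀ x y, F x y ≤ G x y) :
    M (fun x => M (fun y => F x y)) ≤ M (fun x => M (fun y => G x y)) := by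
  refine M_mono (M_cont hF) (M_cont hG) fun x => ?_
  refine M_mono ?_ ?_ (h x)
  · exact hF.comp (continuous_const.prodMk continuous_id)
  · exact hG.comp (continuous_const.prodMk continuous_id)

private theorem Low_add2 {F G : ℝ → ℝ → ℝ} (hF : Continuous (fun p : ℝ × ℝ => F p.1 p.2))
    (hG : Continuous (fun p : ℝ × ℝ => G p.1 p.2)) :
    M (fun x => M (fun y => F x y + G x y)) =
      M (fun x => M (fun y => F x y)) + M (fun x => M (fun y => G x y)) := by
  rw [← M_add (M_cont hF) (M_cont hG)]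
  refine M_congr fun x => ?_
  exact M_add (hF.comp (continuous_const.prodMk continuous_id))
    (hG.comp (continuous_const.prodMk continuous_id))

private theorem Low_mul2 (c : ℝ) (F : ℝ → ℝ → ℝ) :
    M (fun x => M (fun y => c * F x y)) = c * M (fun x => M (fun y => F x y)) := by
  rw [← M_mul]
  exact M_congr fun x => M_mul c _

theorem low {q : ℝ} (h0 : 0 ≤ q) (h1 : q < 1) {ρ : ℝ → ℝ} (hρ : CP ρ) :
    ∃ y0 : ℝ, 2 * E q (W ρ) (W ρ)
      + M (fun x => max (ρ x) 0) * M (fun x => (1 - W ρ x ^ 2) * kq q (x - y0))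
      ≤ E q (fun x => W ρ x ^ 2) ρ := by
  have hk : Continuous (kq q) := kq_cont h0 h1
  have hr : Continuous ρ := hρ.cont
  have hW : Continuous (W ρ) := by
    unfold W
    exact (Real.continuous_exp.comp hr).min continuous_const
  have hp : Continuous (fun x => max (ρ x) 0) := hr.max continuous_const
  have hs : Continuous (fun x => 1 - W ρ x ^ 2) := by fun_prop
  set κ : ℝ → ℝ := fun y => M (fun x => (1 - W ρ x ^ 2) * kq q (x - y)) with hκ
  have hκc : Continuous κ := by
    have h : Continuous (fun p : ℝ × ℝ => (1 - W ρ p.2 ^ 2) * kq q (p.2 - p.1)) := by fun_prop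
    exact M_cont (F := fun y x => (1 - W ρ x ^ 2) * kq q (x - y)) h
  have hκp : Function.Periodic κ (2 * π) := by
    intro y
    refine M_congr fun x => ?_
    congr 1
    rw [← kq_per q (x - (y + 2 * π))]
    congr 1
    ring
  obtain ⟨y0, -, hy0⟩ := (isCompact_Icc (a := (0 : ℝ)) (b := 2 * π)).exists_isMinOn
    ⟨0, Set.left_mem_Icc.2 two_pi_pos'.le⟩ hκc.continuousOn
  have hmin : ∀ y, κ y0 ≤ κ y := by
    intro y
    obtain ⟨z, hz, hyz⟩ := hκp.exists_mem_Ico₀ two_pi_pos' y
    rw [hyz]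
    exact hy0 (Set.Ico_subset_Icc_self hz)
  refine ⟨y0, ?_⟩
  have c1 : Continuous (fun p : ℝ × ℝ =>
      2 * (kq q (p.1 - p.2) * ((W ρ p.1 - W ρ p.2) * (W ρ p.1 - W ρ p.2)))) := by fun_prop
  have c2 : Continuous (fun p : ℝ × ℝ =>
      kq q (p.1 - p.2) * (1 - W ρ p.1 ^ 2) * max (ρ p.2) 0) := by fun_prop
  have c3 : Continuous (fun p : ℝ × ℝ =>
      kq q (p.1 - p.2) * (1 - W ρ p.2 ^ 2) * max (ρ p.1) 0) := by fun_prop
  have c4 : Continuous (fun p : ℝ × ℝ =>
      kq q (p.1 - p.2) * ((W ρ p.1 ^ 2 - W ρ p.2 ^ 2) * (ρ p.1 - ρ p.2))) := by fun_prop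
  have key := Low_mono2 (F := fun x y =>
      2 * (kq q (x - y) * ((W ρ x - W ρ y) * (W ρ x - W ρ y))) +
        (kq q (x - y) * (1 - W ρ x ^ 2) * max (ρ y) 0 +
          kq q (x - y) * (1 - W ρ y ^ 2) * max (ρ x) 0))
    (G := fun x y => kq q (x - y) * ((W ρ x ^ 2 - W ρ y ^ 2) * (ρ x - ρ y)))
    (c1.add (c2.add c3)) c4 (fun x y => by
      have h2 := point (ρ x) (ρ y)
      have h3 := mul_le_mul_of_nonneg_left h2 (kq_pos h0 h1 (x - y)).le
      have h4 : W ρ x = min (Real.exp (ρ x)) 1 := rfl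
      have h5 : W ρ y = min (Real.exp (ρ y)) 1 := rfl
      show 2 * (kq q (x - y) * ((W ρ x - W ρ y) * (W ρ x - W ρ y))) +
        (kq q (x - y) * (1 - W ρ x ^ 2) * max (ρ y) 0 +
          kq q (x - y) * (1 - W ρ y ^ 2) * max (ρ x) 0) ≤
        kq q (x - y) * ((W ρ x ^ 2 - W ρ y ^ 2) * (ρ x - ρ y))
      rw [h4, h5]
      refine le_trans (le_of_eq ?_) h3
      ring)
  rw [Low_add2 (F := fun x y => 2 * (kq q (x - y) * ((W ρ x - W ρ y) * (W ρ x - W ρ y))))
    (G := fun x y => kq q (x - y) * (1 - W ρ x ^ 2) * max (ρ y) 0 +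
          kq q (x - y) * (1 - W ρ y ^ 2) * max (ρ x) 0) c1 (c2.add c3),
    Low_add2 (F := fun x y => kq q (x - y) * (1 - W ρ x ^ 2) * max (ρ y) 0)
      (G := fun x y => kq q (x - y) * (1 - W ρ y ^ 2) * max (ρ x) 0) c2 c3,
    Low_mul2] at key
  have e1 : M (fun x => M (fun y => kq q (x - y) * (1 - W ρ x ^ 2) * max (ρ y) 0)) =
      M (fun y => max (ρ y) 0 * κ y) := by
    rw [M_swap c2]
    refine M_congr fun y => ?_
    rw [hκ, ← M_mul]
    refine M_congr fun x => ?_
    ring
  have e2 : M (fun x => M (fun y => kq q (x - y) * (1 - W ρ y ^ 2) * max (ρ x) 0)) =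
      M (fun y => max (ρ y) 0 * κ y) := by
    refine M_congr fun x => ?_
    rw [hκ, ← M_mul]
    refine M_congr fun y => ?_
    have h : kq q (x - y) = kq q (y - x) := by
      rw [← kq_neg, neg_sub]
    rw [h]
    ring
  rw [e1, e2] at key
  have h3 : M (fun x => max (ρ x) 0) * κ y0 ≤ M (fun y => max (ρ y) 0 * κ y) := by
    have h4 : M (fun x => max (ρ x) 0 * κ y0) ≤ M (fun y => max (ρ y) 0 * κ y) :=
      M_mono (hp.mul continuous_const) (hp.mul hκc) fun y =>
        mul_le_mul_of_nonneg_left (hmin y) (le_max_right _ _)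
    have h5 : M (fun x => max (ρ x) 0 * κ y0) = M (fun x => max (ρ x) 0) * κ y0 := by
      rw [mul_comm, ← M_mul]
      refine M_congr fun x => ?_
      ring
    linarith
  have h6 : κ y0 = M (fun x => (1 - W ρ x ^ 2) * kq q (x - y0)) := rfl
  rw [← h6]
  unfold E
  linarith

end Pool.Agent.Helper93.MA
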