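import Pool.Agent.Helper93.MA.Red
import Pool.Agent.Helper93.MA.LogE
import Pool.Agent.Helper93.MA.AreaB
import Pool.Agent.Helper93.MA.LimE

/-!
Project MA, module MainA: the area bound from the inequality `FI`.

Take `h` from `exists_log`.  For `0 < r < 1` put `ρ = rho h r`, `η = -log r = -M ρ ≥ 0`
(`M_rho`).  `red` for `q → 1` and `lim_E` give
`189/250 - 10^6 η ≤ M (W^2) + M (W^2 Re (z h'))`, and `area_ge` gives
`π (189/250 + 10^6 log r) ≤ area f`.  Let `r → 1`.
-/

set_option autoImplicit false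

open Real Metric Filter Topology

namespace Pool.Agent.Helper93.MA

theorem main_of_FI (hFI : FI) {f : ℂ → ℂ} (hf : ClassS f) : 189 / 250 * π ≤ area f := by
  obtain ⟨h, hh⟩ := exists_log hf
  have key : ∀ r : ℝ, 0 < r → r < 1 → π * (189 / 250 + 1000000 * Real.log r) ≤ area f := by
    intro r r0 r1
    have hlog : Real.log r ≤ 0 := Real.log_nonpos r0.le r1.le
    have hρ := rho_CP hh.diff r0 r1
    have hM := M_rho hh.diff hh.zero r0 r1
    have hT : CP (fun x => W (rho h r) x ^ 2) := by
      constructor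
      · unfold W
        exact ((Real.continuous_exp.comp hρ.cont).min continuous_const).pow 2
      · intro x
        simp only [W, hρ.per x]
    have h1 : ∀ᶠ q in 𝓝[<] (1 : ℝ), 189 / 250 + 1000000 * Real.log r ≤
        M (fun x => W (rho h r) x ^ 2) + E q (fun x => W (rho h r) x ^ 2) (rho h r) := by
      have h2 : Set.Ioo (0.999999 : ℝ) 1 ∈ 𝓝[<] (1 : ℝ) := Ioo_mem_nhdsLT (by norm_num)
      filter_upwards [h2] with q hq
      have h3 := red hFI hq.1.le hq.2 (η := -Real.log r) (by linarith) hρ (by rw [hM]; ring)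
      linarith
    have h2 := (lim_E hh.diff r0 r1 hT).const_add (M (fun x => W (rho h r) x ^ 2))
    have h3 : 189 / 250 + 1000000 * Real.log r ≤ M (fun x => W (rho h r) x ^ 2)
      + M (fun x => W (rho h r) x ^ 2 * (pt r x * deriv h (pt r x)).re) :=
      ge_of_tendsto h2 h1
    exact (mul_le_mul_of_nonneg_left h3 Real.pi_pos.le).trans (area_ge hf hh r0 r1)
  have h4 : Tendsto (fun r : ℝ => π * (189 / 250 + 1000000 * Real.log r)) (𝓝[<] 1)
      (𝓝 (π * (189 / 250 + 1000000 * Real.log 1))) := by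
    have h5 : ContinuousAt (fun r : ℝ => π * (189 / 250 + 1000000 * Real.log r)) 1 := by
      have := Real.continuousAt_log (one_ne_zero : (1 : ℝ) ≠ 0)
      fun_prop
    exact h5.tendsto.mono_left nhdsWithin_le_nhds
  rw [Real.log_one] at h4
  have h6 : Set.Ioo (0 : ℝ) 1 ∈ 𝓝[<] (1 : ℝ) := Ioo_mem_nhdsLT (by norm_num)
  have h7 : π * (189 / 250 + 1000000 * 0) ≤ area f := by
    refine le_of_tendsto h4 ?_
    filter_upwards [h6] with r hr
    exact key r hr.1 hr.2
  linarith

end Pool.Agent.Helper93.MA
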