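import Mathlib

/-!
Project MA, module PolyL: polynomials as coefficient lists, positivity by bisection.
-/

set_option autoImplicit false

namespace Pool.Agent.Helper93.MA

/-! ### integer lists -/

/-- evaluation of an integer coefficient list -/
def evZ : List ℤ → ℝ → ℝ
  | [], _ => 0
  | x :: l, s => (x : ℝ) + s * evZ l s

/-- a lower bound on `[0, 1]` -/
def lbZ : List ℤ → ℤ
  | [] => 0
  | x :: l => x + min 0 (lbZ l)

theorem lbZ_le : ∀ (l : List ℤ) (s : ℝ), 0 ≤ s → s ≤ 1 → (lbZ l : ℝ) ≤ evZ l s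
  | [], s, _, _ => by simp [lbZ, evZ]
  | x :: l, s, h0, h1 => by
    have ih := lbZ_le l s h0 h1
    simp only [lbZ, evZ]
    push_cast
    have h2 : min (0 : ℝ) (lbZ l : ℝ) ≤ s * evZ l s := by
      rcases le_total 0 (evZ l s) with h | h
      · exact (min_le_left _ _).trans (mul_nonneg h0 h)
      · refine (min_le_right _ _).trans (ih.trans ?_)
        nlinarith
    linarith

/-- sum of integer lists -/
def addZ : List ℤ → List ℤ → List ℤ
  | [], b => b
  | a, [] => a
  | x :: a, y :: b => (x + y) :: addZ a b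

theorem evZ_addZ : ∀ (a b : List ℤ) (s : ℝ), evZ (addZ a b) s = evZ a s + evZ b s
  | [], b, s => by simp [addZ, evZ]
  | x :: a, [], s => by simp [addZ, evZ]
  | x :: a, y :: b, s => by
    have ih := evZ_addZ a b s
    simp only [addZ, evZ, ih]
    push_cast
    ring

/-- substitution `s -> s + 1` -/
def shiftZ : List ℤ → List ℤ
  | [] => []
  | x :: l => let r := shiftZ l; addZ [x] (addZ r (0 :: r))

theorem evZ_shiftZ : ∀ (l : List ℤ) (s : ℝ), evZ (shiftZ l) s = evZ l (s + 1)
  | [], s => by simp [shiftZ, evZ]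
  | x :: l, s => by
    have ih := evZ_shiftZ l s
    simp only [shiftZ, evZ_addZ, evZ, ih]
    push_cast
    ring

/-- substitution `s -> s / 2`, scaled -/
def halfZ : List ℤ → List ℤ × ℤ
  | [] => ([], 1)
  | x :: l => let r := halfZ l; (x * r.2 :: r.1, 2 * r.2)

theorem halfZ_pos : ∀ l : List ℤ, 0 < (halfZ l).2
  | [] => by simp [halfZ]
  | x :: l => by
    have ih := halfZ_pos l
    simp only [halfZ]
    omega

theorem evZ_halfZ : ∀ (l : List ℤ) (s : ℝ),
    2 * evZ (halfZ l).1 s = ((halfZ l).2 : ℝ) * evZ l (s / 2)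
  | [], s => by simp [halfZ, evZ]
  | x :: l, s => by
    have ih := evZ_halfZ l s
    simp only [halfZ, evZ]
    push_cast
    linear_combination s * ih

/-- positivity on `[0, 1]` by bisection -/
def bisZ : ℕ → List ℤ → Bool
  | 0, l => decide (0 ≤ lbZ l)
  | n + 1, l => decide (0 ≤ lbZ l) || (bisZ n (halfZ l).1 && bisZ n (shiftZ (halfZ l).1))

theorem bisZ_sound : ∀ (n : ℕ) (l : List ℤ), bisZ n l = true → ∀ s : ℝ, 0 ≤ s → s ≤ 1 →
    0 ≤ evZ l s
  | 0, l, h, s, h0, h1 => by
    simp only [bisZ, decide_eq_true_eq] at h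
    have := lbZ_le l s h0 h1
    have h2 : (0 : ℝ) ≤ (lbZ l : ℝ) := by exact_mod_cast h
    linarith
  | n + 1, l, h, s, h0, h1 => by
    simp only [bisZ, Bool.or_eq_true, Bool.and_eq_true, decide_eq_true_eq] at h
    rcases h with h | ⟨ha, hb⟩
    · have := lbZ_le l s h0 h1
      have h2 : (0 : ℝ) ≤ (lbZ l : ℝ) := by exact_mod_cast h
      linarith
    · have hp : (0 : ℝ) < ((halfZ l).2 : ℝ) := by exact_mod_cast halfZ_pos l
      rcases le_total s (1 / 2) with hs | hs
      · have h2 := bisZ_sound n _ ha (2 * s) (by linarith) (by linarith)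
        have h3 := evZ_halfZ l (2 * s)
        rw [mul_div_cancel_left₀ s (two_ne_zero : (2 : ℝ) ≠ 0)] at h3
        have h4 : 0 ≤ ((halfZ l).2 : ℝ) * evZ l s := by rw [← h3]; linarith
        exact nonneg_of_mul_nonneg_right h4 hp
      · have h2 := bisZ_sound n _ hb (2 * s - 1) (by linarith) (by linarith)
        rw [evZ_shiftZ, sub_add_cancel] at h2
        have h3 := evZ_halfZ l (2 * s)
        rw [mul_div_cancel_left₀ s (two_ne_zero : (2 : ℝ) ≠ 0)] at h3
        have h4 : 0 ≤ ((halfZ l).2 : ℝ) * evZ l s := by rw [← h3]; linarith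
        exact nonneg_of_mul_nonneg_right h4 hp

/-! ### rational lists -/

/-- evaluation of a rational coefficient list -/
noncomputable def evQ : List ℚ → ℝ → ℝ
  | [], _ => 0
  | x :: l, s => (x : ℝ) + s * evQ l s

def addQ : List ℚ → List ℚ → List ℚ
  | [], b => b
  | a, [] => a
  | x :: a, y :: b => (x + y) :: addQ a b

theorem evQ_addQ : ∀ (a b : List ℚ) (s : ℝ), evQ (addQ a b) s = evQ a s + evQ b s
  | [], b, s => by simp [addQ, evQ]
  | x :: a, [], s => by simp [addQ, evQ]
  | x :: a, y :: b, s => by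
    have ih := evQ_addQ a b s
    simp only [addQ, evQ, ih]
    push_cast
    ring

def scQ (k : ℚ) : List ℚ → List ℚ
  | [] => []
  | x :: a => k * x :: scQ k a

theorem evQ_scQ (k : ℚ) : ∀ (a : List ℚ) (s : ℝ), evQ (scQ k a) s = (k : ℝ) * evQ a s
  | [], s => by simp [scQ, evQ]
  | x :: a, s => by
    have ih := evQ_scQ k a s
    simp only [scQ, evQ, ih]
    push_cast
    ring

def mulQ : List ℚ → List ℚ → List ℚ
  | [], _ => []
  | x :: a, b => addQ (scQ x b) (0 :: mulQ a b)

theorem evQ_mulQ : ∀ (a b : List ℚ) (s : ℝ), evQ (mulQ a b) s = evQ a s * evQ b s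
  | [], b, s => by simp [mulQ, evQ]
  | x :: a, b, s => by
    have ih := evQ_mulQ a b s
    simp only [mulQ, evQ_addQ, evQ_scQ, evQ, ih]
    push_cast
    ring

/-- substitution `s -> a + h s` -/
def compQ (a h : ℚ) : List ℚ → List ℚ
  | [] => []
  | x :: l => addQ [x] (mulQ [a, h] (compQ a h l))

theorem evQ_compQ (a h : ℚ) : ∀ (l : List ℚ) (s : ℝ),
    evQ (compQ a h l) s = evQ l ((a : ℝ) + h * s)
  | [], s => by simp [compQ, evQ]
  | x :: l, s => by
    have ih := evQ_compQ a h l s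
    simp only [compQ, evQ_addQ, evQ_mulQ, evQ, ih]
    ring

/-- rounding down -/
def flQ (N : ℤ) : List ℚ → List ℤ
  | [] => []
  | x :: l => (x * N).floor :: flQ N l

theorem evZ_flQ (N : ℤ) : ∀ (l : List ℚ) (s : ℝ), 0 ≤ s →
    evZ (flQ N l) s ≤ (N : ℝ) * evQ l s
  | [], s, _ => by simp [flQ, evZ, evQ]
  | x :: l, s, h0 => by
    have ih := evZ_flQ N l s h0
    simp only [flQ, evZ, evQ]
    have h1 : (((x * N).floor : ℤ) : ℝ) ≤ (x : ℝ) * N := by
      have h2 : (((x * N).floor : ℤ) : ℚ) ≤ x * N := Rat.floor_le _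
      exact_mod_cast h2
    have h3 := mul_le_mul_of_nonneg_left ih h0
    nlinarith

/-- positivity of a rational list on `[a, a + h]` -/
def posQ (a h : ℚ) (l : List ℚ) : Bool := bisZ 12 (flQ 1000000000 (compQ a h l))

theorem posQ_sound {a h : ℚ} {l : List ℚ} (hl : posQ a h l = true) (hh : 0 < h) {v : ℝ}
    (h0 : (a : ℝ) ≤ v) (h1 : v ≤ (a : ℝ) + h) : 0 ≤ evQ l v := by
  have hh' : (0 : ℝ) < (h : ℝ) := by exact_mod_cast hh
  have hs0 : 0 ≤ (v - a) / h := div_nonneg (by linarith) hh'.le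
  have hs1 : (v - a) / h ≤ 1 := by
    rw [div_le_one hh']
    linarith
  have h2 := bisZ_sound _ _ hl _ hs0 hs1
  have h3 := (evZ_flQ 1000000000 (compQ a h l) _ hs0).trans' h2
  rw [evQ_compQ] at h3
  have h4 : (a : ℝ) + h * ((v - a) / h) = v := by
    field_simp
    ring
  rw [h4] at h3
  have h5 : (0 : ℝ) < ((1000000000 : ℤ) : ℝ) := by norm_num
  exact nonneg_of_mul_nonneg_right h3 h5

end Pool.Agent.Helper93.MA
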