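import Pool.Agent.Helper93.MA.Low

/-!
Project MA, module Red: reduction to the inequality `FI`.

Take `y0` from `low` and `δ x = 1 - W ρ (x + y0 + π)`; it is continuous, periodic, `0 ≤ δ < 1`.
`2 δ - δ^2 = 1 - W^2` (shifted), `-log (1 - δ) = -log W = -min ρ 0` (shifted), so
`pp δ = M (-min ρ 0)`, and `M (max ρ 0) = M ρ - M (min ρ 0) = pp δ - η` because
`ρ = min ρ 0 + max ρ 0`; in particular `η ≤ pp δ`.  `E q δ δ = E q W W` (`E_one_sub`, `E_shift`),
`M (fun x => (2 δ x - δ x^2) * kq q (x + π)) = M (fun x => (1 - W ρ x^2) * kq q (x - y0))`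
(`M_shift` by `-(y0 + π)` and `kq` has period `2 π`).  Then `FF q η δ` is the lower bound of
`M (W^2) + E q (W^2) ρ` of module Low.
-/

set_option autoImplicit false

open Real Metric

namespace Pool.Agent.Helper93.MA

private theorem W_CP {ρ : ℝ → ℝ} (hρ : CP ρ) : CP (W ρ) where
  cont := by
    unfold W
    exact (Real.continuous_exp.comp hρ.cont).min continuous_const
  per x := by
    simp only [W, hρ.per x]

private theorem W_pos (ρ : ℝ → ℝ) (x : ℝ) : 0 < W ρ x := by
  unfold W
  exact lt_min (Real.exp_pos _) one_pos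

private theorem W_le (ρ : ℝ → ℝ) (x : ℝ) : W ρ x ≤ 1 := by
  unfold W
  exact min_le_right _ _

private theorem log_W (ρ : ℝ → ℝ) (x : ℝ) : Real.log (W ρ x) = min (ρ x) 0 := by
  unfold W
  rcases le_total (ρ x) 0 with h | h
  · rw [min_eq_left (Real.exp_le_one_iff.mpr h), Real.log_exp, min_eq_left h]
  · rw [min_eq_right (Real.one_le_exp_iff.mpr h), Real.log_one, min_eq_right h]

theorem red (hFI : FI) {q : ℝ} (h0 : 0.999999 ≤ q) (h1 : q < 1) {η : ℝ} (hη : 0 ≤ η)
    {ρ : ℝ → ℝ} (hρ : CP ρ) (hM : M ρ = -η) :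
    189 / 250 - 1000000 * η ≤ M (fun x => W ρ x ^ 2) + E q (fun x => W ρ x ^ 2) ρ := by
  have hq0 : 0 ≤ q := by linarith
  obtain ⟨y0, hlow⟩ := low hq0 h1 hρ
  have hW : CP (W ρ) := W_CP hρ
  have hWs : CP (fun x => W ρ (x + (y0 + π))) := hW.shift (y0 + π)
  have hδ : CP (fun x => 1 - W ρ (x + (y0 + π))) := by
    constructor
    · exact continuous_const.sub hWs.cont
    · intro x
      have := hWs.per x
      simp only [this]
  -- the function 1 - W^2
  have hW2 : CP (fun x => W ρ x ^ 2) := by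
    constructor
    · exact hW.cont.pow 2
    · intro x
      simp only [hW.per x]
  have e1 : M (fun x => 2 * (1 - W ρ (x + (y0 + π))) - (1 - W ρ (x + (y0 + π))) ^ 2)
      = 1 - M (fun x => W ρ x ^ 2) := by
    have a1 : M (fun x => 2 * (1 - W ρ (x + (y0 + π))) - (1 - W ρ (x + (y0 + π))) ^ 2)
        = M (fun x => 1 - W ρ (x + (y0 + π)) ^ 2) := M_congr fun x => by ring
    have hc : Continuous (fun x => W ρ (x + (y0 + π)) ^ 2) := hWs.cont.pow 2
    have a2 : M (fun x => W ρ (x + (y0 + π)) ^ 2) = M (fun x => W ρ x ^ 2) :=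
      M_shift hW2 (y0 + π)
    rw [a1, M_sub continuous_const hc, M_const, a2]
  have e2 : E q (fun x => 1 - W ρ (x + (y0 + π))) (fun x => 1 - W ρ (x + (y0 + π)))
      = E q (W ρ) (W ρ) := by
    rw [E_one_sub q (fun x => W ρ (x + (y0 + π)))]
    exact E_shift hq0 h1 hW hW (y0 + π)
  -- the mean of the negative part
  have hmin : CP (fun x => min (ρ x) 0) := by
    constructor
    · exact hρ.cont.min continuous_const
    · intro x
      simp only [hρ.per x]
  have hmax : CP (fun x => max (ρ x) 0) := by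
    constructor
    · exact hρ.cont.max continuous_const
    · intro x
      simp only [hρ.per x]
  have e3 : pp (fun x => 1 - W ρ (x + (y0 + π))) = - M (fun x => min (ρ x) 0) := by
    unfold pp
    have a1 : M (fun x => -Real.log (1 - (1 - W ρ (x + (y0 + π)))))
        = M (fun x => (-1) * min (ρ (x + (y0 + π))) 0) := by
      refine M_congr fun x => ?_
      rw [sub_sub_cancel, log_W]
      ring
    rw [a1, M_mul]
    have a2 := M_shift hmin (y0 + π)
    rw [a2]
    ring
  have e4 : M (fun x => max (ρ x) 0) + M (fun x => min (ρ x) 0) = -η := by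
    rw [← M_add hmax.cont hmin.cont, ← hM]
    exact M_congr fun x => by rw [add_comm, min_add_max, add_zero]
  have e5 : M (fun x => max (ρ x) 0) = pp (fun x => 1 - W ρ (x + (y0 + π))) - η := by
    rw [e3]
    linarith
  have hkc : Continuous (fun x => kq q (x - y0)) :=
    (kq_cont hq0 h1).comp (continuous_id.sub continuous_const)
  have hg : CP (fun x => (1 - W ρ x ^ 2) * kq q (x - y0)) := by
    constructor
    · exact (continuous_const.sub hW2.cont).mul hkc
    · intro x
      have a1 : x + 2 * π - y0 = (x - y0) + 2 * π := by ring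
      simp only [hW.per x]
      rw [a1, kq_per]
  have e6 : M (fun x => (2 * (1 - W ρ (x + (y0 + π))) - (1 - W ρ (x + (y0 + π))) ^ 2)
      * kq q (x + π)) = M (fun x => (1 - W ρ x ^ 2) * kq q (x - y0)) := by
    rw [← M_shift hg (y0 + π)]
    refine M_congr fun x => ?_
    have a1 : x + (y0 + π) - y0 = x + π := by ring
    rw [a1]
    ring
  have hη2 : η ≤ pp (fun x => 1 - W ρ (x + (y0 + π))) := by
    have : 0 ≤ M (fun x => max (ρ x) 0) := M_nonneg fun x => le_max_right _ _
    linarith
  have key := hFI q h0 h1 η hη (fun x => 1 - W ρ (x + (y0 + π))) hδ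
    (fun x => by linarith [W_le ρ (x + (y0 + π))]) (fun x => by linarith [W_pos ρ (x + (y0 + π))])
    hη2
  have e7 : FF q η (fun x => 1 - W ρ (x + (y0 + π)))
      = 1 - (1 - M (fun x => W ρ x ^ 2)) + 2 * E q (W ρ) (W ρ)
        + M (fun x => max (ρ x) 0) * M (fun x => (1 - W ρ x ^ 2) * kq q (x - y0)) := by
    unfold FF
    rw [e1, e2, e6, e5]
  rw [e7] at key
  linarith

end Pool.Agent.Helper93.MA
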